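import Mathlib
import Pool.Agent.P.MP_386d8e_pr.Defs

-- part Pool.Agent.P.MP_386d8e_pr.Sums
section

set_option autoImplicit false

open MeasureTheory Filter Topology

namespace Pool.Agent.P.MP_386d8e_pr

theorem hs_congr {ι E : Type*} [AddCommMonoid E] [TopologicalSpace E] {f g : ι → E} {a b : E}
    (h : HasSum f a) (hf : ∀ i, g i = f i) (ha : b = a) : HasSum g b := by
  rw [ha, funext hf]; exact h

/-- regrouping along the fibres of a map -/
theorem fiber_hasSum {ι S : Type*} (e : ι → S) (w : ι → ℂ) (g : S → ℂ) (a : ℂ)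
    (h : HasSum (fun i => w i * g (e i)) a) :
    HasSum (fun s => (∑' i : e ⁻¹' {s}, w i) * g s) a := by
  have h1 := h.tsum_fiberwise e
  refine hs_congr h1 (fun s => ?_) rfl
  rw [← tsum_mul_right]
  refine tsum_congr fun i => ?_
  have : e i = s := i.2
  rw [this]

theorem fiber_norm {ι S : Type*} (e : ι → S) (w : ι → ℂ) (g : S → ℝ) (hg : ∀ s, 0 ≤ g s) (a : ℝ)
    (hw : Summable fun i => ‖w i‖) (h : HasSum (fun i => ‖w i‖ * g (e i)) a) :
    Summable (fun s => ‖∑' i : e ⁻¹' {s}, w i‖ * g s) ∧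
      ∑' s, ‖∑' i : e ⁻¹' {s}, w i‖ * g s ≤ a := by
  have h1 := h.tsum_fiberwise e
  have hle : ∀ s, ‖∑' i : e ⁻¹' {s}, w i‖ * g s ≤ ∑' i : e ⁻¹' {s}, ‖w i‖ * g (e i) := by
    intro s
    have h2 : ∑' i : e ⁻¹' {s}, ‖w i‖ * g (e i) = (∑' i : e ⁻¹' {s}, ‖w i‖) * g s := by
      rw [← tsum_mul_right]
      refine tsum_congr fun i => ?_
      have : e i = s := i.2
      rw [this]
    rw [h2]
    exact mul_le_mul_of_nonneg_right (norm_tsum_le_tsum_norm (hw.subtype _)) (hg s)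
  have hs : Summable (fun s => ‖∑' i : e ⁻¹' {s}, w i‖ * g s) :=
    Summable.of_nonneg_of_le (fun s => mul_nonneg (norm_nonneg _) (hg s)) hle h1.summable
  exact ⟨hs, (hs.tsum_le_tsum hle h1.summable).trans h1.tsum_eq.le⟩

theorem avg_zpow (n : ℤ) :
    ∫ t in (0:ℝ)..2 * Real.pi, (circleMap 0 1 t) ^ n = if n = 0 then ((2 * Real.pi : ℝ) : ℂ) else 0 := by
  split_ifs with hn
  · simp [hn]
  · have h1 : ∀ t : ℝ, (circleMap 0 1 t) ^ n = Complex.exp ((n * Complex.I) * t) := by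
      intro t
      simp only [circleMap, zero_add, Complex.ofReal_one, one_mul]
      rw [← Complex.exp_int_mul]
      congr 1
      ring
    simp_rw [h1]
    have h2 : (n : ℂ) * Complex.I ≠ 0 := mul_ne_zero (by exact_mod_cast hn) Complex.I_ne_zero
    rw [integral_exp_mul_complex h2]
    have h3 : (n : ℂ) * Complex.I * ((2 * Real.pi : ℝ) : ℂ) = n * (2 * Real.pi * Complex.I) := by
      push_cast; ring
    rw [h3, Complex.exp_int_mul_two_pi_mul_I]
    simp

theorem circleMap_ne_one {t : ℝ} (h0 : 0 < t) (h1 : t < 2 * Real.pi) : circleMap 0 1 t ≠ 1 := by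
  simp only [circleMap, zero_add, Complex.ofReal_one, one_mul]
  intro h
  rw [Complex.exp_eq_one_iff] at h
  obtain ⟨n, hn⟩ := h
  have h2 : (t : ℂ) = n * (2 * Real.pi) := by
    have : (t : ℂ) * Complex.I = (n * (2 * Real.pi)) * Complex.I := by rw [hn]; ring
    exact mul_right_cancel₀ Complex.I_ne_zero this
  have h3 : t = n * (2 * Real.pi) := by exact_mod_cast h2
  have hp := Real.two_pi_pos
  have h4 : (0 : ℝ) < n := by
    by_contra hc
    push Not at hc
    nlinarith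
  have h5 : (n : ℝ) < 1 := by
    by_contra hc
    push Not at hc
    nlinarith
  have h6 : (0 : ℤ) < n := by exact_mod_cast h4
  have h7 : n < (1 : ℤ) := by exact_mod_cast h5
  omega

/-- the mean over the unit circle of an absolutely convergent Laurent series -/
theorem avg_sum {ι : Type*} [Countable ι] (w : ι → ℂ) (hw : Summable fun i => ‖w i‖) (n : ι → ℤ)
    (F : ℂ → ℂ) (hF : ∀ y : ℂ, ‖y‖ = 1 → y ≠ 1 → HasSum (fun i => w i * y ^ n i) (F y)) :
    HasSum (fun i => if n i = 0 then w i else 0) (Real.circleAverage F 0 1) := by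
  have hp := Real.two_pi_pos
  have hc : ∀ t : ℝ, ‖circleMap 0 1 t‖ = 1 := fun t => by simp
  have hne : ∀ t : ℝ, circleMap 0 1 t ≠ 0 := fun t h => by simpa [h] using hc t
  have key : HasSum (fun i => ∫ t in (0:ℝ)..2 * Real.pi, w i * (circleMap 0 1 t) ^ n i)
      (∫ t in (0:ℝ)..2 * Real.pi, F (circleMap 0 1 t)) := by
    refine intervalIntegral.hasSum_integral_of_dominated_convergence (fun i _ => ‖w i‖) ?_ ?_ ?_ ?_ ?_
    · intro i
      refine Continuous.aestronglyMeasurable ?_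
      exact continuous_const.mul ((continuous_circleMap 0 1).zpow₀ _ fun t => Or.inl (hne t))
    · intro i
      refine Eventually.of_forall fun t _ => ?_
      rw [norm_mul, norm_zpow, hc, one_zpow, mul_one]
    · exact Eventually.of_forall fun t _ => hw
    · exact intervalIntegrable_const
    · have : ∀ᵐ t : ℝ, t ≠ 2 * Real.pi := by
        simp [ae_iff]
      filter_upwards [this] with t ht hm
      rw [Set.uIoc_of_le hp.le] at hm
      exact hF _ (hc t) (circleMap_ne_one hm.1 (lt_of_le_of_ne hm.2 ht))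
  have k2 := key.const_smul ((2 * Real.pi)⁻¹ : ℝ)
  rw [Real.circleAverage_def]
  convert k2 using 2 with i
  rw [intervalIntegral.integral_const_mul, avg_zpow]
  split_ifs
  · rw [Complex.real_smul]
    have : ((2 * Real.pi : ℝ) : ℂ) ≠ 0 := by exact_mod_cast hp.ne'
    push_cast at this ⊢
    field_simp
  · simp

theorem coeff_one {ι : Type*} [Countable ι] (w : ι → ℂ) (hw : Summable fun i => ‖w i‖) (n : ι → ℤ)
    (hF : ∀ y : ℂ, ‖y‖ = 1 → y ≠ 1 → HasSum (fun i => w i * y ^ n i) 0) (m : ℤ) :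
    HasSum (fun i => if n i = m then w i else 0) 0 := by
  have := avg_sum w hw (fun i => n i - m) (fun _ => 0) (by
    intro y hy hy1
    have hy0 : y ≠ 0 := fun h => by simp [h] at hy
    have h2 := (hF y hy hy1).mul_right (y ^ (-m))
    rw [zero_mul] at h2
    refine hs_congr h2 (fun i => ?_) rfl
    rw [sub_eq_add_neg, zpow_add₀ hy0, mul_assoc])
  simpa [sub_eq_zero, Real.circleAverage_const] using this

/-- uniqueness of coefficients on the torus -/
theorem coeff_two {S : Type*} [Countable S] (c : S → ℂ) (hc : Summable fun s => ‖c s‖)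
    (a b : S → ℤ) (hinj : ∀ s t, a s = a t → b s = b t → s = t)
    (hF : ∀ x y : ℂ, ‖x‖ = 1 → ‖y‖ = 1 → y ≠ 1 → HasSum (fun s => c s * x ^ a s * y ^ b s) 0)
    (s0 : S) : c s0 = 0 := by
  have h1 : ∀ x : ℂ, ‖x‖ = 1 → x ≠ 1 →
      HasSum (fun s => (if b s = b s0 then c s else 0) * x ^ a s) 0 := by
    intro x hx _
    have := coeff_one (fun s => c s * x ^ a s) (by simpa [norm_zpow, hx] using hc) b
      (fun y hy hy1 => hF x y hx hy hy1) (b s0)
    convert this using 2 with s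
    split_ifs <;> simp
  have h2 := coeff_one (fun s => if b s = b s0 then c s else 0)
    (Summable.of_nonneg_of_le (fun _ => norm_nonneg _) (fun s => by split_ifs <;> simp) hc) a h1 (a s0)
  have h3 : HasSum (fun s => if a s = a s0 then (if b s = b s0 then c s else 0) else 0) (c s0) := by
    have := hasSum_single (f := fun s => if a s = a s0 then (if b s = b s0 then c s else 0) else 0)
      s0 (by
        intro s hs
        by_cases h : a s = a s0
        · by_cases h' : b s = b s0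
          · exact absurd (hinj s s0 h h') hs
          · simp [h']
        · simp [h])
    simpa using this
  exact h3.unique h2

theorem coeff_nat (v : ℕ → ℂ) (hv : Summable fun i => ‖v i‖)
    (hF : ∀ x : ℂ, ‖x‖ = 1 → HasSum (fun i => v i * x ^ i) 0) (i : ℕ) : v i = 0 := by
  refine coeff_two v hv (fun i => (i : ℤ)) (fun _ => 0) (fun s t h _ => by exact_mod_cast h) ?_ i
  intro x y hx _ _
  simpa using hF x hx

/-- summation by a nonnegative kernel, with a weight -/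
theorem swap_sum {S S' : Type*} (m : S → ℝ) (k : S → S' → ℝ) (g : S' → ℝ) (g' : S → ℝ)
    (hm : ∀ s, 0 ≤ m s) (hk : ∀ s t, 0 ≤ k s t) (hg : ∀ t, 0 ≤ g t)
    (hkg : ∀ s, HasSum (fun t => k s t * g t) (g' s)) (hs : Summable fun s => m s * g' s) :
    HasSum (fun t => (∑' s, m s * k s t) * g t) (∑' s, m s * g' s) := by
  have h0 : ∀ s, HasSum (fun t => m s * (k s t * g t)) (m s * g' s) := fun s => (hkg s).mul_left _
  have h1 : Summable fun p : S × S' => m p.1 * (k p.1 p.2 * g p.2) := by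
    rw [summable_prod_of_nonneg (fun p => mul_nonneg (hm _) (mul_nonneg (hk _ _) (hg _)))]
    refine ⟨fun s => (h0 s).summable, ?_⟩
    simpa only [fun s => (h0 s).tsum_eq] using hs
  have h2 : ∑' p : S × S', m p.1 * (k p.1 p.2 * g p.2) = ∑' s, m s * g' s := by
    rw [h1.tsum_prod]
    exact tsum_congr fun s => (h0 s).tsum_eq
  have h3 : HasSum (fun p : S' × S => m p.2 * (k p.2 p.1 * g p.1)) (∑' s, m s * g' s) := by
    rw [← h2]
    exact (Equiv.prodComm S' S).hasSum_iff.2 h1.hasSum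
  refine h3.prod_fiberwise fun t => ?_
  have h4 := (h3.summable.prod_factor t).hasSum
  refine hs_congr h4 (fun _ => rfl) ?_
  rw [← tsum_mul_right]
  exact tsum_congr fun s => by ring

end Pool.Agent.P.MP_386d8e_pr
end

-- part Pool.Agent.P.MP_386d8e_pr.Wien
section

set_option autoImplicit false

open Filter Topology

namespace Pool.Agent.P.MP_386d8e_pr

/-- absolutely convergent power series on the closed bidisc, with norm at most `C` -/
def W (C : ℝ) (F : ℂ → ℂ → ℂ) : Prop :=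
  ∃ c : ℕ × ℕ → ℂ, (Summable fun s => ‖c s‖) ∧ ∑' s, ‖c s‖ ≤ C ∧
    ∀ x y : ℂ, ‖x‖ ≤ 1 → ‖y‖ ≤ 1 → HasSum (fun s => c s * (x ^ s.1 * y ^ s.2)) (F x y)

theorem norm_mono_le {x y : ℂ} (hx : ‖x‖ ≤ 1) (hy : ‖y‖ ≤ 1) (i j : ℕ) : ‖x ^ i * y ^ j‖ ≤ 1 := by
  rw [norm_mul, norm_pow, norm_pow]
  exact mul_le_one₀ (pow_le_one₀ (norm_nonneg _) hx) (by positivity) (pow_le_one₀ (norm_nonneg _) hy)

namespace W

variable {C D : ℝ} {F G : ℂ → ℂ → ℂ}

theorem of_family {ι : Type*} (w : ι → ℂ) (e : ι → ℕ × ℕ) (hw : Summable fun i => ‖w i‖)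
    (hC : ∑' i, ‖w i‖ ≤ C)
    (hF : ∀ x y : ℂ, ‖x‖ ≤ 1 → ‖y‖ ≤ 1 →
      HasSum (fun i => w i * (x ^ (e i).1 * y ^ (e i).2)) (F x y)) : W C F := by
  have h := fiber_norm e w (fun _ => 1) (fun _ => zero_le_one) _ hw (by simpa using hw.hasSum)
  simp only [mul_one] at h
  exact ⟨fun s => ∑' i : e ⁻¹' {s}, w i, h.1, h.2.trans hC, fun x y hx hy =>
    fiber_hasSum e w (fun s => x ^ s.1 * y ^ s.2) _ (hF x y hx hy)⟩

theorem mono (h : W C F) (hCD : C ≤ D) : W D F := by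
  obtain ⟨c, h1, h2, h3⟩ := h
  exact ⟨c, h1, h2.trans hCD, h3⟩

theorem congr (h : W C F) (hFG : ∀ x y : ℂ, ‖x‖ ≤ 1 → ‖y‖ ≤ 1 → G x y = F x y) : W C G := by
  obtain ⟨c, h1, h2, h3⟩ := h
  exact ⟨c, h1, h2, fun x y hx hy => hFG x y hx hy ▸ h3 x y hx hy⟩

theorem nonneg (h : W C F) : 0 ≤ C := by
  obtain ⟨c, -, h2, -⟩ := h
  exact (tsum_nonneg fun _ => norm_nonneg _).trans h2

theorem bound (h : W C F) {x y : ℂ} (hx : ‖x‖ ≤ 1) (hy : ‖y‖ ≤ 1) : ‖F x y‖ ≤ C := by
  obtain ⟨c, h1, h2, h3⟩ := h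
  refine le_trans ?_ h2
  refine (h3 x y hx hy).norm_le_of_bounded h1.hasSum fun s => ?_
  rw [norm_mul]
  exact mul_le_of_le_one_right (norm_nonneg _) (norm_mono_le hx hy _ _)

theorem monomial (a : ℂ) (i j : ℕ) : W ‖a‖ fun x y => a * (x ^ i * y ^ j) :=
  of_family (ι := Unit) (fun _ => a) (fun _ => (i, j)) (Summable.of_finite) (by simp)
    fun x y _ _ => by simpa using hasSum_unique fun _ : Unit => a * (x ^ i * y ^ j)

theorem const (a : ℂ) : W ‖a‖ fun _ _ => a := (monomial a 0 0).congr fun _ _ _ _ => by simp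

theorem one : W 1 fun _ _ => 1 := by simpa using const 1

theorem zero : W 0 fun _ _ => 0 := by simpa using const 0

theorem fst : W 1 fun x _ => x := by
  simpa using monomial 1 1 0

theorem snd : W 1 fun _ y => y := by
  simpa using monomial 1 0 1

theorem add (hF : W C F) (hG : W D G) : W (C + D) fun x y => F x y + G x y := by
  obtain ⟨c, h1, h2, h3⟩ := hF
  obtain ⟨d, k1, k2, k3⟩ := hG
  have hs : Summable fun s => ‖c s + d s‖ :=
    Summable.of_nonneg_of_le (fun _ => norm_nonneg _) (fun s => norm_add_le _ _) (h1.add k1)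
  refine ⟨fun s => c s + d s, hs, ?_, fun x y hx hy => ?_⟩
  · refine (hs.tsum_le_tsum (fun s => norm_add_le _ _) (h1.add k1)).trans ?_
    rw [h1.tsum_add k1]
    exact add_le_add h2 k2
  · exact hs_congr ((h3 x y hx hy).add (k3 x y hx hy)) (fun s => by ring) rfl

theorem mul (hF : W C F) (hG : W D G) : W (C * D) fun x y => F x y * G x y := by
  have hC := hF.nonneg
  obtain ⟨c, h1, h2, h3⟩ := hF
  obtain ⟨d, k1, k2, k3⟩ := hG
  have hs := h1.mul_norm k1
  refine of_family (ι := (ℕ × ℕ) × (ℕ × ℕ)) (fun p => c p.1 * d p.2) (fun p => p.1 + p.2) hs ?_ ?_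
  · have := h1.tsum_mul_tsum k1 (h1.mul_of_nonneg k1 (fun _ => norm_nonneg _) fun _ => norm_nonneg _)
    simp only [norm_mul]
    rw [← this]
    exact mul_le_mul h2 k2 (tsum_nonneg fun _ => norm_nonneg _) hC
  · intro x y hx hy
    have b1 : ∀ (c : ℕ × ℕ → ℂ), (Summable fun s => ‖c s‖) →
        Summable fun s => ‖c s * (x ^ s.1 * y ^ s.2)‖ := fun c hc =>
      Summable.of_nonneg_of_le (fun _ => norm_nonneg _) (fun s => by
        rw [norm_mul]
        exact mul_le_of_le_one_right (norm_nonneg _) (norm_mono_le hx hy _ _)) hc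
    have b2 := summable_mul_of_summable_norm (f := fun s : ℕ × ℕ => c s * (x ^ s.1 * y ^ s.2))
      (g := fun s : ℕ × ℕ => d s * (x ^ s.1 * y ^ s.2)) (b1 c h1) (b1 d k1)
    have := HasSum.mul (f := fun s : ℕ × ℕ => c s * (x ^ s.1 * y ^ s.2))
      (g := fun s : ℕ × ℕ => d s * (x ^ s.1 * y ^ s.2)) (h3 x y hx hy) (k3 x y hx hy) b2
    refine hs_congr this (fun p => ?_) rfl
    simp only [Prod.fst_add, Prod.snd_add, pow_add]
    ring

theorem cmul (a : ℂ) (hF : W C F) : W (‖a‖ * C) fun x y => a * F x y := (const a).mul hF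

theorem neg (hF : W C F) : W C fun x y => -F x y := by
  simpa using hF.cmul (-1)

theorem sub (hF : W C F) (hG : W D G) : W (C + D) fun x y => F x y - G x y := by
  simpa [sub_eq_add_neg] using hF.add hG.neg

theorem mul1 (hF : W 1 F) (hG : W D G) : W D fun x y => F x y * G x y := by
  simpa using hF.mul hG

theorem pow (hF : W C F) (n : ℕ) : W (C ^ n) fun x y => F x y ^ n := by
  induction n with
  | zero => simpa using one
  | succ n ih => simpa [pow_succ] using ih.mul hF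

theorem pow1 (hF : W 1 F) (n : ℕ) : W 1 fun x y => F x y ^ n := by simpa using hF.pow n

theorem prod1 {H : ℕ → ℂ → ℂ → ℂ} (h : ∀ i, W 1 (H i)) (n : ℕ) :
    W 1 fun x y => ∏ i ∈ Finset.range n, H i x y := by
  induction n with
  | zero => simpa using one
  | succ n ih => simpa [Finset.prod_range_succ] using ih.mul1 (h n)

theorem geom (hF : W 1 F) (n : ℕ) : W n fun x y => ∑ i ∈ Finset.range n, F x y ^ i := by
  induction n with
  | zero => simpa using zero
  | succ n ih => simpa [Finset.sum_range_succ] using ih.add (hF.pow1 n)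

theorem summable {ι : Type*} {E : ι → ℝ} {H : ι → ℂ → ℂ → ℂ} (h : ∀ k, W (E k) (H k))
    (hE : Summable E) {x y : ℂ} (hx : ‖x‖ ≤ 1) (hy : ‖y‖ ≤ 1) : Summable fun k => H k x y :=
  Summable.of_norm_bounded hE fun k => (h k).bound hx hy

theorem tsum {ι : Type*} {E : ι → ℝ} {H : ι → ℂ → ℂ → ℂ} (h : ∀ k, W (E k) (H k))
    (hE : HasSum E C) : W C fun x y => ∑' k, H k x y := by
  choose c h1 h2 h3 using h
  have s1 : Summable fun k => ∑' s, ‖c k s‖ :=
    Summable.of_nonneg_of_le (fun _ => tsum_nonneg fun _ => norm_nonneg _) h2 hE.summable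
  have hs : Summable fun p : ι × (ℕ × ℕ) => ‖c p.1 p.2‖ :=
    (summable_prod_of_nonneg fun _ => norm_nonneg _).2 ⟨h1, s1⟩
  refine of_family (fun p : ι × (ℕ × ℕ) => c p.1 p.2) (fun p => p.2) hs ?_ ?_
  · rw [hs.tsum_prod, ← hE.tsum_eq]
    exact s1.tsum_le_tsum h2 hE.summable
  · intro x y hx hy
    have b1 : Summable fun p : ι × (ℕ × ℕ) => c p.1 p.2 * (x ^ p.2.1 * y ^ p.2.2) :=
      Summable.of_norm_bounded hs fun p => by
        rw [norm_mul]
        exact mul_le_of_le_one_right (norm_nonneg _) (norm_mono_le hx hy _ _)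
    refine hs_congr b1.hasSum (fun _ => rfl) ?_
    rw [b1.tsum_prod]
    exact tsum_congr fun k => (h3 k x y hx hy).tsum_eq.symm

theorem comp {q : ℕ → ℂ} {f : ℂ → ℂ} (hq : HasSum (fun n => ‖q n‖) C)
    (hf : ∀ z : ℂ, ‖z‖ ≤ 1 → HasSum (fun n => q n * z ^ n) (f z)) (hG : W 1 G) :
    W C fun x y => f (G x y) :=
  (tsum (fun n => by simpa using (hG.pow1 n).cmul (q n)) hq).congr fun x y hx hy =>
    (hf _ (hG.bound hx hy)).tsum_eq.symm

theorem pow_sub (hF : W 1 F) (hG : W 1 G) (hD : W D fun x y => F x y - G x y) (n : ℕ) :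
    W (n * D) fun x y => F x y ^ n - G x y ^ n := by
  induction n with
  | zero => simpa using zero
  | succ n ih =>
    refine ((hF.mul1 ih).add ((hG.pow1 n).mul1 hD)).congr (fun x y _ _ => by ring) |>.mono ?_
    push_cast
    linarith

theorem comp_sub {q : ℕ → ℂ} {f : ℂ → ℂ} (hq : HasSum (fun n : ℕ => n * ‖q n‖) C)
    (hf : ∀ z : ℂ, ‖z‖ ≤ 1 → HasSum (fun n => q n * z ^ n) (f z)) (hF : W 1 F) (hG : W 1 G)
    (hD : W D fun x y => F x y - G x y) : W (C * D) fun x y => f (F x y) - f (G x y) := by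
  refine (tsum (fun n => (pow_sub hF hG hD n).cmul (q n))
    (hs_congr (hq.mul_right D) (fun n => by ring) rfl)).congr fun x y hx hy => ?_
  have := (hf _ (hF.bound hx hy)).sub (hf _ (hG.bound hx hy))
  rw [← this.tsum_eq]
  exact tsum_congr fun n => by ring

theorem unique {c d : ℕ × ℕ → ℂ} (hc : Summable fun s => ‖c s‖) (hd : Summable fun s => ‖d s‖)
    (h1 : ∀ x y : ℂ, ‖x‖ ≤ 1 → ‖y‖ ≤ 1 → HasSum (fun s => c s * (x ^ s.1 * y ^ s.2)) (F x y))
    (h2 : ∀ x y : ℂ, ‖x‖ ≤ 1 → ‖y‖ ≤ 1 → HasSum (fun s => d s * (x ^ s.1 * y ^ s.2)) (F x y)) :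
    c = d := by
  funext s
  rw [← sub_eq_zero]
  refine coeff_two (fun s => c s - d s)
    (Summable.of_nonneg_of_le (fun _ => norm_nonneg _) (fun s => norm_sub_le _ _) (hc.add hd))
    (fun s => (s.1 : ℤ)) (fun s => (s.2 : ℤ))
    (fun s t a b => Prod.ext (by exact_mod_cast a) (by exact_mod_cast b)) ?_ s
  intro x y hx hy _
  refine hs_congr ((h1 x y hx.le hy.le).sub (h2 x y hx.le hy.le)) (fun s => ?_) (by simp)
  simp only [zpow_natCast]
  ring

theorem of_forall_gt (h : ∀ ε > 0, W (C + ε) F) : W C F := by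
  obtain ⟨c, h1, -, h3⟩ := h 1 one_pos
  refine ⟨c, h1, le_of_forall_pos_le_add fun ε hε => ?_, h3⟩
  obtain ⟨d, k1, k2, k3⟩ := h ε hε
  rwa [unique h1 k1 h3 k3]

theorem pos (h : W 1 F) (h1 : F 1 1 = 1) :
    ∃ k : ℕ × ℕ → ℝ, (∀ s, 0 ≤ k s) ∧ (k (0, 0) : ℂ) = F 0 0 ∧
      ∀ x y : ℂ, ‖x‖ ≤ 1 → ‖y‖ ≤ 1 → HasSum (fun s => (k s : ℂ) * (x ^ s.1 * y ^ s.2)) (F x y) := by
  obtain ⟨c, a1, a2, a3⟩ := h
  have b1 : HasSum c 1 := by simpa [h1] using a3 1 1 (by simp) (by simp)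
  have b2 := a1.hasSum.sub (Complex.hasSum_re b1)
  have b3 : ∀ s, (‖c s‖ : ℂ) = c s := by
    intro s
    have := le_hasSum b2 s fun u _ => sub_nonneg.2 (Complex.re_le_norm _)
    simp only [Complex.one_re] at this
    have b4 : (c s).re = ‖c s‖ := le_antisymm (Complex.re_le_norm _) (by linarith)
    exact Complex.norm_of_nonneg' (Complex.re_eq_norm.1 b4)
  refine ⟨fun s => ‖c s‖, fun _ => norm_nonneg _, ?_, fun x y hx hy => ?_⟩
  · rw [b3]
    refine HasSum.unique ?_ (a3 0 0 (by simp) (by simp))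
    have := hasSum_single (f := fun s : ℕ × ℕ => c s * ((0 : ℂ) ^ s.1 * (0 : ℂ) ^ s.2)) (0, 0) (by
      rintro ⟨i, j⟩ hs
      by_cases hi : i = 0
      · have hj : j ≠ 0 := fun hj => hs (by rw [hi, hj])
        simp [hj]
      · simp [hi])
    simpa using this
  · simpa only [b3] using a3 x y hx hy

theorem split (h : W C F) : ∃ (C1 C2 : ℝ) (G : ℂ → ℂ → ℂ), C1 + C2 ≤ C ∧ W C1 G ∧
    W C2 (fun x _ => F x 0) ∧ ∀ x y : ℂ, ‖x‖ ≤ 1 → ‖y‖ ≤ 1 → F x y = y * G x y + F x 0 := by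
  obtain ⟨c, a1, a2, a3⟩ := h
  set c1 : ℕ × ℕ → ℂ := fun s => if s.2 = 0 then 0 else c s with hc1
  set c2 : ℕ × ℕ → ℂ := fun s => if s.2 = 0 then c s else 0 with hc2
  have s1 : Summable fun s => ‖c1 s‖ := Summable.of_nonneg_of_le (fun _ => norm_nonneg _)
    (fun s => by simp only [hc1]; split_ifs <;> simp) a1
  have s2 : Summable fun s => ‖c2 s‖ := Summable.of_nonneg_of_le (fun _ => norm_nonneg _)
    (fun s => by simp only [hc2]; split_ifs <;> simp) a1
  have b0 : ∀ x y : ℂ, ‖x‖ ≤ 1 → ‖y‖ ≤ 1 →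
      Summable fun s : ℕ × ℕ => c1 s * (x ^ s.1 * y ^ (s.2 - 1)) := fun x y hx hy =>
    Summable.of_norm_bounded s1 fun s => by
      rw [norm_mul]
      exact mul_le_of_le_one_right (norm_nonneg _) (norm_mono_le hx hy _ _)
  have b1 : ∀ x y : ℂ, ‖x‖ ≤ 1 → HasSum (fun s => c2 s * (x ^ s.1 * y ^ s.2)) (F x 0) := by
    intro x y hx
    refine hs_congr (a3 x 0 hx (by simp)) (fun s => ?_) rfl
    by_cases hs : s.2 = 0 <;> simp [hc2, hs]
  refine ⟨∑' s, ‖c1 s‖, ∑' s, ‖c2 s‖, fun x y => ∑' s : ℕ × ℕ, c1 s * (x ^ s.1 * y ^ (s.2 - 1)), ?_,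
    of_family c1 (fun s => (s.1, s.2 - 1)) s1 le_rfl fun x y hx hy => (b0 x y hx hy).hasSum,
    ⟨c2, s2, le_rfl, fun x y hx _ => b1 x y hx⟩, fun x y hx hy => ?_⟩
  · rw [← s1.tsum_add s2]
    refine le_trans (le_of_eq (tsum_congr fun s => ?_)) a2
    by_cases hs : s.2 = 0 <;> simp [hc1, hc2, hs]
  · refine (a3 x y hx hy).unique
      (hs_congr (((b0 x y hx hy).hasSum.mul_left y).add (b1 x y hx)) (fun s => ?_) rfl)
    by_cases hs : s.2 = 0
    · simp [hc1, hc2, hs]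
    · obtain ⟨m, hm⟩ := Nat.exists_eq_succ_of_ne_zero hs
      simp only [hc1, hc2, hm, Nat.succ_ne_zero, if_false, Nat.succ_sub_one, pow_succ]
      ring

end W

end Pool.Agent.P.MP_386d8e_pr
end

-- part Pool.Agent.P.MP_386d8e_pr.Lst
section

set_option autoImplicit false

open MeasureTheory Filter Topology

namespace Pool.Agent.P.MP_386d8e_pr

/-- `f` is the generating function of the probability vector `q`, which charges zero -/
structure PG (q : ℕ → ℝ) (f : ℂ → ℂ) : Prop where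
  nonneg : ∀ n, 0 ≤ q n
  rep : ∀ z : ℂ, ‖z‖ ≤ 1 → HasSum (fun n => (q n : ℂ) * z ^ n) (f z)
  one : f 1 = 1
  pos : 0 < q 0

/-- mixed Poisson weights -/
noncomputable def qq (μ : ProbabilityMeasure NNReal) (L : ℝ) (n : ℕ) : ℝ :=
  ∫ t, Real.exp (-(L * t)) * ((L * t) ^ n / n.factorial) ∂(μ : Measure NNReal)

theorem pois_hasSum (u : ℝ) : HasSum (fun n : ℕ => Real.exp (-u) * (u ^ n / n.factorial)) 1 := by
  have := (NormedSpace.expSeries_div_hasSum_exp (𝔸 := ℝ) u).mul_left (Real.exp (-u))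
  rwa [← Real.exp_eq_exp_ℝ, ← Real.exp_add, neg_add_cancel, Real.exp_zero] at this

theorem pois_le {u : ℝ} (hu : 0 ≤ u) (n : ℕ) : Real.exp (-u) * (u ^ n / n.factorial) ≤ 1 :=
  le_hasSum (pois_hasSum u) n fun _ _ => by positivity

theorem pois_int (μ : ProbabilityMeasure NNReal) {L : ℝ} (hL : 0 < L) (n : ℕ) :
    Integrable (fun t : NNReal => Real.exp (-(L * t)) * ((L * t) ^ n / n.factorial))
      (μ : Measure NNReal) := by
  refine Integrable.of_bound (Continuous.aestronglyMeasurable (by fun_prop)) 1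
    (Eventually.of_forall fun t => ?_)
  rw [Real.norm_of_nonneg (by positivity)]
  exact pois_le (by positivity) n

theorem pg_lst (μ : ProbabilityMeasure NNReal) {L : ℝ} (hL : 0 < L) :
    PG (qq μ L) fun z => lst μ (L * (1 - z)) where
  nonneg n := integral_nonneg fun t => by positivity
  one := by simp [lst]
  pos := by
    rw [qq, integral_pos_iff_support_of_nonneg (fun t => by positivity) (pois_int μ hL 0)]
    have : (Function.support fun t : NNReal =>
        Real.exp (-(L * t)) * ((L * t) ^ 0 / (Nat.factorial 0 : ℕ))) = Set.univ := by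
      ext t
      simp [Real.exp_ne_zero]
    rw [this]
    simp
  rep z hz := by
    have h := hasSum_integral_of_dominated_convergence (μ := (μ : Measure NNReal))
      (F := fun (n : ℕ) (t : NNReal) =>
        ((Real.exp (-(L * t)) * ((L * t) ^ n / n.factorial) : ℝ) : ℂ) * z ^ n)
      (f := fun t : NNReal => Complex.exp (-(L * (1 - z) * ((t : ℝ) : ℂ))))
      (fun (n : ℕ) (t : NNReal) => Real.exp (-(L * t)) * ((L * t) ^ n / n.factorial))
      (fun n => Continuous.aestronglyMeasurable (by fun_prop))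
      (fun n => Eventually.of_forall fun t => by
        rw [norm_mul, Complex.norm_real, Real.norm_of_nonneg (by positivity), norm_pow]
        exact mul_le_of_le_one_right (by positivity) (pow_le_one₀ (norm_nonneg _) hz))
      (Eventually.of_forall fun t => (pois_hasSum _).summable)
      (by simp only [(pois_hasSum _).tsum_eq]; exact integrable_const _)
      (Eventually.of_forall fun t => by
        have := (NormedSpace.expSeries_div_hasSum_exp (𝔸 := ℂ) (L * t * z)).mul_left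
          (Complex.exp (-(L * t)))
        rw [← Complex.exp_eq_exp_ℂ, ← Complex.exp_add] at this
        refine hs_congr this (fun n => ?_) (by congr 1; ring)
        push_cast
        rw [mul_pow]
        ring)
    refine hs_congr h (fun n => ?_) rfl
    rw [integral_mul_const, integral_complex_ofReal, qq]

theorem qq_one_pos (μ : ProbabilityMeasure NNReal) {L : ℝ} (hL : 0 < L)
    (h : (μ : Measure NNReal) ≠ Measure.dirac 0) : 0 < qq μ L 1 := by
  rw [qq, integral_pos_iff_support_of_nonneg (fun t => by positivity) (pois_int μ hL 1)]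
  have : (Function.support fun t : NNReal =>
      Real.exp (-(L * t)) * ((L * t) ^ 1 / (Nat.factorial 1 : ℕ))) = {0}ᶜ := by
    ext t
    simp [Real.exp_ne_zero, hL.ne']
  rw [this, pos_iff_ne_zero]
  intro h0
  apply h
  ext s hs
  have h1 : (μ : Measure NNReal) {0} = 1 := by
    have := prob_compl_eq_zero_iff (μ := (μ : Measure NNReal)) (measurableSet_singleton (0 : NNReal))
    exact this.1 h0
  by_cases hs0 : (0 : NNReal) ∈ s
  · rw [Measure.dirac_apply_of_mem hs0]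
    exact le_antisymm prob_le_one (h1 ▸ measure_mono (Set.singleton_subset_iff.2 hs0))
  · rw [Measure.dirac_apply' _ hs, Set.indicator_of_notMem hs0]
    exact measure_mono_null (fun t ht => by rintro rfl; exact hs0 ht) h0

theorem qq_mean (μ : ProbabilityMeasure NNReal) {L : ℝ} (hL : 0 < L)
    (h : Summable fun n : ℕ => n * qq μ L n) : HasSum (fun n : ℕ => n * qq μ L n) (L * mean μ) := by
  have h1 := hasSum_integral_of_summable_integral_norm (μ := (μ : Measure NNReal))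
    (F := fun (n : ℕ) (t : NNReal) => (n : ℝ) * (Real.exp (-(L * t)) * ((L * t) ^ n / n.factorial)))
    (fun n => (pois_int μ hL n).const_mul _) (by
      refine h.congr fun n => ?_
      rw [qq, ← integral_const_mul]
      exact integral_congr_ae (Eventually.of_forall fun t => (Real.norm_of_nonneg (by positivity)).symm))
  refine hs_congr h1 (fun n => by rw [qq, integral_const_mul]) ?_
  rw [mean, ← integral_const_mul]
  refine integral_congr_ae (Eventually.of_forall fun t => ?_)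
  refine (HasSum.tsum_eq ?_).symm
  rw [← hasSum_nat_add_iff' 1]
  refine hs_congr ((pois_hasSum (L * t)).mul_left (L * t)) (fun n => ?_) (by simp)
  rw [Nat.factorial_succ]
  push_cast
  field_simp
  ring

namespace PG

variable {q : ℕ → ℝ} {f : ℂ → ℂ} (h : PG q f)
include h

theorem sum_one : HasSum q 1 := by
  have := Complex.hasSum_re (h.rep 1 (by simp))
  simpa [h.one] using this

theorem sum_norm : HasSum (fun n => ‖(q n : ℂ)‖) 1 :=
  hs_congr h.sum_one (fun n => by rw [Complex.norm_real, Real.norm_of_nonneg (h.nonneg n)]) rfl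

theorem comp {G : ℂ → ℂ → ℂ} (hG : W 1 G) : W 1 fun x y => f (G x y) := hG.comp h.sum_norm h.rep

theorem comp_sub {m D : ℝ} (hm : HasSum (fun n : ℕ => n * q n) m) {F G : ℂ → ℂ → ℂ} (hF : W 1 F)
    (hG : W 1 G) (hD : W D fun x y => F x y - G x y) :
    W (m * D) fun x y => f (F x y) - f (G x y) :=
  W.comp_sub (hs_congr hm (fun n => by rw [Complex.norm_real, Real.norm_of_nonneg (h.nonneg n)]) rfl)
    h.rep hF hG hD

theorem norm_le {z : ℂ} (hz : ‖z‖ ≤ 1) : ‖f z‖ ≤ 1 :=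
  (h.comp W.fst).bound (y := 0) hz (by simp)

theorem norm_le' {z : ℂ} (hz : ‖z‖ ≤ 1) : ‖f z‖ ≤ 1 - q 0 * q 1 * (1 - z.re) := by
  have h1 := (hasSum_nat_add_iff' 2).2 (h.rep z hz)
  have h2 := (hasSum_nat_add_iff' 2).2 h.sum_one
  have h3 := h1.norm_le_of_bounded h2 fun n => by
    rw [norm_mul, Complex.norm_real, Real.norm_of_nonneg (h.nonneg _), norm_pow]
    exact mul_le_of_le_one_right (h.nonneg _) (pow_le_one₀ (norm_nonneg _) hz)
  simp only [Finset.sum_range_succ, Finset.sum_range_zero, zero_add, pow_zero, mul_one, pow_one] at h3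
  have a0 := h.nonneg 0
  have a1 := h.nonneg 1
  have a2 : q 0 + q 1 ≤ 1 := by linarith [norm_nonneg (f z - (q 0 + q 1 * z))]
  have hre : z.re ≤ 1 := (Complex.re_le_norm z).trans hz
  have hre' : -1 ≤ z.re := by linarith [neg_abs_le z.re, Complex.abs_re_le_norm z]
  have h4 : ‖(q 0 : ℂ) + q 1 * z‖ ≤ q 0 + q 1 - q 0 * q 1 * (1 - z.re) := by
    have b1 : 0 ≤ q 0 * q 1 * (1 - z.re) := mul_nonneg (mul_nonneg a0 a1) (by linarith)
    have b2 : q 0 * q 1 * (1 - z.re) ≤ q 0 + q 1 := by nlinarith [mul_nonneg a0 a1]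
    refine abs_le_of_sq_le_sq' ?_ (by linarith) |>.2
    rw [Complex.sq_norm, Complex.normSq_apply]
    have b3 : z.re * z.re + z.im * z.im ≤ 1 := by
      rw [← Complex.normSq_apply, ← Complex.sq_norm]
      nlinarith [norm_nonneg z]
    simp only [Complex.add_re, Complex.ofReal_re, Complex.mul_re, Complex.ofReal_im, zero_mul,
      sub_zero, Complex.add_im, Complex.mul_im, add_zero, zero_add]
    nlinarith [mul_nonneg (mul_nonneg a1 a1) (sub_nonneg.2 b3), sq_nonneg (q 0 * q 1 * (1 - z.re)),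
      mul_nonneg b1 (sub_nonneg.2 a2)]
  have h5 : ‖f z‖ ≤ ‖f z - (q 0 + q 1 * z)‖ + ‖(q 0 : ℂ) + q 1 * z‖ := by
    simpa using norm_add_le (f z - (q 0 + q 1 * z)) (q 0 + q 1 * z)
  linarith

theorem rep_real {z : ℝ} (h0 : 0 ≤ z) (h1 : z ≤ 1) : HasSum (fun n => q n * z ^ n) (f z).re := by
  have := Complex.hasSum_re (h.rep z (by rw [Complex.norm_real, Real.norm_of_nonneg h0]; exact h1))
  refine hs_congr this (fun n => ?_) rfl
  rw [← Complex.ofReal_pow, ← Complex.ofReal_mul, Complex.ofReal_re]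

theorem ofReal_re {z : ℝ} (h0 : 0 ≤ z) (h1 : z ≤ 1) : (((f z).re : ℝ) : ℂ) = f z := by
  have a := Complex.hasSum_ofReal.2 (h.rep_real h0 h1)
  refine a.unique (hs_congr (h.rep z ?_) (fun n => by push_cast; rfl) rfl)
  rw [Complex.norm_real, Real.norm_of_nonneg h0]; exact h1

theorem le_re {z : ℝ} (h0 : 0 ≤ z) (h1 : z ≤ 1) : q 0 ≤ (f z).re := by
  simpa using le_hasSum (h.rep_real h0 h1) 0 fun n _ => mul_nonneg (h.nonneg n) (pow_nonneg h0 n)

theorem re_le {z : ℝ} (h0 : 0 ≤ z) (h1 : z ≤ 1) : (f z).re ≤ 1 - q 1 * (1 - z) := by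
  have := le_hasSum (h.sum_one.sub (h.rep_real h0 h1)) 1 fun n _ =>
    sub_nonneg.2 (mul_le_of_le_one_right (h.nonneg n) (pow_le_one₀ h0 h1))
  simp only [pow_one] at this
  linarith

theorem continuousOn : ContinuousOn f (Metric.closedBall 0 1) := by
  have := continuousOn_tsum (s := Metric.closedBall (0 : ℂ) 1) (f := fun n z => (q n : ℂ) * z ^ n)
    (u := q) (fun n => by fun_prop) h.sum_one.summable (fun n z hz => by
      rw [norm_mul, Complex.norm_real, Real.norm_of_nonneg (h.nonneg _), norm_pow]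
      exact mul_le_of_le_one_right (h.nonneg _) (pow_le_one₀ (norm_nonneg _) (by simpa using hz)))
  exact this.congr fun z hz => (h.rep z (by simpa using hz)).tsum_eq.symm

/-- a bound on the difference quotient at one bounds the mean -/
theorem mean_le {z : ℕ → ℝ} (h0 : ∀ k, 0 ≤ z k) (h1 : ∀ k, z k < 1) (hz : Tendsto z atTop (𝓝 1))
    {c : ℝ} (hc : ∀ k, 1 - (f (z k)).re ≤ c * (1 - z k)) :
    (Summable fun n : ℕ => n * q n) ∧ ∑' n : ℕ, n * q n ≤ c := by
  have key : ∀ N, ∑ n ∈ Finset.range N, (n : ℝ) * q n ≤ c := by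
    intro N
    have a1 : Tendsto (fun k => ∑ n ∈ Finset.range N, (∑ i ∈ Finset.range n, z k ^ i) * q n) atTop
        (𝓝 (∑ n ∈ Finset.range N, (∑ i ∈ Finset.range n, (1 : ℝ) ^ i) * q n)) :=
      tendsto_finsetSum _ fun n _ => (tendsto_finsetSum _ fun i _ => hz.pow i).mul_const _
    simp only [one_pow, Finset.sum_const, Finset.card_range, nsmul_eq_mul, mul_one] at a1
    refine le_of_tendsto' a1 fun k => ?_
    have a2 := sum_le_hasSum (Finset.range N) (fun n _ =>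
      sub_nonneg.2 (mul_le_of_le_one_right (h.nonneg n) (pow_le_one₀ (h0 k) (h1 k).le)))
      (h.sum_one.sub (h.rep_real (h0 k) (h1 k).le))
    refine le_of_mul_le_mul_right ?_ (sub_pos.2 (h1 k))
    refine le_trans (le_of_eq ?_) (a2.trans (hc k))
    rw [Finset.sum_mul]
    refine Finset.sum_congr rfl fun n _ => ?_
    have := geom_sum_mul_neg (z k) n
    linear_combination q n * this
  have hn : ∀ n : ℕ, 0 ≤ (n : ℝ) * q n := fun n => mul_nonneg (Nat.cast_nonneg n) (h.nonneg n)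
  exact ⟨summable_of_sum_range_le hn key, Real.tsum_le_of_sum_range_le hn key⟩

/-- the difference quotient at one -/
theorem exists_tilde {m : ℝ} (hm : HasSum (fun n : ℕ => n * q n) m) :
    ∃ g : ℂ → ℂ, (∀ z : ℂ, ‖z‖ ≤ 1 → 1 - f z = (1 - z) * g z) ∧ g 1 = m ∧
      ContinuousOn g (Metric.closedBall 0 1) ∧
      ∀ G : ℂ → ℂ → ℂ, W 1 G → W m fun x y => g (G x y) := by
  have a1 : ∀ G : ℂ → ℂ → ℂ, W 1 G → ∀ n : ℕ,
      W (n * q n) fun x y => (q n : ℂ) * ∑ i ∈ Finset.range n, G x y ^ i := fun G hG n => by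
    have := (hG.geom n).cmul (q n)
    rwa [Complex.norm_real, Real.norm_of_nonneg (h.nonneg n), mul_comm] at this
  refine ⟨fun z => ∑' n, (q n : ℂ) * ∑ i ∈ Finset.range n, z ^ i, fun z hz => ?_, ?_, ?_,
    fun G hG => W.tsum (a1 G hG) hm⟩
  · have b1 := (h.rep 1 (by simp)).sub (h.rep z hz)
    rw [h.one] at b1
    rw [← b1.tsum_eq, ← tsum_mul_left]
    refine tsum_congr fun n => ?_
    have := geom_sum_mul_neg z n
    linear_combination (-(q n : ℂ)) * this + (q n : ℂ) * one_pow (M := ℂ) n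
  · refine HasSum.tsum_eq (hs_congr (Complex.hasSum_ofReal.2 hm) (fun n => ?_) rfl)
    simp [mul_comm]
  · exact continuousOn_tsum (u := fun n : ℕ => n * q n) (fun n => by fun_prop) hm.summable
      fun n z hz => (a1 _ W.fst n).bound (y := 0) (by simpa using hz) (by simp)

end PG

end Pool.Agent.P.MP_386d8e_pr
end

-- part Pool.Agent.P.MP_386d8e_pr.Stab
section

set_option autoImplicit false

open MeasureTheory Filter Topology

namespace Pool.Agent.P.MP_386d8e_pr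

theorem W.tendsto {C : ℝ} {F : ℂ → ℂ → ℂ} (h : W C F) {u v : ℕ → ℂ} {x y : ℂ} (hu : ∀ k, ‖u k‖ ≤ 1)
    (hv : ∀ k, ‖v k‖ ≤ 1) (hx : Tendsto u atTop (𝓝 x)) (hy : Tendsto v atTop (𝓝 y)) :
    Tendsto (fun k => F (u k) (v k)) atTop (𝓝 (F x y)) := by
  obtain ⟨c, h1, -, h3⟩ := h
  have hx1 : ‖x‖ ≤ 1 := le_of_tendsto' hx.norm hu
  have hy1 : ‖y‖ ≤ 1 := le_of_tendsto' hy.norm hv
  rw [← (h3 x y hx1 hy1).tsum_eq]
  simp only [fun k => (h3 _ _ (hu k) (hv k)).tsum_eq.symm]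
  refine tendsto_tsum_of_dominated_convergence h1
    (fun s => ((hx.pow _).mul (hy.pow _)).const_mul _) (Eventually.of_forall fun k s => ?_)
  rw [norm_mul]
  exact mul_le_of_le_one_right (norm_nonneg _) (norm_mono_le (hu k) (hv k) _ _)

theorem pmf_sum (p : PMF (ℕ × ℕ)) : HasSum (fun s => (p s).toReal) 1 := by
  have := ENNReal.hasSum_toReal (f := p) (by simp)
  rwa [← ENNReal.tsum_toReal_eq (p.apply_ne_top), p.tsum_coe, ENNReal.toReal_one] at this

theorem pmf_norm (p : PMF (ℕ × ℕ)) : HasSum (fun s => ‖((p s).toReal : ℂ)‖) 1 :=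
  hs_congr (pmf_sum p) (fun s => by simp) rfl

theorem pgf_rep (p : PMF (ℕ × ℕ)) {x y : ℂ} (hx : ‖x‖ ≤ 1) (hy : ‖y‖ ≤ 1) :
    HasSum (fun s => ((p s).toReal : ℂ) * (x ^ s.1 * y ^ s.2)) (pgf p x y) := by
  have : Summable fun s : ℕ × ℕ => ((p s).toReal : ℂ) * (x ^ s.1 * y ^ s.2) :=
    Summable.of_norm_bounded (pmf_norm p).summable fun s => by
      rw [norm_mul]
      exact mul_le_of_le_one_right (norm_nonneg _) (norm_mono_le hx hy _ _)
  refine hs_congr this.hasSum (fun _ => rfl) ?_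
  simp only [pgf, mul_assoc]

theorem pgf_W (p : PMF (ℕ × ℕ)) : W 1 (pgf p) :=
  ⟨_, (pmf_norm p).summable, (pmf_norm p).tsum_eq.le, fun _ _ hx hy => pgf_rep p hx hy⟩

theorem pgf_one (p : PMF (ℕ × ℕ)) : pgf p 1 1 = 1 :=
  (pgf_rep p (by simp) (by simp)).unique
    (hs_congr (Complex.hasSum_ofReal.2 (pmf_sum p)) (fun s => by simp) (by simp))

theorem nrm {x : ℝ} (h0 : 0 ≤ x) (h1 : x ≤ 1) : ‖(x : ℂ)‖ ≤ 1 := by
  rw [Complex.norm_real, Real.norm_of_nonneg h0]; exact h1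

theorem pgf_real (p : PMF (ℕ × ℕ)) {x y : ℝ} (x0 : 0 ≤ x) (x1 : x ≤ 1) (y0 : 0 ≤ y) (y1 : y ≤ 1) :
    ∃ r : ℝ, (r : ℂ) = pgf p x y ∧ HasSum (fun s => (p s).toReal * (x ^ s.1 * y ^ s.2)) r := by
  have h := pgf_rep p (nrm x0 x1) (nrm y0 y1)
  have h2 : HasSum (fun s => (p s).toReal * (x ^ s.1 * y ^ s.2)) (pgf p x y).re := by
    refine hs_congr (Complex.hasSum_re h) (fun s => ?_) rfl
    rw [← Complex.ofReal_pow, ← Complex.ofReal_pow, ← Complex.ofReal_mul, ← Complex.ofReal_mul,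
      Complex.ofReal_re]
  exact ⟨_, (Complex.hasSum_ofReal.2 h2).unique (hs_congr h (fun s => by push_cast; rfl) rfl), h2⟩

/-- the four transforms as generating functions of a linear form -/
structure Setup (P : Model) where
  α : ℝ
  β : ℝ
  q1 : ℕ → ℝ
  q2 : ℕ → ℝ
  r1 : ℕ → ℝ
  r2 : ℕ → ℝ
  b1 : ℂ → ℂ
  b2 : ℂ → ℂ
  s1 : ℂ → ℂ
  s2 : ℂ → ℂ
  hα : 0 < α
  hβ : 0 < β
  hαβ : α + β = 1
  B1 : PG q1 b1
  B2 : PG q2 b2
  S1 : PG r1 s1
  S2 : PG r2 s2
  hS : 0 < r1 1 ∨ 0 < r2 1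
  eb1 : ∀ x y, lst P.B1 (P.th x y) = b1 (α * x + β * y)
  eb2 : ∀ x y, lst P.B2 (P.th x y) = b2 (α * x + β * y)
  es1 : ∀ x y, lst P.S1 (P.th x y) = s1 (α * x + β * y)
  es2 : ∀ x y, lst P.S2 (P.th x y) = s2 (α * x + β * y)

namespace Setup

variable {P : Model} (S : Setup P)

/-- finite means and the stability condition -/
structure Stable where
  m1 : ℝ
  m2 : ℝ
  n1 : ℝ
  n2 : ℝ
  h1 : HasSum (fun n : ℕ => n * S.q1 n) m1
  h2 : HasSum (fun n : ℕ => n * S.q2 n) m2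
  k1 : HasSum (fun n : ℕ => n * S.r1 n) n1
  k2 : HasSum (fun n : ℕ => n * S.r2 n) n2
  st : S.α * m1 + S.β * (n1 + n2 + m2) < 1
  fix : ∀ y : ℝ, 0 < y → y < 1 → ∃ p a : ℝ, 0 < p ∧ p ≤ 1 ∧ y < a ∧
    S.b1 (S.α * p + S.β * y) = p ∧
    S.s1 (S.α * p + S.β * y) * S.s2 (S.α * p + S.β * y) * S.b2 (S.α * p + S.β * y) = a

theorem exists_fix {p1 p2 : PMF (ℕ × ℕ)} (hst : P.Steady p1 p2) {y : ℝ} (y0 : 0 < y) (y1 : y < 1) :
    ∃ p l σ1 σ2 b F K : ℝ, 0 < p ∧ p ≤ 1 ∧ l = S.α * p + S.β * y ∧ S.b1 l = p ∧ S.s1 l = σ1 ∧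
      S.s2 l = σ2 ∧ S.b2 l = b ∧ pgf p1 p y = F ∧ pgf p2 p 0 = K ∧
      HasSum (fun s => (p2 s).toReal * (p ^ s.1 * 0 ^ s.2)) K ∧ 0 < F ∧ σ2 * K ≤ F ∧
      F * (σ1 * σ2 * b - y) = σ2 * (b - y) * K := by
  have hα := S.hα
  have hβ := S.hβ
  have hαβ := S.hαβ
  have l0 : ∀ x : ℝ, 0 ≤ x → 0 ≤ S.α * x + S.β * y := fun x hx => by positivity
  have l1 : ∀ x : ℝ, x ≤ 1 → S.α * x + S.β * y ≤ 1 := fun x hx => by nlinarith
  have hc : ContinuousOn (fun x : ℝ => x - (S.b1 ((S.α * x + S.β * y : ℝ) : ℂ)).re) (Set.Icc 0 1) := by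
    refine continuousOn_id.sub (Complex.continuous_re.comp_continuousOn ?_)
    refine S.B1.continuousOn.comp (Continuous.continuousOn (by fun_prop)) fun x hx => ?_
    simpa using nrm (l0 x hx.1) (l1 x hx.2)
  obtain ⟨p, hp, hp'⟩ := intermediate_value_Icc zero_le_one hc (show (0 : ℝ) ∈ _ from ⟨by
    have := S.B1.le_re (l0 0 le_rfl) (l1 0 zero_le_one)
    have := S.B1.pos
    linarith, by
    have := (Complex.re_le_norm _).trans (S.B1.norm_le (nrm (l0 1 zero_le_one) (l1 1 le_rfl)))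
    linarith⟩)
  simp only at hp'
  set l := S.α * p + S.β * y with hl
  have a0 : 0 ≤ l := l0 p hp.1
  have a1 : l ≤ 1 := l1 p hp.2
  have p0 : 0 < p := by linarith [S.B1.le_re a0 a1, S.B1.pos]
  have e1 : S.b1 l = p := by rw [← S.B1.ofReal_re a0 a1]; congr 1; linarith
  obtain ⟨F, hF, hF'⟩ := pgf_real p1 hp.1 hp.2 y0.le y1.le
  obtain ⟨G, hG, hG'⟩ := pgf_real p2 hp.1 hp.2 y0.le y1.le
  obtain ⟨K, hK, hK'⟩ := pgf_real p2 hp.1 hp.2 le_rfl zero_le_one
  have el : (S.α * p + S.β * y : ℂ) = l := by rw [hl]; push_cast; rfl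
  obtain ⟨r1, r2⟩ := hst p y (nrm hp.1 hp.2) (nrm y0.le y1.le)
  have yne : (y : ℂ) ≠ 0 := by exact_mod_cast y0.ne'
  replace r2 := r2 yne
  rw [Complex.ofReal_zero] at hK
  rw [Model.h, S.eb1, S.es1, el, e1, ← hF, ← hG, ← S.S1.ofReal_re a0 a1] at r1
  rw [S.es2, S.eb2, el, ← hF, ← hG, ← hK, ← S.S2.ofReal_re a0 a1, ← S.B2.ofReal_re a0 a1] at r2
  have r1' : G = (S.s1 l).re * F := by exact_mod_cast r1
  have r2' : F = (S.s2 l).re * ((S.b2 l).re / y * (G - K) + K) := by exact_mod_cast r2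
  have KG : K ≤ G := hasSum_le (fun s => mul_le_mul_of_nonneg_left
    (mul_le_mul_of_nonneg_left (pow_le_pow_left₀ le_rfl y0.le _) (by positivity))
    ENNReal.toReal_nonneg) hK' hG'
  have F0 : 0 < F := by
    obtain ⟨s, hs⟩ := p1.support_nonempty
    refine lt_of_lt_of_le ?_ (le_hasSum hF' s fun _ _ => by positivity)
    have : 0 < (p1 s).toReal := ENNReal.toReal_pos hs (p1.apply_ne_top s)
    positivity
  have σ20 : 0 < (S.s2 l).re := by linarith [S.S2.le_re a0 a1, S.S2.pos]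
  have b0 : 0 < (S.b2 l).re := by linarith [S.B2.le_re a0 a1, S.B2.pos]
  refine ⟨p, l, (S.s1 l).re, (S.s2 l).re, (S.b2 l).re, F, K, p0, hp.2, rfl, e1,
    (S.S1.ofReal_re a0 a1).symm, (S.S2.ofReal_re a0 a1).symm, (S.B2.ofReal_re a0 a1).symm,
    hF.symm, hK.symm, hK', F0, ?_, ?_⟩
  · rw [r2']
    refine mul_le_mul_of_nonneg_left ?_ σ20.le
    have : 0 ≤ (S.b2 l).re / y * (G - K) := mul_nonneg (by positivity) (by linarith)
    linarith
  · have : F * y = (S.s2 l).re * ((S.b2 l).re * (G - K) + K * y) := by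
      rw [r2']; field_simp
    rw [r1'] at this
    linear_combination -this

theorem exists_stable {p1 p2 : PMF (ℕ × ℕ)} (hst : P.Steady p1 p2) :
    ∃ T : S.Stable, pgf p2 1 0 * ((1 - S.α * T.m1 - S.β * T.m2 : ℝ) : ℂ) =
      ((1 - S.α * T.m1 - S.β * (T.n1 + T.n2 + T.m2) : ℝ) : ℂ) := by
  have hα := S.hα
  have hβ := S.hβ
  have hαβ := S.hαβ
  have rng : ∀ {q : ℕ → ℝ} {f : ℂ → ℂ}, PG q f → ∀ {l σ : ℝ}, 0 ≤ l → l ≤ 1 → f l = σ →
      q 0 ≤ σ ∧ 0 < σ ∧ σ ≤ 1 - q 1 * (1 - l) ∧ σ ≤ 1 := by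
    intro q f h l σ l0 l1 e
    have a := h.le_re l0 l1
    have b := h.re_le l0 l1
    rw [e, Complex.ofReal_re] at a b
    have := mul_nonneg (h.nonneg 1) (sub_nonneg.2 l1)
    exact ⟨a, by linarith [h.pos], b, by linarith⟩
  obtain ⟨s0, hs0, hs0'⟩ : ∃ s : ℕ × ℕ, s.2 = 0 ∧ 0 < (p2 s).toReal := by
    by_contra hc
    push Not at hc
    have a0 : 0 < S.r1 0 * S.r2 0 * S.q2 0 := mul_pos (mul_pos S.S1.pos S.S2.pos) S.B2.pos
    obtain ⟨p, l, σ1, σ2, b, F, K, p0, p1', hl, -, e1, e2, e3, -, -, hK, F0, -, hid⟩ :=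
      S.exists_fix hst (y := min (1 / 2) (S.r1 0 * S.r2 0 * S.q2 0 / 2)) (by positivity)
        (lt_of_le_of_lt (min_le_left _ _) (by norm_num))
    have m1 := min_le_left (1 / 2) (S.r1 0 * S.r2 0 * S.q2 0 / 2)
    have m2 := min_le_right (1 / 2) (S.r1 0 * S.r2 0 * S.q2 0 / 2)
    have l0 : 0 ≤ l := by rw [hl]; positivity
    have l1 : l ≤ 1 := by rw [hl]; nlinarith
    have K0 : K = 0 := hK.unique (hs_congr hasSum_zero (fun s => by
      by_cases h : s.2 = 0
      · have : (p2 s).toReal = 0 := le_antisymm (hc s h) ENNReal.toReal_nonneg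
        simp [this]
      · simp [h]) rfl)
    obtain ⟨c1, c1', -⟩ := rng S.S1 l0 l1 e1
    obtain ⟨c2, c2', -⟩ := rng S.S2 l0 l1 e2
    obtain ⟨c3, -⟩ := rng S.B2 l0 l1 e3
    have : S.r1 0 * S.r2 0 * S.q2 0 ≤ σ1 * σ2 * b :=
      mul_le_mul (mul_le_mul c1 c2 S.S2.pos.le c1'.le) c3 S.B2.pos.le (by positivity)
    rw [K0, mul_zero] at hid
    have := mul_pos F0 (show 0 < σ1 * σ2 * b - min (1 / 2) (S.r1 0 * S.r2 0 * S.q2 0 / 2) by linarith)
    linarith
  have Kpos : ∀ {p K : ℝ}, 0 < p → HasSum (fun s => (p2 s).toReal * (p ^ s.1 * 0 ^ s.2)) K → 0 < K := by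
    intro p K p0 hK
    refine lt_of_lt_of_le ?_ (le_hasSum hK s0 fun _ _ => by positivity)
    rw [hs0, pow_zero]
    positivity
  obtain ⟨c, c0, hc⟩ : ∃ c > 0, ∀ {l σ1 σ2 : ℝ}, 0 ≤ l → l ≤ 1 → S.s1 l = σ1 → S.s2 l = σ2 →
      σ1 * σ2 ≤ 1 - c * (1 - l) := by
    rcases S.hS with h | h
    · refine ⟨_, h, fun l0 l1 e1 e2 => ?_⟩
      obtain ⟨-, a1, a2, -⟩ := rng S.S1 l0 l1 e1
      obtain ⟨-, -, -, a3⟩ := rng S.S2 l0 l1 e2
      nlinarith
    · refine ⟨_, h, fun l0 l1 e1 e2 => ?_⟩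
      obtain ⟨-, a1, a2, -⟩ := rng S.S2 l0 l1 e2
      obtain ⟨-, -, -, a3⟩ := rng S.S1 l0 l1 e1
      nlinarith
  have main : ∀ y : ℝ, 0 < y → y < 1 → ∃ p l σ1 σ2 b F K : ℝ, 0 < p ∧ p ≤ 1 ∧
      l = S.α * p + S.β * y ∧ S.b1 l = p ∧ S.s1 l = σ1 ∧ S.s2 l = σ2 ∧ S.b2 l = b ∧
      pgf p1 p y = F ∧ pgf p2 p 0 = K ∧ F * (σ1 * σ2 * b - y) = σ2 * (b - y) * K ∧
      0 ≤ l ∧ l < 1 ∧ y < σ1 * σ2 * b ∧ y < σ1 ∧ y < σ2 ∧ y < b ∧ c * (1 - l) ≤ 1 - y := by
    intro y y0 y1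
    obtain ⟨p, l, σ1, σ2, b, F, K, p0, p1', hl, e0, e1, e2, e3, eF, eK, hK, F0, hFK, hid⟩ :=
      S.exists_fix hst y0 y1
    have l0 : 0 ≤ l := by rw [hl]; positivity
    have l1 : l < 1 := by rw [hl]; nlinarith
    obtain ⟨-, a1, -, a1'⟩ := rng S.S1 l0 l1.le e1
    obtain ⟨-, a2, -, a2'⟩ := rng S.S2 l0 l1.le e2
    obtain ⟨-, a3, -, a3'⟩ := rng S.B2 l0 l1.le e3
    have a4 := hc l0 l1.le e1 e2
    have a5 : 0 < c * (1 - l) := mul_pos c0 (by linarith)
    have a6 := mul_pos a2 (Kpos p0 hK)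
    have a7 : y < σ1 * σ2 * b := by
      by_contra hn
      push Not at hn
      have d1 : F * (σ1 * σ2 * b - y) ≤ σ2 * K * (σ1 * σ2 * b - y) :=
        mul_le_mul_of_nonpos_right hFK (by linarith)
      have d2 : σ1 * σ2 * b < b := by nlinarith
      nlinarith
    have a8 := mul_pos a1 a2
    have a9 : σ1 * σ2 * b ≤ σ1 * σ2 := mul_le_of_le_one_right a8.le a3'
    refine ⟨p, l, σ1, σ2, b, F, K, p0, p1', hl, e0, e1, e2, e3, eF, eK, hid, l0, l1, a7,
      by nlinarith, by nlinarith, by nlinarith, by linarith⟩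
  set y : ℕ → ℝ := fun k => 1 - 1 / ((k : ℝ) + 1) / 2 with hy
  have y01 : ∀ k, 0 < y k ∧ y k < 1 := by
    intro k
    have a1 : 0 < 1 / ((k : ℝ) + 1) := by positivity
    have a2 : 1 / ((k : ℝ) + 1) ≤ 1 := by
      rw [div_le_one (by positivity)]; linarith [Nat.cast_nonneg (α := ℝ) k]
    simp only [hy]
    constructor <;> linarith
  have yt : Tendsto y atTop (𝓝 1) := by
    have := (tendsto_one_div_add_atTop_nhds_zero_nat.div_const 2).const_sub (1 : ℝ)
    rwa [zero_div, sub_zero] at this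
  choose p l σ1 σ2 b F K p0 p1' hl e0 e1 e2 e3 eF eK hid l0 l1 a7 d1 d2 d3 d4 using
    fun k => main (y k) (y01 k).1 (y01 k).2
  have lt : Tendsto l atTop (𝓝 1) := by
    have t1 : Tendsto (fun k => 1 - (1 - y k) / c) atTop (𝓝 1) := by
      simpa using ((yt.const_sub 1).div_const c).const_sub (1 : ℝ)
    refine tendsto_of_tendsto_of_tendsto_of_le_of_le t1 tendsto_const_nhds (fun k => ?_)
      fun k => (l1 k).le
    have := (le_div_iff₀' c0).2 (d4 k)
    simp only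
    linarith
  have pt : Tendsto p atTop (𝓝 1) := by
    have t1 : Tendsto (fun k => (l k - S.β * y k) / S.α) atTop (𝓝 ((1 - S.β * 1) / S.α)) :=
      (lt.sub (yt.const_mul _)).div_const _
    rw [show (1 - S.β * 1) / S.α = 1 by field_simp; linarith] at t1
    refine t1.congr fun k => ?_
    rw [hl k]
    field_simp
    ring
  have yl : ∀ k, 1 - y k ≤ 1 / S.β * (1 - l k) := by
    intro k
    rw [one_div, ← div_eq_inv_mul, le_div_iff₀ hβ, hl k]
    nlinarith [p1' k]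
  have mm : ∀ {q : ℕ → ℝ} {f : ℂ → ℂ}, PG q f → ∀ {σ : ℕ → ℝ}, (∀ k, f (l k) = σ k) →
      (∀ k, y k < σ k) → Summable fun n : ℕ => n * q n := fun h σ e d =>
    (h.mean_le l0 l1 lt (c := 1 / S.β) fun k => by
      rw [e k, Complex.ofReal_re]; linarith [yl k, d k]).1
  obtain ⟨u1, u1'⟩ := S.B1.mean_le l0 l1 lt (c := (1 - S.β * c) / S.α) fun k => by
    rw [e0 k, Complex.ofReal_re, div_mul_eq_mul_div, le_div_iff₀ hα]
    have := mul_le_mul_of_nonneg_left (d4 k) hβ.le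
    have := hl k
    nlinarith
  replace u1 := u1.hasSum
  have u2 := (mm S.B2 e3 d3).hasSum
  have v1 := (mm S.S1 e1 d1).hasSum
  have v2 := (mm S.S2 e2 d2).hasSum
  set m1 := ∑' n : ℕ, n * S.q1 n
  set m2 := ∑' n : ℕ, n * S.q2 n
  set n1 := ∑' n : ℕ, n * S.r1 n
  set n2 := ∑' n : ℕ, n * S.r2 n
  obtain ⟨g1, g1a, g1b, -, g1c⟩ := S.B1.exists_tilde u1
  obtain ⟨g2, g2a, g2b, -, g2c⟩ := S.B2.exists_tilde u2
  obtain ⟨t1, t1a, t1b, -, t1c⟩ := S.S1.exists_tilde v1
  obtain ⟨t2, t2a, t2b, -, t2c⟩ := S.S2.exists_tilde v2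
  have ln : ∀ k, ‖(l k : ℂ)‖ ≤ 1 := fun k => nrm (l0 k) (l1 k).le
  have ltc : Tendsto (fun k => (l k : ℂ)) atTop (𝓝 1) :=
    (Complex.continuous_ofReal.tendsto 1).comp lt
  have ptc : Tendsto (fun k => (p k : ℂ)) atTop (𝓝 1) :=
    (Complex.continuous_ofReal.tendsto 1).comp pt
  have ytc : Tendsto (fun k => (y k : ℂ)) atTop (𝓝 1) :=
    (Complex.continuous_ofReal.tendsto 1).comp yt
  have lim : ∀ {C : ℝ} {g : ℂ → ℂ}, W C (fun x _ => g x) →
      Tendsto (fun k => g (l k)) atTop (𝓝 (g 1)) := fun h => h.tendsto ln ln ltc ltc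
  set E : ℂ → ℂ := fun z => 1 - S.α * g1 z - S.β * (t1 z + S.s1 z * t2 z + S.s1 z * S.s2 z * g2 z)
    with hE
  have Et : Tendsto (fun k => E (l k)) atTop (𝓝 ((1 - S.α * m1 - S.β * (n1 + n2 + m2) : ℝ) : ℂ)) := by
    have := (((lim (g := g1) (g1c (fun x _ => x) W.fst)).const_mul (S.α : ℂ)).const_sub 1).sub
      ((((lim (g := t1) (t1c (fun x _ => x) W.fst)).add ((lim (g := S.s1) (S.S1.comp W.fst)).mul (lim (g := t2) (t2c (fun x _ => x) W.fst)))).add
        (((lim (g := S.s1) (S.S1.comp W.fst)).mul (lim (g := S.s2) (S.S2.comp W.fst))).mul (lim (g := g2) (g2c (fun x _ => x) W.fst)))).const_mul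
          (S.β : ℂ))
    rw [g1b, g2b, t1b, t2b, S.S1.one, S.S2.one] at this
    simpa using this
  have hαβc : (S.α : ℂ) + S.β = 1 := by exact_mod_cast hαβ
  have hlc : ∀ k, (l k : ℂ) = S.α * p k + S.β * y k := fun k => by rw [hl k]; push_cast; rfl
  have lne : ∀ k, (1 : ℂ) - l k ≠ 0 := fun k => by
    have : (1 - l k : ℝ) ≠ 0 := by linarith [l1 k]
    exact_mod_cast this
  have i1 : ∀ k, (1 - l k) * E (l k) = S.β * (σ1 k * σ2 k * b k - y k) := by
    intro k
    have a1 := g1a _ (ln k)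
    have a2 := g2a _ (ln k)
    have a3 := t1a _ (ln k)
    have a4 := t2a _ (ln k)
    simp only [hE]
    rw [e0 k] at a1
    rw [e3 k] at a2
    rw [e1 k] at a3
    rw [e2 k] at a4
    rw [e1 k, e2 k]
    linear_combination S.α * a1 + S.β * a3 + S.β * σ1 k * a4 + S.β * σ1 k * σ2 k * a2 - hlc k - hαβc
  have i2 : ∀ k, (1 - l k) * (1 - S.α * g1 (l k) - S.β * g2 (l k)) = S.β * (b k - y k) := by
    intro k
    have a1 := g1a _ (ln k)
    have a2 := g2a _ (ln k)
    rw [e0 k] at a1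
    rw [e3 k] at a2
    linear_combination S.α * a1 + S.β * a2 - hlc k - hαβc
  have i3 : ∀ k, pgf p1 (p k) (y k) * E (l k) =
      S.s2 (l k) * (1 - S.α * g1 (l k) - S.β * g2 (l k)) * pgf p2 (p k) 0 := by
    intro k
    refine mul_left_cancel₀ (lne k) ?_
    have a1 : (F k : ℂ) * (σ1 k * σ2 k * b k - y k) = σ2 k * (b k - y k) * K k := by
      exact_mod_cast hid k
    rw [eF k, eK k, e2 k]
    linear_combination F k * i1 k - σ2 k * K k * i2 k + S.β * a1
  have pn : ∀ k, ‖(p k : ℂ)‖ ≤ 1 := fun k => nrm (p0 k).le (p1' k)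
  have L1 := ((pgf_W p1).tendsto pn (fun k => nrm (y01 k).1.le (y01 k).2.le) ptc ytc).mul Et
  have L2 := ((lim (g := S.s2) (S.S2.comp W.fst)).mul ((((lim (g := g1) (g1c (fun x _ => x) W.fst)).const_mul (S.α : ℂ)).const_sub 1).sub
    ((lim (g := g2) (g2c (fun x _ => x) W.fst)).const_mul (S.β : ℂ)))).mul
    ((pgf_W p2).tendsto (v := fun _ => 0) pn (fun _ => by simp) ptc tendsto_const_nhds)
  simp only [i3] at L1
  have L3 := tendsto_nhds_unique L1 L2
  rw [pgf_one, g1b, g2b, S.S2.one, one_mul, one_mul] at L3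
  have L4 : pgf p2 1 0 * ((1 - S.α * m1 - S.β * m2 : ℝ) : ℂ) =
      ((1 - S.α * m1 - S.β * (n1 + n2 + m2) : ℝ) : ℂ) := by
    rw [L3]; push_cast; ring
  have L5 : 0 ≤ 1 - S.α * m1 - S.β * (n1 + n2 + m2) := by
    have := (Complex.continuous_re.tendsto _).comp Et
    rw [Complex.ofReal_re] at this
    refine ge_of_tendsto' this fun k => ?_
    have a1 : E (l k) = ((S.β * (σ1 k * σ2 k * b k - y k) / (1 - l k) : ℝ) : ℂ) := by
      push_cast
      rw [eq_div_iff (lne k), ← i1 k, mul_comm]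
    simp only [Function.comp, a1, Complex.ofReal_re]
    exact div_nonneg (mul_nonneg hβ.le (by linarith [a7 k])) (by linarith [l1 k])
  have L6 : 0 < n1 + n2 := by
    have a1 := le_hasSum v1 1 fun n _ => mul_nonneg (Nat.cast_nonneg n) (S.S1.nonneg n)
    have a2 := le_hasSum v2 1 fun n _ => mul_nonneg (Nat.cast_nonneg n) (S.S2.nonneg n)
    simp only [Nat.cast_one, one_mul] at a1 a2
    have := S.S1.nonneg 1
    have := S.S2.nonneg 1
    rcases S.hS with h | h <;> linarith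
  obtain ⟨K1, hK1, hK1'⟩ := pgf_real p2 zero_le_one le_rfl le_rfl zero_le_one
  have L7 : K1 * (1 - S.α * m1 - S.β * m2) = 1 - S.α * m1 - S.β * (n1 + n2 + m2) := by
    rw [Complex.ofReal_one, Complex.ofReal_zero] at hK1
    rw [← hK1] at L4
    exact_mod_cast L4
  have L8 := mul_pos (Kpos one_pos hK1') (show 0 < 1 - S.α * m1 - S.β * m2 by nlinarith)
  refine ⟨⟨m1, m2, n1, n2, u1, u2, v1, v2, by linarith, fun y y0 y1 => ?_⟩, L4⟩
  obtain ⟨p, l, σ1, σ2, b, F, K, p0, p1', hl, e0, e1, e2, e3, -, -, -, -, -, a7, -⟩ := main y y0 y1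
  have el : (S.α * p + S.β * y : ℂ) = l := by rw [hl]; push_cast; rfl
  refine ⟨p, σ1 * σ2 * b, p0, p1', a7, by rw [el, e0], ?_⟩
  rw [el, e1, e2, e3]
  push_cast
  rfl

end Setup

end Pool.Agent.P.MP_386d8e_pr
end

-- part Pool.Agent.P.MP_386d8e_pr.Laur
section

set_option autoImplicit false

open MeasureTheory Filter Topology

namespace Pool.Agent.P.MP_386d8e_pr

theorem W.inv_one_sub {r : ℝ} {G : ℂ → ℂ → ℂ} (h : W r G) (hr : r < 1) :
    W (1 - r)⁻¹ fun x y => (1 - G x y)⁻¹ :=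
  (W.tsum (fun n => h.pow n) (hasSum_geometric_of_lt_one h.nonneg hr)).congr fun _ _ hx hy =>
    (tsum_geometric_of_norm_lt_one (lt_of_le_of_lt (h.bound hx hy) hr)).symm

/-- substitution in the first variable is bounded and Lipschitz -/
structure Lip (C : ℝ) (Φ : ℂ → ℂ → ℂ) : Prop where
  bd : ∀ G, W 1 G → W C fun x y => Φ (G x y) y
  lip : ∀ (F G : ℂ → ℂ → ℂ) (D : ℝ), W 1 F → W 1 G → W D (fun x y => F x y - G x y) →
    W (C * D) fun x y => Φ (F x y) y - Φ (G x y) y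

theorem Lip.mul {C C' : ℝ} {Φ Ψ : ℂ → ℂ → ℂ} (h : Lip C Φ) (h' : Lip C' Ψ) :
    Lip (2 * (C * C')) fun x y => Φ x y * Ψ x y where
  bd G hG := by
    have := (h.bd G hG).mul (h'.bd G hG)
    exact this.mono (by linarith [this.nonneg])
  lip F G D hF hG hD :=
    ((((h.bd F hF).mul (h'.lip F G D hF hG hD)).add ((h.lip F G D hF hG hD).mul (h'.bd G hG))).congr
      fun _ _ _ _ => by ring).mono (le_of_eq (by ring))

theorem Lip.sub {C C' : ℝ} {Φ Ψ : ℂ → ℂ → ℂ} (h : Lip C Φ) (h' : Lip C' Ψ) :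
    Lip (C + C') fun x y => Φ x y - Ψ x y where
  bd G hG := (h.bd G hG).sub (h'.bd G hG)
  lip F G D hF hG hD :=
    (((h.lip F G D hF hG hD).sub (h'.lip F G D hF hG hD)).congr fun _ _ _ _ => by ring).mono
      (le_of_eq (by ring))

theorem Lip.snd : Lip 1 fun _ y => y where
  bd _ _ := W.snd
  lip F G D _ _ hD := (W.zero.congr fun _ _ _ _ => by ring).mono (by linarith [hD.nonneg])

theorem Lip.pow (j : ℕ) : Lip (1 + j) fun x _ => x ^ j where
  bd G hG := (hG.pow1 j).mono (by linarith [Nat.cast_nonneg (α := ℝ) j])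
  lip F G D hF hG hD := (W.pow_sub hF hG hD j).mono (by nlinarith [hD.nonneg])

/-- the weight used on negative levels -/
noncomputable def wt (r : ℝ) (s : ℕ × ℤ) : ℝ := max 1 (r ^ s.2)

/-- Laurent series in the second variable, with a weighted norm at most `C` -/
structure Lr (r C : ℝ) (c : ℕ × ℤ → ℂ) (F : ℂ → ℂ → ℂ) : Prop where
  sm : Summable fun s => ‖c s‖ * wt r s
  le : ∑' s, ‖c s‖ * wt r s ≤ C
  rep : ∀ x y : ℂ, ‖x‖ ≤ 1 → ‖y‖ = 1 → HasSum (fun s => c s * (x ^ s.1 * y ^ s.2)) (F x y)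

theorem one_le_wt (r : ℝ) (s : ℕ × ℤ) : 1 ≤ wt r s := le_max_left _ _

theorem norm_mono_le' {x y : ℂ} (hx : ‖x‖ ≤ 1) (hy : ‖y‖ = 1) (i : ℕ) (j : ℤ) :
    ‖x ^ i * y ^ j‖ ≤ 1 := by
  rw [norm_mul, norm_pow, norm_zpow, hy, one_zpow, mul_one]
  exact pow_le_one₀ (norm_nonneg _) hx

theorem Lr.sm' {r C : ℝ} {c : ℕ × ℤ → ℂ} {F : ℂ → ℂ → ℂ} (h : Lr r C c F) :
    Summable fun s => ‖c s‖ :=
  Summable.of_nonneg_of_le (fun _ => norm_nonneg _)
    (fun s => le_mul_of_one_le_right (norm_nonneg _) (one_le_wt r s)) h.sm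

theorem Lr.le' {r C : ℝ} {c : ℕ × ℤ → ℂ} {F : ℂ → ℂ → ℂ} (h : Lr r C c F) : ∑' s, ‖c s‖ ≤ C :=
  (h.sm'.tsum_le_tsum (fun s => le_mul_of_one_le_right (norm_nonneg _) (one_le_wt r s)) h.sm).trans
    h.le

theorem Lr.bound {r C : ℝ} {c : ℕ × ℤ → ℂ} {F : ℂ → ℂ → ℂ} (h : Lr r C c F) {x y : ℂ}
    (hx : ‖x‖ ≤ 1) (hy : ‖y‖ = 1) : ‖F x y‖ ≤ C := by
  refine le_trans ?_ h.le'
  refine (h.rep x y hx hy).norm_le_of_bounded h.sm'.hasSum fun s => ?_
  rw [norm_mul]
  exact mul_le_of_le_one_right (norm_nonneg _) (norm_mono_le' hx hy _ _)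

theorem laurent_of {V : ℕ → ℂ → ℂ → ℂ} {E : ℕ → ℝ} (hV : ∀ k, W (E k) (V k)) {r a : ℝ}
    (r0 : 0 < r) (r1 : r ≤ 1) (ha : HasSum (fun k => E k * r⁻¹ ^ k) a) :
    ∃ c, Lr r a c fun x y => ∑' k, V k x y / y ^ k := by
  have E0 := fun k => (hV k).nonneg
  choose d h1 h2 h3 using hV
  have r2 : ∀ k : ℕ, 1 ≤ r⁻¹ ^ k := fun k => one_le_pow₀ ((one_le_inv₀ r0).2 r1)
  let e : ℕ × (ℕ × ℕ) → ℕ × ℤ := fun p => (p.2.1, (p.2.2 : ℤ) - p.1)
  have w1 : ∀ p, wt r (e p) ≤ r⁻¹ ^ p.1 := by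
    intro p
    refine max_le (r2 _) ?_
    simp only [e]
    rw [zpow_sub₀ r0.ne', zpow_natCast, zpow_natCast, inv_pow, div_eq_mul_inv]
    exact mul_le_of_le_one_left (by positivity) (pow_le_one₀ r0.le r1)
  have t1 : ∀ k, ∑' s, ‖d k s‖ * r⁻¹ ^ k ≤ E k * r⁻¹ ^ k := fun k => by
    rw [tsum_mul_right]
    exact mul_le_mul_of_nonneg_right (h2 k) (by positivity)
  have t2 : Summable fun k => ∑' s, ‖d k s‖ * r⁻¹ ^ k :=
    Summable.of_nonneg_of_le (fun k => tsum_nonneg fun s => by positivity) t1 ha.summable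
  have s1 : Summable fun p : ℕ × (ℕ × ℕ) => ‖d p.1 p.2‖ * r⁻¹ ^ p.1 :=
    (summable_prod_of_nonneg (f := fun p : ℕ × (ℕ × ℕ) => ‖d p.1 p.2‖ * r⁻¹ ^ p.1)
      fun p => mul_nonneg (norm_nonneg _) (zero_le_one.trans (r2 _))).2
      ⟨fun k => (h1 k).mul_right (r⁻¹ ^ k), t2⟩
  have s2 : Summable fun p : ℕ × (ℕ × ℕ) => ‖d p.1 p.2‖ * wt r (e p) :=
    Summable.of_nonneg_of_le (fun p => mul_nonneg (norm_nonneg _) (zero_le_one.trans (one_le_wt _ _)))
      (fun p => mul_le_mul_of_nonneg_left (w1 p) (norm_nonneg _)) s1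
  have s3 : Summable fun p : ℕ × (ℕ × ℕ) => ‖d p.1 p.2‖ :=
    Summable.of_nonneg_of_le (fun _ => norm_nonneg _)
      (fun p => le_mul_of_one_le_right (norm_nonneg _) (r2 _)) s1
  obtain ⟨f1, f2⟩ := fiber_norm e (fun p => d p.1 p.2) (wt r)
    (fun s => zero_le_one.trans (one_le_wt _ _)) _ s3 s2.hasSum
  refine ⟨fun s => ∑' i : e ⁻¹' {s}, d i.1.1 i.1.2, f1, f2.trans ?_, fun x y hx hy => ?_⟩
  · refine (s2.tsum_le_tsum (fun p => mul_le_mul_of_nonneg_left (w1 p) (norm_nonneg _)) s1).trans ?_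
    rw [s1.tsum_prod, ← ha.tsum_eq]
    exact t2.tsum_le_tsum t1 ha.summable
  · refine fiber_hasSum e (fun p => d p.1 p.2) (fun s => x ^ s.1 * y ^ s.2) _ ?_
    have b1 : Summable fun p : ℕ × (ℕ × ℕ) => d p.1 p.2 * (x ^ (e p).1 * y ^ (e p).2) :=
      Summable.of_norm_bounded s3 fun p => by
        rw [norm_mul]
        exact mul_le_of_le_one_right (norm_nonneg _) (norm_mono_le' hx hy _ _)
    refine hs_congr b1.hasSum (fun _ => rfl) ?_
    rw [b1.tsum_prod]
    refine tsum_congr fun k => ?_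
    have y0 : y ≠ 0 := fun h => by simp [h] at hy
    refine (HasSum.tsum_eq (hs_congr ((h3 k x y hx hy.le).div_const (y ^ k)) (fun s => ?_) rfl)).symm
    simp only [e]
    rw [zpow_sub₀ y0, zpow_natCast, zpow_natCast]
    ring

namespace Setup

variable {P : Model} (S : Setup P)

theorem lin {G : ℂ → ℂ → ℂ} (hG : W 1 G) : W 1 fun x y => S.α * G x y + S.β * y := by
  have := (hG.cmul S.α).add (W.snd.cmul S.β)
  simpa [abs_of_pos S.hα, abs_of_pos S.hβ, S.hαβ] using this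

theorem lin_sub {F G : ℂ → ℂ → ℂ} {D : ℝ} (hD : W D fun x y => F x y - G x y) :
    W (S.α * D) fun x y => (S.α * F x y + S.β * y) - (S.α * G x y + S.β * y) := by
  have := hD.cmul S.α
  rw [Complex.norm_real, Real.norm_of_nonneg S.hα.le] at this
  exact this.congr fun _ _ _ _ => by ring

theorem lipPG {q : ℕ → ℝ} {f : ℂ → ℂ} (h : PG q f) {m : ℝ} (hm : HasSum (fun n : ℕ => n * q n) m) :
    Lip (1 + m) fun x y => f (S.α * x + S.β * y) := by
  have m0 : 0 ≤ m := hm.nonneg fun n => mul_nonneg (Nat.cast_nonneg n) (h.nonneg n)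
  refine ⟨fun G hG => (h.comp (S.lin hG)).mono (by linarith), fun F G D hF hG hD => ?_⟩
  refine (h.comp_sub hm (S.lin hF) (S.lin hG) (S.lin_sub hD)).mono ?_
  have := hD.nonneg
  have := S.hβ
  have := S.hαβ
  have := mul_nonneg m0 hD.nonneg
  nlinarith

theorem h_eq (x y : ℂ) : P.h y x = S.b1 (S.α * x + S.β * y) := S.eb1 x y

/-- numerator of `A` -/
noncomputable def a (x y : ℂ) : ℂ :=
  S.s1 (S.α * x + S.β * y) * S.s2 (S.α * x + S.β * y) * S.b2 (S.α * x + S.β * y)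

/-- numerator of `B` -/
noncomputable def bb (x y : ℂ) : ℂ := S.s2 (S.α * x + S.β * y) * (y - S.b2 (S.α * x + S.β * y))

theorem A_eq (x y : ℂ) : P.A x y = S.a x y / y := by rw [Model.A, S.es1, S.es2, S.eb2, a]

theorem B_eq (x : ℂ) {y : ℂ} (hy : y ≠ 0) : P.B x y = S.bb x y / y := by
  rw [Model.B, S.es2, S.eb2, bb]; field_simp

theorem W_a {G : ℂ → ℂ → ℂ} (hG : W 1 G) : W 1 fun x y => S.a (G x y) y :=
  ((S.S1.comp (S.lin hG)).mul1 (S.S2.comp (S.lin hG))).mul1 (S.B2.comp (S.lin hG))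

include S in
theorem W_h {G : ℂ → ℂ → ℂ} (hG : W 1 G) : W 1 fun x y => P.h y (G x y) := by
  simp only [S.h_eq]; exact S.B1.comp (S.lin hG)

include S in
theorem W_z (k : ℕ) : W 1 fun x y => (P.h y)^[k] x := by
  induction k with
  | zero => exact W.fst
  | succ k ih => simp only [Function.iterate_succ_apply']; exact S.W_h ih

include S in
theorem z_le (k : ℕ) {x y : ℂ} (hx : ‖x‖ ≤ 1) (hy : ‖y‖ ≤ 1) : ‖(P.h y)^[k] x‖ ≤ 1 :=
  (S.W_z k).bound hx hy

include S in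
theorem h_le {x y : ℂ} (hx : ‖x‖ ≤ 1) (hy : ‖y‖ ≤ 1) : ‖P.h y x‖ ≤ 1 := S.z_le 1 hx hy

include S in
theorem A_lt {y : ℂ} (hy : ‖y‖ = 1) (hy1 : y ≠ 1) :
    ∃ q : ℝ, 0 ≤ q ∧ q < 1 ∧ ∀ x : ℂ, ‖x‖ ≤ 1 → ‖P.A x y‖ ≤ q := by
  have re1 : y.re < 1 := by
    refine lt_of_le_of_ne ((Complex.re_le_norm y).trans hy.le) fun h => hy1 ?_
    have h2 : y.re = ‖y‖ := by rw [h, hy]
    have := Complex.norm_of_nonneg' (Complex.re_eq_norm.1 h2)
    rw [← this, hy, Complex.ofReal_one]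
  have key : ∀ {r : ℕ → ℝ} {f : ℂ → ℂ}, PG r f → 0 < r 1 → ∃ q : ℝ, 0 ≤ q ∧ q < 1 ∧
      ∀ x : ℂ, ‖x‖ ≤ 1 → ‖f (S.α * x + S.β * y)‖ ≤ q := by
    intro r f h h1
    have c0 := mul_pos h.pos h1
    have b : ∀ x : ℂ, ‖x‖ ≤ 1 → ‖f (S.α * x + S.β * y)‖ ≤ 1 - r 0 * r 1 * (S.β * (1 - y.re)) := by
      intro x hx
      refine (h.norm_le' ((S.lin W.fst).bound hx hy.le)).trans ?_
      have := (Complex.re_le_norm x).trans hx
      have : S.β * (1 - y.re) ≤ 1 - (S.α * x + S.β * y : ℂ).re := by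
        simp only [Complex.add_re, Complex.re_ofReal_mul]
        nlinarith [S.hα, S.hαβ]
      nlinarith
    refine ⟨_, (norm_nonneg _).trans (b 0 (by simp)), ?_, b⟩
    have := mul_pos c0 (mul_pos S.hβ (sub_pos.2 re1))
    linarith
  have n1 : ∀ {r : ℕ → ℝ} {f : ℂ → ℂ}, PG r f → ∀ x : ℂ, ‖x‖ ≤ 1 → ‖f (S.α * x + S.β * y)‖ ≤ 1 :=
    fun h x hx => h.norm_le ((S.lin W.fst).bound hx hy.le)
  rcases S.hS with h | h
  · obtain ⟨q, q0, q1, hq⟩ := key S.S1 h
    refine ⟨q, q0, q1, fun x hx => ?_⟩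
    rw [S.A_eq, norm_div, hy, div_one, a, norm_mul, norm_mul]
    exact (mul_le_of_le_one_right (by positivity) (n1 S.B2 x hx)).trans
      ((mul_le_of_le_one_right (by positivity) (n1 S.S2 x hx)).trans (hq x hx))
  · obtain ⟨q, q0, q1, hq⟩ := key S.S2 h
    refine ⟨q, q0, q1, fun x hx => ?_⟩
    rw [S.A_eq, norm_div, hy, div_one, a, norm_mul, norm_mul]
    exact (mul_le_of_le_one_right (by positivity) (n1 S.B2 x hx)).trans
      ((mul_le_of_le_one_left (by positivity) (n1 S.S1 x hx)).trans (hq x hx))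

include S in
theorem iter_eq {y : ℂ} (hy : ‖y‖ ≤ 1) {F b : ℂ → ℂ}
    (hF : ∀ x : ℂ, ‖x‖ ≤ 1 → F x = P.A x y * F (P.h y x) + b x) {x : ℂ} (hx : ‖x‖ ≤ 1) (n : ℕ) :
    ∑ k ∈ Finset.range n, P.prodA k x y * b ((P.h y)^[k] x) =
      F x - P.prodA n x y * F ((P.h y)^[n] x) := by
  induction n with
  | zero => simp [Model.prodA]
  | succ n ih =>
    rw [Finset.sum_range_succ, ih, Function.iterate_succ_apply', hF _ (S.z_le n hx hy)]
    simp only [Model.prodA, Finset.prod_range_succ]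
    ring

include S in
/-- the series is the only bounded solution -/
theorem sol_unique {y : ℂ} (hy : ‖y‖ = 1) (hy1 : y ≠ 1) {F b : ℂ → ℂ} {C : ℝ}
    (hC : ∀ x : ℂ, ‖x‖ ≤ 1 → ‖F x‖ ≤ C)
    (hF : ∀ x : ℂ, ‖x‖ ≤ 1 → F x = P.A x y * F (P.h y x) + b x) {x : ℂ} (hx : ‖x‖ ≤ 1) :
    HasSum (fun k => P.prodA k x y * b ((P.h y)^[k] x)) (F x) := by
  obtain ⟨q, q0, q1, hq⟩ := S.A_lt hy hy1
  have C0 : 0 ≤ C := (norm_nonneg _).trans (hC x hx)
  have pk : ∀ k, ‖P.prodA k x y‖ ≤ q ^ k := by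
    intro k
    rw [Model.prodA, norm_prod]
    simpa using Finset.prod_le_prod (s := Finset.range k) (fun i _ => norm_nonneg _)
      fun i _ => hq _ (S.z_le i hx hy.le)
  have hb : ∀ x : ℂ, ‖x‖ ≤ 1 → ‖b x‖ ≤ 2 * C := by
    intro x hx
    have : b x = F x - P.A x y * F (P.h y x) := by rw [hF x hx]; ring
    rw [this]
    refine (norm_sub_le _ _).trans ?_
    rw [norm_mul]
    have := mul_le_mul ((hq x hx).trans q1.le) (hC _ (S.h_le hx hy.le)) (norm_nonneg _) zero_le_one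
    linarith [hC x hx]
  have sm : Summable fun k => ‖P.prodA k x y * b ((P.h y)^[k] x)‖ :=
    Summable.of_nonneg_of_le (fun _ => norm_nonneg _) (fun k => by
      rw [norm_mul]
      exact mul_le_mul (pk k) (hb _ (S.z_le k hx hy.le)) (norm_nonneg _) (by positivity))
      ((summable_geometric_of_lt_one q0 q1).mul_right (2 * C))
  rw [hasSum_iff_tendsto_nat_of_summable_norm sm]
  simp only [S.iter_eq hy.le hF hx]
  have : Tendsto (fun n => P.prodA n x y * F ((P.h y)^[n] x)) atTop (𝓝 0) := by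
    refine squeeze_zero_norm (a := fun n => q ^ n * C) (fun n => ?_) ?_
    · rw [norm_mul]
      exact mul_le_mul (pk n) (hC _ (S.z_le n hx hy.le)) (norm_nonneg _) (by positivity)
    · simpa using (tendsto_pow_atTop_nhds_zero_of_lt_one q0 q1).mul_const C
  simpa using this.const_sub (F x)

end Setup

end Pool.Agent.P.MP_386d8e_pr
end

-- part Pool.Agent.P.MP_386d8e_pr.Mono
section

set_option autoImplicit false

open MeasureTheory Filter Topology

namespace Pool.Agent.P.MP_386d8e_pr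

namespace Setup

variable {P : Model} {S : Setup P} (T : S.Stable)

theorem Stable.m1_nonneg : 0 ≤ T.m1 := T.h1.nonneg fun n => mul_nonneg (Nat.cast_nonneg n) (S.B1.nonneg n)
theorem Stable.m2_nonneg : 0 ≤ T.m2 := T.h2.nonneg fun n => mul_nonneg (Nat.cast_nonneg n) (S.B2.nonneg n)
theorem Stable.n1_nonneg : 0 ≤ T.n1 := T.k1.nonneg fun n => mul_nonneg (Nat.cast_nonneg n) (S.S1.nonneg n)
theorem Stable.n2_nonneg : 0 ≤ T.n2 := T.k2.nonneg fun n => mul_nonneg (Nat.cast_nonneg n) (S.S2.nonneg n)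

theorem Stable.rho_nonneg : 0 ≤ S.α * T.m1 := mul_nonneg S.hα.le T.m1_nonneg

theorem Stable.rho_lt : S.α * T.m1 < 1 := by
  have := mul_nonneg S.hβ.le (add_nonneg (add_nonneg T.n1_nonneg T.n2_nonneg) T.m2_nonneg)
  linarith [T.st]

theorem z_one (S : Setup P) (k : ℕ) : (P.h 1)^[k] 1 = 1 := by
  refine Function.iterate_fixed ?_ k
  have : (S.α : ℂ) + S.β = 1 := by exact_mod_cast S.hαβ
  rw [S.h_eq, mul_one, mul_one, this, S.B1.one]

theorem Stable.W_step (k : ℕ) :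
    W (2 * (S.α * T.m1) ^ k) fun x y => (P.h y)^[k + 1] x - (P.h y)^[k] x := by
  induction k with
  | zero => exact ((S.W_z 1).sub (S.W_z 0)).mono (by norm_num)
  | succ k ih =>
    have := S.B1.comp_sub T.h1 (S.lin (S.W_z (k + 1))) (S.lin (S.W_z k)) (S.lin_sub ih)
    refine (this.congr fun x y _ _ => ?_).mono (le_of_eq (by ring))
    rw [← S.h_eq, ← S.h_eq, ← Function.iterate_succ_apply' (P.h y),
      ← Function.iterate_succ_apply' (P.h y)]

theorem Stable.exists_pi : ∃ (π : ℂ → ℂ → ℂ) (c : ℝ), W 1 π ∧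
    (∀ k, W (c * (S.α * T.m1) ^ k) fun x y => (P.h y)^[k] x - π x y) ∧ π 1 1 = 1 ∧
    ∀ x y : ℂ, ‖x‖ ≤ 1 → ‖y‖ ≤ 1 → P.h y (π x y) = π x y ∧ π (P.h y x) y = π x y := by
  have ρ0 := T.rho_nonneg
  have ρ1 := T.rho_lt
  set ρ := S.α * T.m1 with hρ
  have g := hasSum_geometric_of_lt_one ρ0 ρ1
  let π : ℂ → ℂ → ℂ := fun x y => x + ∑' k, ((P.h y)^[k + 1] x - (P.h y)^[k] x)
  have h1 : ∀ k, W (2 * (1 - ρ)⁻¹ * ρ ^ k) fun x y => (P.h y)^[k] x - π x y := by
    intro k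
    have a1 := (W.tsum (fun j => T.W_step (j + k))
      (hs_congr (g.mul_left (2 * ρ ^ k)) (fun j => by rw [← hρ]; ring) rfl)).neg
    refine (a1.congr fun x y hx hy => ?_).mono (le_of_eq (by ring))
    have a2 := (W.summable T.W_step (g.summable.mul_left 2) hx hy).sum_add_tsum_nat_add k
    rw [Finset.sum_range_sub (fun j => (P.h y)^[j] x)] at a2
    simp only [π, ← a2, Function.iterate_zero_apply]
    ring
  have t0 : Tendsto (fun k => 2 * (1 - ρ)⁻¹ * ρ ^ k) atTop (𝓝 0) := by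
    simpa using (tendsto_pow_atTop_nhds_zero_of_lt_one ρ0 ρ1).const_mul (2 * (1 - ρ)⁻¹)
  have h2 : W 1 π := W.of_forall_gt fun ε hε => by
    obtain ⟨k, hk⟩ := (t0.eventually (gt_mem_nhds hε)).exists
    exact (((S.W_z k).sub (h1 k)).congr fun _ _ _ _ => by ring).mono (by linarith)
  have h3 : ∀ x y : ℂ, ‖x‖ ≤ 1 → ‖y‖ ≤ 1 → Tendsto (fun k => (P.h y)^[k] x) atTop (𝓝 (π x y)) :=
    fun x y hx hy => tendsto_sub_nhds_zero_iff.1 (squeeze_zero_norm (fun k => (h1 k).bound hx hy) t0)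
  refine ⟨π, _, h2, h1, ?_, fun x y hx hy => ⟨?_, ?_⟩⟩
  · simp only [π, S.z_one, sub_self, tsum_zero, add_zero]
  · have a1 := (S.W_h W.fst).tendsto (v := fun _ => y) (fun k => S.z_le k hx hy) (fun _ => hy)
      (h3 x y hx hy) tendsto_const_nhds
    simp only [← Function.iterate_succ_apply' (P.h y)] at a1
    exact tendsto_nhds_unique a1 ((h3 x y hx hy).comp (tendsto_add_atTop_nat 1))
  · exact tendsto_nhds_unique (h3 _ y (S.h_le hx hy) hy)
      ((h3 x y hx hy).comp (tendsto_add_atTop_nat 1))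

theorem Stable.exists_H {π : ℂ → ℂ → ℂ} (hπ : W 1 π)
    (hfix : ∀ x y : ℂ, ‖x‖ ≤ 1 → ‖y‖ ≤ 1 → P.h y (π x y) = π x y) :
    ∃ (H : ℂ → ℂ → ℂ) (C : ℝ), W C (fun x y => H (π x y) y) ∧
      H 1 1 * ((1 - S.α * T.m1 - S.β * (T.n1 + T.n2 + T.m2) : ℝ) : ℂ) =
        ((1 - S.α * T.m1 - S.β * T.m2 : ℝ) : ℂ) ∧
      ∀ x y : ℂ, ‖x‖ ≤ 1 → ‖y‖ ≤ 1 → H (π x y) y * (y - S.a (π x y) y) = S.bb (π x y) y := by
  obtain ⟨g1, g1a, g1b, -, g1c⟩ := S.B1.exists_tilde T.h1
  obtain ⟨g2, g2a, g2b, -, g2c⟩ := S.B2.exists_tilde T.h2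
  obtain ⟨t1, t1a, t1b, -, t1c⟩ := S.S1.exists_tilde T.k1
  obtain ⟨t2, t2a, t2b, -, t2c⟩ := S.S2.exists_tilde T.k2
  have hl := S.lin hπ
  have nα : ‖(S.α : ℂ)‖ = S.α := by rw [Complex.norm_real, Real.norm_of_nonneg S.hα.le]
  have nβ : ‖(S.β : ℂ)‖ = S.β := by rw [Complex.norm_real, Real.norm_of_nonneg S.hβ.le]
  let E : ℂ → ℂ := fun z => S.α * g1 z + S.β * (t1 z + S.s1 z * t2 z + S.s1 z * (S.s2 z * g2 z))
  have hE : W (S.α * T.m1 + S.β * (T.n1 + T.n2 + T.m2)) fun x y => E (S.α * π x y + S.β * y) := by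
    have := ((g1c _ hl).cmul S.α).add (((((t1c _ hl).add ((S.S1.comp hl).mul1 (t2c _ hl))).add
      ((S.S1.comp hl).mul1 ((S.S2.comp hl).mul1 (g2c _ hl))))).cmul S.β)
    rwa [nα, nβ] at this
  have hαβ : (S.α : ℂ) + S.β = 1 := by exact_mod_cast S.hαβ
  refine ⟨fun p y => S.s2 (S.α * p + S.β * y) *
    ((1 - S.α * g1 (S.α * p + S.β * y) - S.β * g2 (S.α * p + S.β * y)) *
      (1 - E (S.α * p + S.β * y))⁻¹), _, (S.S2.comp hl).mul1
      (((W.one.sub ((g1c _ hl).cmul S.α)).sub ((g2c _ hl).cmul S.β)).mul (hE.inv_one_sub T.st)),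
      ?_, fun x y hx hy => ?_⟩
  · have e : (1 - E 1) = ((1 - S.α * T.m1 - S.β * (T.n1 + T.n2 + T.m2) : ℝ) : ℂ) := by
      simp only [E, g1b, g2b, t1b, t2b, S.S1.one, S.S2.one]
      push_cast
      ring
    have e0 : ((1 - S.α * T.m1 - S.β * (T.n1 + T.n2 + T.m2) : ℝ) : ℂ) ≠ 0 := by
      have : 1 - S.α * T.m1 - S.β * (T.n1 + T.n2 + T.m2) ≠ 0 := by linarith [T.st]
      exact_mod_cast this
    simp only [mul_one, hαβ, S.S2.one, one_mul, e, g1b, g2b]
    rw [mul_assoc, inv_mul_cancel₀ e0]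
    push_cast
    ring
  · have a0 := hl.bound hx hy
    have e0 : 1 - E (S.α * π x y + S.β * y) ≠ 0 := by
      intro h
      have b1 := lt_of_le_of_lt (hE.bound hx hy) T.st
      have : E (S.α * π x y + S.β * y) = 1 := by linear_combination -h
      simp [this] at b1
    have a1 := g1a _ a0
    have a2 := g2a _ a0
    have a3 := t1a _ a0
    have a4 := t2a _ a0
    rw [← S.h_eq, hfix x y hx hy] at a1
    simp only [Setup.a, Setup.bb]
    set l := (S.α * π x y + S.β * y : ℂ) with hl'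
    have β0 : (S.β : ℂ) ≠ 0 := by exact_mod_cast S.hβ.ne'
    have i1 : S.β * (y - S.s1 l * S.s2 l * S.b2 l) = -((1 - l) * (1 - E l)) := by
      simp only [E]
      linear_combination S.α * a1 + S.β * a3 + S.β * S.s1 l * a4 + S.β * S.s1 l * S.s2 l * a2 - hl' - hαβ
    have i2 : S.β * (y - S.b2 l) = -((1 - l) * (1 - S.α * g1 l - S.β * g2 l)) := by
      linear_combination S.α * a1 + S.β * a2 - hl' - hαβ
    refine mul_left_cancel₀ β0 ?_
    have i3 : (1 - E l)⁻¹ * (1 - E l) = 1 := inv_mul_cancel₀ e0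
    linear_combination S.s2 l * ((1 - S.α * g1 l - S.β * g2 l) * (1 - E l)⁻¹) * i1 - S.s2 l * i2 -
      S.s2 l * (1 - l) * (1 - S.α * g1 l - S.β * g2 l) * i3

/-- the solution for a monomial is an absolutely convergent Laurent series -/
theorem Stable.exists_mono {r : ℝ} (r0 : S.α * T.m1 < r) (r1 : r ≤ 1) :
    ∃ C : ℝ, ∀ j : ℕ, ∃ (c : ℕ × ℤ → ℂ) (F : ℂ → ℂ → ℂ), Lr r (C * (1 + j)) c F ∧
      F 1 1 * ((1 - S.α * T.m1 - S.β * (T.n1 + T.n2 + T.m2) : ℝ) : ℂ) =
        ((1 - S.α * T.m1 - S.β * T.m2 : ℝ) : ℂ) ∧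
      ∀ x y : ℂ, ‖x‖ ≤ 1 → ‖y‖ = 1 → F x y = P.A x y * F (P.h y x) y + P.B x y * x ^ j := by
  obtain ⟨π, c, hπ, hc, π1, hfix⟩ := T.exists_pi
  obtain ⟨H, CH, hH, H1, hid⟩ := T.exists_H hπ fun x y hx hy => (hfix x y hx hy).1
  have ρ0 := T.rho_nonneg
  set ρ := S.α * T.m1 with hρ
  have rp : 0 < r := lt_of_le_of_lt ρ0 r0
  obtain ⟨Ca, La⟩ : ∃ C, Lip C S.a :=
    ⟨_, ((S.lipPG S.S1 T.k1).mul (S.lipPG S.S2 T.k2)).mul (S.lipPG S.B2 T.h2)⟩
  obtain ⟨Cb, Lb⟩ : ∃ C, Lip C S.bb := ⟨_, (S.lipPG S.S2 T.k2).mul (Lip.snd.sub (S.lipPG S.B2 T.h2))⟩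
  have c0 : 0 ≤ c := by simpa using (hc 0).nonneg
  have Ca0 : 0 ≤ Ca := (La.bd _ W.fst).nonneg
  have Cb0 : 0 ≤ Cb := (Lb.bd _ W.fst).nonneg
  have CH0 := hH.nonneg
  have q0 : 0 ≤ ρ * r⁻¹ := by positivity
  have q1 : ρ * r⁻¹ < 1 := by rw [← div_eq_mul_inv, div_lt_one rp]; exact r0
  set D := (Ca * CH + 2 * Cb) * c with hD
  have D0 : 0 ≤ D := by positivity
  refine ⟨CH + D * r⁻¹ * (1 - ρ * r⁻¹)⁻¹, fun j => ?_⟩
  have j0 : (0 : ℝ) ≤ j := Nat.cast_nonneg j
  let G : ℂ → ℂ → ℂ := fun x y => H (π x y) y * π x y ^ j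
  have hG : W CH G := by simpa using hH.mul (hπ.pow1 j)
  let U : ℕ → ℂ → ℂ → ℂ := fun k x y => (∏ i ∈ Finset.range k, S.a ((P.h y)^[i] x) y) *
    ((S.a ((P.h y)^[k] x) y - S.a (π x y) y) * G x y +
      (S.bb ((P.h y)^[k] x) y * ((P.h y)^[k] x) ^ j - S.bb (π x y) y * π x y ^ j))
  have hU : ∀ k, W (D * (1 + j) * ρ ^ k) (U k) := by
    intro k
    refine ((W.prod1 (fun i => S.W_a (S.W_z i)) k).mul1
      (((La.lip _ _ _ (S.W_z k) hπ (hc k)).mul hG).add
        ((Lb.mul (Lip.pow j)).lip _ _ _ (S.W_z k) hπ (hc k)))).mono ?_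
    have : 0 ≤ Ca * CH * c * ρ ^ k * j := by positivity
    rw [hD]
    nlinarith
  let V : ℕ → ℂ → ℂ → ℂ := fun k => Nat.casesOn k G U
  let E : ℕ → ℝ := fun k => Nat.casesOn k (CH * (1 + j)) fun k => D * (1 + j) * ρ ^ k
  have hV : ∀ k, W (E k) (V k) := fun k => by
    cases k with
    | zero => exact hG.mono (by simp only [E, Nat.rec_zero]; nlinarith)
    | succ k => exact hU k
  have hE : HasSum (fun k => E k * r⁻¹ ^ k) ((CH + D * r⁻¹ * (1 - ρ * r⁻¹)⁻¹) * (1 + j)) := by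
    rw [← hasSum_nat_add_iff' 1]
    refine hs_congr ((hasSum_geometric_of_lt_one q0 q1).mul_left (D * (1 + j) * r⁻¹))
      (fun k => ?_) ?_
    · simp only [E, mul_pow, pow_succ]; ring
    · simp only [E, Finset.sum_range_one, Nat.rec_zero]; ring
  obtain ⟨d, hd⟩ := laurent_of hV rp r1 hE
  have sU : ∀ x y : ℂ, ‖x‖ ≤ 1 → ‖y‖ = 1 → Summable fun k => U k x y / y ^ (k + 1) := by
    intro x y hx hy
    refine Summable.of_norm_bounded ((summable_geometric_of_lt_one ρ0 T.rho_lt).mul_left (D * (1 + j)))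
      fun k => ?_
    rw [norm_div, norm_pow, hy, one_pow, div_one]
    exact (hU k).bound hx hy.le
  have sV : ∀ x y : ℂ, ‖x‖ ≤ 1 → ‖y‖ = 1 →
      ∑' k, V k x y / y ^ k = G x y + ∑' k, U k x y / y ^ (k + 1) := by
    intro x y hx hy
    have : Summable fun k => V k x y / y ^ k :=
      (summable_nat_add_iff (f := fun k => V k x y / y ^ k) 1).1 (sU x y hx hy)
    rw [this.tsum_eq_zero_add, pow_zero, div_one]
    rfl
  refine ⟨d, _, hd, ?_, fun x y hx hy => ?_⟩
  · rw [sV 1 1 (by simp) (by simp)]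
    simp only [U, G, S.z_one, π1, sub_self, zero_mul, add_zero, mul_zero, zero_div, tsum_zero, one_pow,
      mul_one]
    exact H1
  · have y0 : y ≠ 0 := fun h => by simp [h] at hy
    have hx' := S.h_le hx hy.le
    rw [sV x y hx hy, sV _ y hx' hy, (sU x y hx hy).tsum_eq_zero_add, mul_add, ← tsum_mul_left]
    have e1 : ∀ k, U (k + 1) x y / y ^ (k + 1 + 1) = P.A x y * (U k (P.h y x) y / y ^ (k + 1)) := by
      intro k
      simp only [U, G, S.A_eq, Finset.prod_range_succ', Function.iterate_succ_apply,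
        Function.iterate_zero_apply, (hfix x y hx hy.le).2]
      field_simp
      ring
    simp only [e1]
    have e2 := hid x y hx hy.le
    simp only [U, G, S.A_eq, S.B_eq _ y0, (hfix x y hx hy.le).2, Finset.prod_range_zero,
      Function.iterate_zero_apply, zero_add, pow_one, one_mul]
    field_simp
    linear_combination π x y ^ j * e2

end Setup

end Pool.Agent.P.MP_386d8e_pr
end

-- part Pool.Agent.P.MP_386d8e_pr.Chain
section

set_option autoImplicit false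

open Filter Topology

namespace Pool.Agent.P.MP_386d8e_pr

section
variable {S : Type*} {k : S → S → ℝ} (hk0 : ∀ s t, 0 ≤ k s t) (hk1 : ∀ s, HasSum (k s) 1)
include hk0 hk1

theorem k_le_one (s t : S) : k s t ≤ 1 := le_hasSum (hk1 s) t fun u _ => hk0 s u

theorem summable_mk {m : S → ℝ} (hm : Summable fun s => |m s|) (t : S) :
    Summable fun s => m s * k s t := by
  refine Summable.of_norm_bounded hm fun s => ?_
  rw [Real.norm_eq_abs, abs_mul, abs_of_nonneg (hk0 s t)]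
  exact mul_le_of_le_one_right (abs_nonneg _) (k_le_one hk0 hk1 s t)

theorem summable_ck {c : S → ℂ} (hc : Summable fun s => ‖c s‖) (t : S) :
    Summable fun s => ‖c s * (k s t : ℂ)‖ := by
  refine Summable.of_nonneg_of_le (fun _ => norm_nonneg _) (fun s => ?_) hc
  rw [norm_mul, Complex.norm_real, Real.norm_of_nonneg (hk0 s t)]
  exact mul_le_of_le_one_right (norm_nonneg _) (k_le_one hk0 hk1 s t)

theorem inv_of_le {m : S → ℝ} (hm0 : ∀ s, 0 ≤ m s) (hm : Summable m)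
    (hle : ∀ t, m t ≤ ∑' s, m s * k s t) (t : S) : m t = ∑' s, m s * k s t := by
  have h1 := swap_sum m k (fun _ => 1) (fun _ => 1) hm0 hk0 (fun _ => zero_le_one)
    (fun s => by simpa using hk1 s) (by simpa using hm)
  simp only [mul_one] at h1
  have h2 := h1.sub hm.hasSum
  rw [sub_self] at h2
  have h3 := le_hasSum h2 t fun u _ => sub_nonneg.2 (hle u)
  linarith [hle t]

theorem norm_ck_le {c : S → ℂ} (hc : Summable fun s => ‖c s‖) (t : S) :
    ‖∑' s, c s * (k s t : ℂ)‖ ≤ ∑' s, ‖c s‖ * k s t := by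
  refine (norm_tsum_le_tsum_norm (summable_ck hk0 hk1 hc t)).trans (le_of_eq ?_)
  refine tsum_congr fun s => ?_
  rw [norm_mul, Complex.norm_real, Real.norm_of_nonneg (hk0 s t)]

theorem re_ck {c : S → ℂ} (hc : Summable fun s => ‖c s‖) (u : ℂ) (t : S) :
    (u * ∑' s, c s * (k s t : ℂ)).re = ∑' s, (u * c s).re * k s t := by
  rw [← tsum_mul_left, Complex.re_tsum ((summable_ck hk0 hk1 hc t).of_norm.mul_left u)]
  refine tsum_congr fun s => ?_
  rw [← mul_assoc, Complex.re_mul_ofReal]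

theorem kill {neg : S → Prop} {f : S → ℝ} {l : ℝ} (hf : ∀ s, 0 < f s) (hl : 1 < l)
    (hkf : ∀ s, neg s → HasSum (fun t => k s t * f t) (l * f s))
    {m : S → ℝ} (hm0 : ∀ s, 0 ≤ m s) (hm : Summable m) (hmf : Summable fun s => m s * f s)
    (hoff : ∀ s, ¬ neg s → m s = 0) (hle : ∀ t, neg t → m t ≤ ∑' s, m s * k s t) (t : S) :
    m t = 0 := by
  classical
  have h1 : ∀ t, m t = ∑' s, m s * k s t := by
    refine inv_of_le hk0 hk1 hm0 hm fun t => ?_
    by_cases ht : neg t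
    · exact hle t ht
    · rw [hoff t ht]
      exact tsum_nonneg fun s => mul_nonneg (hm0 s) (hk0 s t)
  have e1 : ∀ s, m s * (if neg s then l * f s else 0) = l * (m s * f s) := by
    intro s
    split_ifs with hs
    · ring
    · simp [hoff s hs]
  have h2 := swap_sum m (fun s t => if neg s then k s t else 0) f
    (fun s => if neg s then l * f s else 0) hm0 (fun s t => by split_ifs; exacts [hk0 s t, le_rfl])
    (fun t => (hf t).le) (fun s => by
      split_ifs with hs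
      · exact hkf s hs
      · simpa using hasSum_zero) (by simpa only [e1] using hmf.mul_left l)
  have e2 : ∀ t, (∑' s, m s * if neg s then k s t else 0) = m t := by
    intro t
    rw [h1 t]
    refine tsum_congr fun s => ?_
    split_ifs with hs
    · rfl
    · simp [hoff s hs]
  simp only [e1, e2, tsum_mul_left] at h2
  have h3 := h2.tsum_eq
  have h4 : 0 ≤ ∑' s, m s * f s := tsum_nonneg fun s => mul_nonneg (hm0 s) (hf s).le
  have h5 : ∑' s, m s * f s = 0 := by nlinarith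
  have h6 := hmf.le_tsum t fun s _ => mul_nonneg (hm0 s) (hf s).le
  rw [h5] at h6
  have := hf t
  have := hm0 t
  nlinarith

theorem chain_zero {neg : S → Prop} {f : S → ℝ} {l : ℝ} (hf : ∀ s, 0 < f s) (hl : 1 < l)
    (hkf : ∀ s, neg s → HasSum (fun t => k s t * f t) (l * f s))
    (hf1 : ∀ s, ¬ neg s → f s ≤ 1) (hcl : ∀ s t, ¬ neg s → neg t → k s t = 0)
    {μ : S → ℝ} (hμ : ∀ t, neg t → 0 ≤ μ t) {t0 : S} (ht0 : neg t0) (hμ0 : 0 < μ t0) (hft0 : 1 < f t0)
    {s0 : S} (hacc : ∀ s, ¬ neg s → Relation.ReflTransGen (fun s t => 0 < k s t) s s0)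
    {c : S → ℂ} {e : ℂ} (hc : Summable fun s => ‖c s‖) (hcf : Summable fun s => ‖c s‖ * f s)
    (heq : ∀ t, c t = ∑' s, c s * (k s t : ℂ) + e * μ t) (hsum : HasSum c 0) :
    e = 0 ∧ ∀ s, c s = 0 := by
  classical
  set ν : S → ℂ := fun s => if neg s then c s else 0 with hν
  have hνle : ∀ s, ‖ν s‖ ≤ ‖c s‖ := fun s => by simp only [hν]; split_ifs <;> simp
  have hν1 : Summable fun s => ‖ν s‖ := Summable.of_nonneg_of_le (fun _ => norm_nonneg _) hνle hc
  have hν2 : Summable fun s => ‖ν s‖ * f s := Summable.of_nonneg_of_le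
    (fun s => mul_nonneg (norm_nonneg _) (hf s).le)
    (fun s => mul_le_mul_of_nonneg_right (hνle s) (hf s).le) hcf
  have hoff : ∀ s, ¬ neg s → ν s = 0 := fun s hs => by simp [hν, hs]
  have hνeq : ∀ t, neg t → ν t = ∑' s, ν s * (k s t : ℂ) + e * μ t := by
    intro t ht
    have : ν t = c t := by simp [hν, ht]
    rw [this, heq t]
    congr 1
    refine tsum_congr fun s => ?_
    by_cases hs : neg s
    · simp [hν, hs]
    · simp [hν, hs, hcl s t hs ht]
  have gen : ∀ (d : S → ℂ) (u : ℂ), ‖u‖ = 1 → (Summable fun s => ‖d s‖) →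
      (∀ s, |(u * d s).re| ≤ ‖d s‖) ∧ (Summable fun s => (u * d s).re) ∧
      ∀ t, ∑' s, (‖d s‖ - (u * d s).re) * k s t = ∑' s, ‖d s‖ * k s t - ∑' s, (u * d s).re * k s t := by
    intro d u hu hd
    have a1 : ∀ s, |(u * d s).re| ≤ ‖d s‖ := fun s =>
      (Complex.abs_re_le_norm _).trans (by rw [norm_mul, hu, one_mul])
    have a2 : Summable fun s => |(u * d s).re| :=
      Summable.of_nonneg_of_le (fun _ => abs_nonneg _) a1 hd
    refine ⟨a1, a2.of_abs, fun t => ?_⟩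
    rw [← Summable.tsum_sub (summable_mk hk0 hk1 (by simpa using hd) t) (summable_mk hk0 hk1 a2 t)]
    exact tsum_congr fun s => by ring
  obtain ⟨u, hu, hue⟩ := Complex.exists_norm_eq_mul_self e
  obtain ⟨a1, a2, a3⟩ := gen ν u hu hν1
  have hre : ∀ t, neg t → (u * ν t).re = ∑' s, (u * ν s).re * k s t + ‖e‖ * μ t := by
    intro t ht
    rw [hνeq t ht, mul_add, Complex.add_re, re_ck hk0 hk1 hν1, ← mul_assoc, ← hue]
    simp
  have hm : ∀ t, ‖ν t‖ - (u * ν t).re = 0 := by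
    refine kill hk0 hk1 hf hl hkf (fun s => sub_nonneg.2 ((le_abs_self _).trans (a1 s))) (hν1.sub a2)
      ?_ (fun s hs => by simp [hoff s hs]) ?_
    · refine Summable.of_nonneg_of_le
        (fun s => mul_nonneg (sub_nonneg.2 ((le_abs_self _).trans (a1 s))) (hf s).le)
        (fun s => ?_) (hν2.mul_left 2)
      have := neg_abs_le (u * ν s).re
      have := a1 s
      have := hf s
      nlinarith
    · intro t ht
      rw [a3, hre t ht]
      have b1 : ‖ν t‖ ≤ ∑' s, ‖ν s‖ * k s t + ‖e‖ * μ t := by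
        rw [hνeq t ht]
        refine (norm_add_le _ _).trans (add_le_add (norm_ck_le hk0 hk1 hν1 t) (le_of_eq ?_))
        rw [norm_mul, Complex.norm_real, Real.norm_of_nonneg (hμ t ht)]
      linarith
  have hm' : ∀ t, (u * ν t).re = ‖ν t‖ := fun t => by linarith [hm t]
  simp only [hm'] at hre
  have he : e = 0 := by
    set g : S → ℝ := fun s => max (f s - 1) 0 with hg
    have g0 : ∀ s, 0 ≤ g s := fun s => le_max_right _ _
    have gf : ∀ s, g s ≤ f s := fun s => max_le (by linarith) (hf s).le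
    have gs : ∀ s, neg s → Summable fun t => k s t * g t := fun s hs =>
      Summable.of_nonneg_of_le (fun t => mul_nonneg (hk0 s t) (g0 t))
        (fun t => mul_le_mul_of_nonneg_left (gf t) (hk0 s t)) (hkf s hs).summable
    set g' : S → ℝ := fun s => if neg s then ∑' t, k s t * g t else 0 with hg'
    have g'le : ∀ s, g' s ≤ l * f s := by
      intro s
      simp only [hg']
      split_ifs with hs
      · rw [← (hkf s hs).tsum_eq]
        exact (gs s hs).tsum_le_tsum (fun t => mul_le_mul_of_nonneg_left (gf t) (hk0 s t))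
          (hkf s hs).summable
      · exact mul_nonneg (by linarith) (hf s).le
    have g'0 : ∀ s, 0 ≤ g' s := by
      intro s
      simp only [hg']
      split_ifs with hs
      · exact tsum_nonneg fun t => mul_nonneg (hk0 s t) (g0 t)
      · exact le_rfl
    have g'ge : ∀ s, ‖ν s‖ * g s ≤ ‖ν s‖ * g' s := by
      intro s
      by_cases hs : neg s
      · refine mul_le_mul_of_nonneg_left (max_le ?_ (g'0 s)) (norm_nonneg _)
        have b1 := (hkf s hs).sub (hk1 s)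
        have b2 : l * f s - 1 ≤ ∑' t, k s t * g t := by
          refine hasSum_le (fun t => ?_) b1 (gs s hs).hasSum
          have := mul_le_mul_of_nonneg_left (le_max_left (f t - 1) 0) (hk0 s t)
          simp only [hg]
          linarith
        simp only [hg', if_pos hs]
        have := hf s
        nlinarith
      · simp [hoff s hs]
    have s1 : Summable fun s => ‖ν s‖ * g' s := Summable.of_nonneg_of_le
      (fun s => mul_nonneg (norm_nonneg _) (g'0 s))
      (fun s => by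
        have := mul_le_mul_of_nonneg_left (g'le s) (norm_nonneg (ν s))
        linarith) (hν2.mul_left l)
    have s2 : Summable fun s => ‖ν s‖ * g s := Summable.of_nonneg_of_le
      (fun s => mul_nonneg (norm_nonneg _) (g0 s)) g'ge s1
    have h2 := swap_sum (fun s => ‖ν s‖) (fun s t => if neg s then k s t else 0) g g'
      (fun _ => norm_nonneg _) (fun s t => by split_ifs; exacts [hk0 s t, le_rfl]) g0 (fun s => by
        simp only [hg']
        split_ifs with hs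
        · exact (gs s hs).hasSum
        · simpa using hasSum_zero) s1
    have e2 : ∀ t, (∑' s, ‖ν s‖ * if neg s then k s t else 0) = ∑' s, ‖ν s‖ * k s t := by
      intro t
      refine tsum_congr fun s => ?_
      split_ifs with hs
      · rfl
      · simp [hoff s hs]
    simp only [e2] at h2
    have h3 := s2.hasSum.sub h2
    have h4 := le_hasSum h3 t0 (by
      intro t _
      by_cases ht : neg t
      · rw [hre t ht]
        have := mul_nonneg (mul_nonneg (norm_nonneg e) (hμ t ht)) (g0 t)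
        linarith
      · have : g t = 0 := max_eq_right (by linarith [hf1 t ht])
        simp [this])
    have h5 := s2.tsum_le_tsum g'ge s1
    rw [hre t0 ht0] at h4
    have h6 : g t0 = f t0 - 1 := max_eq_left (by linarith)
    have h7 : ‖e‖ * (μ t0 * g t0) ≤ 0 := by linarith
    have h8 : 0 < μ t0 * g t0 := mul_pos hμ0 (by linarith)
    have h9 : ‖e‖ ≤ 0 := by
      by_contra hc'
      push Not at hc'
      have := mul_pos hc' h8
      linarith
    exact norm_le_zero_iff.1 h9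
  refine ⟨he, ?_⟩
  have hν0 : ∀ t, ‖ν t‖ = 0 :=
    kill hk0 hk1 hf hl hkf (fun _ => norm_nonneg _) hν1 hν2 (fun s hs => by simp [hoff s hs])
      (fun t ht => by rw [hre t ht, he]; simp)
  have hc0 : ∀ t, neg t → c t = 0 := fun t ht => by simpa [hν, ht] using hν0 t
  simp only [he, zero_mul, add_zero] at heq
  obtain ⟨v, hv, hve⟩ := Complex.exists_norm_eq_mul_self (c s0)
  obtain ⟨b1, b2, b3⟩ := gen c v hv hc
  have n1 : ∀ t, ‖c t‖ = ∑' s, ‖c s‖ * k s t :=
    inv_of_le hk0 hk1 (fun _ => norm_nonneg _) hc fun t => by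
      conv_lhs => rw [heq t]
      exact norm_ck_le hk0 hk1 hc t
  have m0 : ∀ s, 0 ≤ ‖c s‖ - (v * c s).re := fun s => sub_nonneg.2 ((le_abs_self _).trans (b1 s))
  have n2 : ∀ t, ‖c t‖ - (v * c t).re = ∑' s, (‖c s‖ - (v * c s).re) * k s t := by
    intro t
    rw [b3, ← n1, ← re_ck hk0 hk1 hc, ← heq]
  have n3 : ∀ s, Relation.ReflTransGen (fun s t => 0 < k s t) s s0 → ‖c s‖ - (v * c s).re = 0 := by
    intro s hs
    induction hs using Relation.ReflTransGen.head_induction_on with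
    | refl => rw [← hve]; simp
    | @head a b hab _ ih =>
      have := (summable_mk hk0 hk1 (hc.sub b2).abs b).le_tsum a
        fun s _ => mul_nonneg (m0 s) (hk0 s b)
      rw [← n2, ih] at this
      have := m0 a
      nlinarith
  have n4 : ∀ s, ‖c s‖ = (v * c s).re := by
    intro s
    by_cases hs : neg s
    · simp [hc0 s hs]
    · linarith [n3 s (hacc s hs)]
  have n5 : HasSum (fun s => ‖c s‖) 0 := by
    have := Complex.hasSum_re (hsum.mul_left v)
    simpa only [← n4, mul_zero, Complex.zero_re] using this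
  intro s
  exact norm_le_zero_iff.1 (le_hasSum n5 s fun _ _ => norm_nonneg _)

end

end Pool.Agent.P.MP_386d8e_pr
end

-- part Pool.Agent.P.MP_386d8e_pr.Core
section

set_option autoImplicit false

open MeasureTheory Filter Topology

namespace Pool.Agent.P.MP_386d8e_pr

theorem PG.zero {q : ℕ → ℝ} {f : ℂ → ℂ} (h : PG q f) : f 0 = q 0 := by
  refine (h.rep 0 (by simp)).unique ?_
  simpa using hasSum_single (f := fun n => (q n : ℂ) * 0 ^ n) 0 fun n hn => by simp [hn]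

theorem lev0_inj : Function.Injective fun i : ℕ => ((i, 0) : ℕ × ℤ) := fun _ _ h => (Prod.ext_iff.1 h).1

theorem lev0_hasSum {g : ℕ × ℤ → ℂ} {a : ℂ} :
    HasSum (fun i : ℕ => g (i, 0)) a ↔ HasSum (fun s => if s.2 = 0 then g s else 0) a := by
  rw [← lev0_inj.hasSum_iff (f := fun s : ℕ × ℤ => if s.2 = 0 then g s else 0)]
  · simp [Function.comp_def]
  · rintro ⟨i, j⟩ h
    rw [if_neg]
    rintro rfl
    exact h ⟨i, rfl⟩

theorem Lr.lev0 {r C : ℝ} {c : ℕ × ℤ → ℂ} {F : ℂ → ℂ → ℂ} (h : Lr r C c F) :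
    (Summable fun i : ℕ => ‖c (i, 0)‖) ∧ ∑' i : ℕ, ‖c (i, 0)‖ ≤ C :=
  ⟨h.sm'.comp_injective lev0_inj,
    (tsum_comp_le_tsum_of_inj h.sm' (fun _ => norm_nonneg _) lev0_inj).trans h.le'⟩

theorem Lr.avg {r C : ℝ} {c : ℕ × ℤ → ℂ} {F : ℂ → ℂ → ℂ} (h : Lr r C c F) {x : ℂ} (hx : ‖x‖ ≤ 1)
    {G : ℂ → ℂ} (hG : ∀ y : ℂ, ‖y‖ = 1 → y ≠ 1 → G y = F x y) :
    HasSum (fun i : ℕ => c (i, 0) * x ^ i) (Real.circleAverage G 0 1) := by
  refine (lev0_hasSum (g := fun s => c s * x ^ s.1)).2 (avg_sum (fun s => c s * x ^ s.1) ?_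
    (fun s => s.2) G fun y hy hy1 => ?_)
  · refine Summable.of_nonneg_of_le (fun _ => norm_nonneg _) (fun s => ?_) h.sm'
    rw [norm_mul, norm_pow]
    exact mul_le_of_le_one_right (norm_nonneg _) (pow_le_one₀ (norm_nonneg _) hx)
  · exact hs_congr (h.rep x y hx hy) (fun s => mul_assoc _ _ _) (hG y hy hy1)

theorem W.univ {C : ℝ} {f : ℂ → ℂ} (h : W C fun x _ => f x) :
    ∃ e : ℕ → ℂ, (∀ i, ‖e i‖ ≤ C) ∧ ∀ u : ℂ, ‖u‖ ≤ 1 → HasSum (fun i => e i * u ^ i) (f u) := by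
  obtain ⟨c, h1, h2, h3⟩ := h
  refine ⟨fun i => c (i, 0), fun i => (h1.le_tsum _ fun _ _ => norm_nonneg _).trans h2, fun u hu => ?_⟩
  have inj : Function.Injective fun i : ℕ => ((i, 0) : ℕ × ℕ) := fun _ _ h => (Prod.ext_iff.1 h).1
  have := (inj.hasSum_iff (f := fun s : ℕ × ℕ => c s * (u ^ s.1 * 0 ^ s.2)) (by
    rintro ⟨i, j⟩ h
    have : j ≠ 0 := by rintro rfl; exact h ⟨i, rfl⟩
    simp [this])).2 (h3 u 0 hu (by simp))
  simpa [Function.comp_def] using this

theorem sto {Φ : ℂ → ℂ → ℂ} (h : W 1 Φ) (h1 : Φ 1 1 = 1) (d : ℤ) :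
    ∃ k : ℕ × ℤ → ℝ, (∀ t, 0 ≤ k t) ∧ HasSum k 1 ∧ (∀ t, t.2 < d → k t = 0) ∧
      (k (0, d) : ℂ) = Φ 0 0 ∧ ∀ x y : ℂ, ‖x‖ ≤ 1 → ‖y‖ ≤ 1 → y ≠ 0 →
        HasSum (fun t => (k t : ℂ) * (x ^ t.1 * y ^ t.2)) (Φ x y * y ^ d) := by
  obtain ⟨φ, a1, a2, a3⟩ := h.pos h1
  let e : ℕ × ℕ → ℕ × ℤ := fun s => (s.1, s.2 + d)
  have inj : Function.Injective e := by
    rintro ⟨i, j⟩ ⟨i', j'⟩ h
    simp only [e, Prod.mk.injEq] at h ⊢
    omega
  have b1 : ∀ t, t ∉ Set.range e → Function.extend e φ 0 t = 0 := fun t ht =>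
    Function.extend_apply' _ _ _ ht
  have b2 : ∀ x y : ℂ, ‖x‖ ≤ 1 → ‖y‖ ≤ 1 → y ≠ 0 → HasSum
      (fun t => ((Function.extend e φ 0 t : ℝ) : ℂ) * (x ^ t.1 * y ^ t.2)) (Φ x y * y ^ d) := by
    intro x y hx hy y0
    rw [← inj.hasSum_iff fun t ht => by simp [b1 t ht]]
    refine hs_congr ((a3 x y hx hy).mul_right (y ^ d)) (fun s => ?_) rfl
    simp only [Function.comp, inj.extend_apply, e, zpow_add₀ y0, zpow_natCast]
    ring
  refine ⟨Function.extend e φ 0, fun t => ?_, ?_, fun t ht => b1 t ?_, ?_, b2⟩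
  · by_cases ht : t ∈ Set.range e
    · obtain ⟨s, rfl⟩ := ht
      rw [inj.extend_apply]
      exact a1 s
    · rw [b1 t ht]
  · simpa [h1] using Complex.hasSum_re (b2 1 1 (by simp) (by simp) one_ne_zero)
  · rintro ⟨s, rfl⟩
    simp only [e] at ht
    omega
  · have : ((0, d) : ℕ × ℤ) = e (0, 0) := by simp [e]
    rw [this, inj.extend_apply, a2]

theorem kernel_sum {S : Type*} {k : S → S → ℝ} (hk0 : ∀ s t, 0 ≤ k s t) (hk1 : ∀ s, HasSum (k s) 1)
    {c : S → ℂ} (hc : Summable fun s => ‖c s‖) {g G : S → ℂ} (hg : ∀ t, ‖g t‖ ≤ 1)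
    (hG : ∀ s, HasSum (fun t => (k s t : ℂ) * g t) (G s)) :
    (Summable fun s => c s * G s) ∧
      HasSum (fun t => (∑' s, c s * (k s t : ℂ)) * g t) (∑' s, c s * G s) := by
  have s1 : Summable fun p : S × S => ‖c p.1‖ * k p.1 p.2 :=
    (summable_prod_of_nonneg (f := fun p : S × S => ‖c p.1‖ * k p.1 p.2)
      fun p => mul_nonneg (norm_nonneg _) (hk0 _ _)).2
      ⟨fun s => (hk1 s).summable.mul_left ‖c s‖, by simpa only [tsum_mul_left, (hk1 _).tsum_eq, mul_one] using hc⟩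
  have s2 : Summable fun p : S × S => c p.1 * ((k p.1 p.2 : ℂ) * g p.2) :=
    Summable.of_norm_bounded s1 fun p => by
      rw [norm_mul, norm_mul, Complex.norm_real, Real.norm_of_nonneg (hk0 _ _)]
      exact mul_le_mul_of_nonneg_left (mul_le_of_le_one_right (hk0 _ _) (hg _)) (norm_nonneg _)
  have s3 := s2.hasSum.prod_fiberwise fun s => (hG s).mul_left (c s)
  have s4 : HasSum (fun p : S × S => c p.2 * ((k p.2 p.1 : ℂ) * g p.1)) (∑' s, c s * G s) := by
    rw [s3.tsum_eq]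
    exact (Equiv.prodComm S S).hasSum_iff.2 s2.hasSum
  refine ⟨s3.summable, s4.prod_fiberwise fun t => ?_⟩
  refine hs_congr (s4.summable.prod_factor t).hasSum (fun _ => rfl) ?_
  rw [← tsum_mul_right]
  exact tsum_congr fun s => by ring

namespace Setup

variable {P : Model} (S : Setup P)

include S in
theorem ser_eq {r C : ℝ} {c : ℕ × ℤ → ℂ} {F : ℂ → ℂ → ℂ} (h : Lr r C c F) {K : ℂ → ℂ}
    (hF : ∀ x y : ℂ, ‖x‖ ≤ 1 → ‖y‖ = 1 → F x y = P.A x y * F (P.h y x) y + P.B x y * K x)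
    {x y : ℂ} (hx : ‖x‖ ≤ 1) (hy : ‖y‖ = 1) (hy1 : y ≠ 1) : P.ser K x y = F x y :=
  (S.sol_unique hy hy1 (F := fun x => F x y) (b := fun x => P.B x y * K x)
    (fun _ hx => h.bound hx hy) (fun x hx => hF x y hx hy) hx).tsum_eq

theorem T_eq {r C : ℝ} {c : ℕ × ℤ → ℂ} {F : ℂ → ℂ → ℂ} (h : Lr r C c F) {K : ℂ → ℂ}
    (hF : ∀ x y : ℂ, ‖x‖ ≤ 1 → ‖y‖ = 1 → F x y = P.A x y * F (P.h y x) y + P.B x y * K x)
    {x : ℂ} (hx : ‖S.α * x‖ ≤ 1) :
    HasSum (fun i : ℕ => c (i, 0) * (S.s1 (S.α * x) * S.b1 (S.α * x) ^ i)) (P.T K x) := by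
  have h0 : P.h 0 x = S.b1 (S.α * x) := by rw [S.h_eq, mul_zero, add_zero]
  have h1 := S.B1.norm_le hx
  have := (h.avg h1 fun y hy hy1 => S.ser_eq h hF h1 hy hy1).mul_left (S.s1 (S.α * x))
  refine hs_congr this (fun i => by ring) ?_
  rw [Model.T, S.es1, h0, mul_zero, add_zero]

theorem α_lt : S.α < 1 := by linarith [S.hαβ, S.hβ]

theorem αx_le {x : ℂ} (hx : ‖x‖ ≤ 1) : ‖S.α * x‖ ≤ 1 := by
  rw [norm_mul, Complex.norm_real, Real.norm_of_nonneg S.hα.le]
  exact mul_le_one₀ S.α_lt.le (norm_nonneg _) hx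

theorem scale {C : ℝ} {d : ℕ → ℂ} (hd : Summable fun i => ‖d i‖) (hC : ∑' i, ‖d i‖ ≤ C) {f : ℂ → ℂ}
    (hf : ∀ x : ℂ, ‖x‖ ≤ 1 →
      HasSum (fun i : ℕ => d i * (S.s1 (S.α * x) * S.b1 (S.α * x) ^ i)) (f x)) :
    ∃ e : ℕ → ℂ, (∀ i, ‖e i‖ ≤ C * S.α ^ i) ∧
      ∀ x : ℂ, ‖x‖ ≤ 1 → HasSum (fun i => e i * x ^ i) (f x) := by
  have a1 : ∀ i, W ‖d i‖ fun u _ => d i * (S.s1 u * S.b1 u ^ i) := fun i => by
    simpa using ((S.S1.comp W.fst).mul1 ((S.B1.comp W.fst).pow1 i)).cmul (d i)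
  obtain ⟨e, e1, e2⟩ := ((W.tsum a1 hd.hasSum).mono hC).univ
  refine ⟨fun i => e i * S.α ^ i, fun i => ?_, fun x hx => ?_⟩
  · rw [norm_mul, norm_pow, Complex.norm_real, Real.norm_of_nonneg S.hα.le]
    exact mul_le_mul_of_nonneg_right (e1 i) (pow_nonneg S.hα.le i)
  · exact hs_congr (e2 _ (S.αx_le hx)) (fun i => by rw [mul_pow, mul_assoc]) (hf x hx).tsum_eq.symm

theorem geo_sum {C : ℝ} {e : ℕ → ℂ} (he : ∀ i, ‖e i‖ ≤ C * S.α ^ i) : Summable fun i => ‖e i‖ :=
  Summable.of_nonneg_of_le (fun _ => norm_nonneg _) he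
    ((summable_geometric_of_lt_one S.hα.le S.α_lt).mul_left C)

theorem t_rep {r C : ℝ} {c : ℕ × ℤ → ℂ} {F : ℂ → ℂ → ℂ} (h : Lr r C c F) {j : ℕ}
    (hF : ∀ x y : ℂ, ‖x‖ ≤ 1 → ‖y‖ = 1 → F x y = P.A x y * F (P.h y x) y + P.B x y * x ^ j) :
    (∀ i, ‖P.t i j‖ ≤ C * S.α ^ i) ∧
      ∀ x : ℂ, ‖x‖ ≤ 1 → HasSum (fun i => P.t i j * x ^ i) (P.T (fun z => z ^ j) x) := by
  obtain ⟨e, e1, e2⟩ := S.scale h.lev0.1 h.lev0.2 (f := P.T fun z => z ^ j)
    fun x hx => S.T_eq h (K := fun z => z ^ j) hF (S.αx_le hx)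
  have : ∀ i, P.t i j = e i := by
    intro i
    have a1 := avg_sum e (S.geo_sum e1) (fun n => (n : ℤ) - i)
      (fun x => P.T (fun z => z ^ j) x / x ^ i) (by
        intro x hx _
        have x0 : x ≠ 0 := fun h => by simp [h] at hx
        refine hs_congr ((e2 x hx.le).div_const (x ^ i)) (fun n => ?_) rfl
        rw [zpow_sub₀ x0, zpow_natCast, zpow_natCast, mul_div_assoc])
    refine a1.unique ?_
    have := hasSum_single (f := fun n : ℕ => if (n : ℤ) - i = 0 then e n else 0) i fun n hn =>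
      if_neg (by omega)
    simpa using this
  simp only [this]
  exact ⟨e1, e2⟩

theorem core {p a y0 C : ℝ} (p0 : 0 < p) (p1 : p ≤ 1) (y00 : 0 < y0) (y01 : y0 < 1) (ya : y0 < a)
    (hp : P.h y0 p = p) (ha : S.a p y0 = a) {c : ℕ × ℤ → ℂ} {F : ℂ → ℂ → ℂ} (h : Lr y0 C c F)
    {K : ℂ → ℂ}
    (hF : ∀ x y : ℂ, ‖x‖ ≤ 1 → ‖y‖ = 1 → F x y = P.A x y * F (P.h y x) y + P.B x y * K x)
    {e : ℂ} (he : ∀ x : ℂ, ‖x‖ ≤ 1 → P.T K x - K x = e) (h1 : F 1 1 = 0) : e = 0 ∧ ∀ s, c s = 0 := by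
  have hαβ : (S.α : ℂ) + S.β = 1 := by exact_mod_cast S.hαβ
  have hl := S.lin W.fst
  have hh := S.W_h W.fst
  have h11 : P.h 1 1 = 1 := S.z_one 1
  have h00 : P.h 0 0 = S.q1 0 := by rw [S.h_eq]; simp [S.B1.zero]
  have n0 : ‖(0 : ℂ)‖ ≤ 1 := by simp
  have n1 : ‖(1 : ℂ)‖ ≤ 1 := by simp
  have row : ∀ s : ℕ × ℤ, ∃ k : ℕ × ℤ → ℝ, (∀ t, 0 ≤ k t) ∧ HasSum k 1 ∧
      (∀ t, 0 ≤ s.2 → t.2 < 0 → k t = 0) ∧ 0 < k (0, if s.2 = 0 then 0 else s.2 - 1) ∧
      ∀ x y : ℂ, ‖x‖ ≤ 1 → ‖y‖ ≤ 1 → y ≠ 0 → HasSum (fun t => (k t : ℂ) * (x ^ t.1 * y ^ t.2))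
        (P.A x y * (P.h y x ^ s.1 * y ^ s.2) +
          if s.2 = 0 then P.B x y * (S.s1 (S.α * x) * S.b1 (S.α * x) ^ s.1) else 0) := by
    rintro ⟨i, j⟩
    by_cases hj : j = 0
    · subst hj
      obtain ⟨C1, C2, G, g1, g2, g3, g4⟩ := ((S.S1.comp hl).mul1 (hh.pow1 i)).split
      have g5 := g4 1 1 n1 n1
      simp only [mul_one, hαβ, S.S1.one, h11, one_pow, one_mul] at g5
      obtain ⟨k', b1, b2, -⟩ := ((g2.add (W.fst.mul1 g3)).mono g1).pos (by
        simp only [one_mul, mul_one]; exact g5.symm)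
      obtain ⟨k, a1, a2, a3, a4, a5⟩ := sto ((S.S2.comp hl).mul1
        ((((S.B2.comp hl).mul1 g2).add g3).mono g1)) (by
          simp only [mul_one, hαβ, S.S2.one, S.B2.one, one_mul]; exact g5.symm) 0
      refine ⟨k, a1, a2, fun t _ ht => a3 t ht, ?_, fun x y hx hy y0 => ?_⟩
      · simp only [zero_mul, add_zero] at b2
        simp only [mul_zero, add_zero, S.S2.zero, S.B2.zero, S.S1.zero, h00, ← b2] at a4
        have : k (0, 0) = S.r2 0 * (S.q2 0 * k' (0, 0) + S.r1 0 * S.q1 0 ^ i) := by exact_mod_cast a4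
        simp only [if_true, this]
        have := S.S1.pos
        have := S.S2.pos
        have := S.B1.pos
        have := S.B2.pos
        have := b1 (0, 0)
        positivity
      · refine hs_congr (a5 x y hx hy y0) (fun _ => rfl) ?_
        have g6 := g4 x y hx hy
        simp only [S.h_eq, mul_zero, add_zero] at g6
        simp only [if_true, S.A_eq, S.B_eq _ y0, Setup.a, Setup.bb, S.h_eq, mul_zero, add_zero, zpow_zero]
        field_simp
        linear_combination S.s2 (S.α * x + S.β * y) * S.b2 (S.α * x + S.β * y) * g6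
    · obtain ⟨k, a1, a2, a3, a4, a5⟩ := sto ((S.W_a W.fst).mul1 (hh.pow1 i)) (by
        simp only [Setup.a, mul_one, hαβ, S.S1.one, S.S2.one, S.B2.one, h11, one_pow]) (j - 1)
      refine ⟨k, a1, a2, fun t hs ht => a3 t (by simp only at hs; omega), ?_, fun x y hx hy y0 => ?_⟩
      · simp only [Setup.a, mul_zero, add_zero, S.S2.zero, S.B2.zero, S.S1.zero, h00] at a4
        have : k (0, j - 1) = S.r1 0 * S.r2 0 * S.q2 0 * S.q1 0 ^ i := by exact_mod_cast a4
        simp only [if_neg hj, this]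
        have := S.S1.pos
        have := S.S2.pos
        have := S.B1.pos
        have := S.B2.pos
        positivity
      · refine hs_congr (a5 x y hx hy y0) (fun _ => rfl) ?_
        simp only [if_neg hj, S.A_eq, zpow_sub_one₀ y0]
        field_simp
        ring
  choose k k0 k1 k2 k3 k4 using row
  obtain ⟨m1, a1, a2, -, a4, a5⟩ := sto ((S.S2.comp hl).mul1 (S.B2.comp hl)) (by
    simp only [mul_one, hαβ, S.S2.one, S.B2.one]) (-1)
  obtain ⟨m2, b1, b2, b3, -, b5⟩ := sto (S.S2.comp hl) (by simp only [mul_one, hαβ, S.S2.one]) 0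
  have yc : ((y0 : ℝ) : ℂ) ≠ 0 := by exact_mod_cast y00.ne'
  refine chain_zero k0 k1 (neg := fun s => s.2 < 0) (f := fun s => p ^ s.1 * y0 ^ s.2) (l := a / y0)
    (fun s => by positivity) ((one_lt_div y00).2 ya) (fun s hs => ?_) (fun s hs => ?_)
    (fun s t hs ht => k2 s t (not_lt.1 hs) ht) (μ := fun t => m1 t - m2 t)
    (fun t ht => by rw [b3 t ht, sub_zero]; exact a1 t) (t0 := (0, -1)) (by simp) ?_ ?_
    (s0 := (0, 0)) ?_ h.sm' ?_ ?_ (by simpa [h1] using h.rep 1 1 n1 (by simp))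
  · have := k4 s p y0 (nrm p0.le p1) (nrm y00.le y01.le) yc
    rw [if_neg hs.ne, add_zero, S.A_eq, hp, ha] at this
    exact_mod_cast this
  · exact mul_le_one₀ (pow_le_one₀ p0.le p1) (by positivity) (zpow_le_one₀ y00 y01.le (not_lt.1 hs))
  · rw [b3 _ (by simp), sub_zero]
    simp only [mul_zero, add_zero, S.S2.zero, S.B2.zero] at a4
    have : m1 (0, -1) = S.r2 0 * S.q2 0 := by exact_mod_cast a4
    rw [this]
    exact mul_pos S.S2.pos S.B2.pos
  · simpa using (one_lt_inv₀ y00).2 y01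
  · have key : ∀ n i : ℕ, Relation.ReflTransGen (fun s t => 0 < k s t) (i, (n : ℤ)) (0, 0) := by
      intro n
      induction n with
      | zero => exact fun i => Relation.ReflTransGen.single (by simpa using k3 (i, 0))
      | succ n ih =>
        refine fun i => Relation.ReflTransGen.head ?_ (ih 0)
        have := k3 (i, ((n + 1 : ℕ) : ℤ))
        rw [if_neg (by simp only; omega)] at this
        simpa using this
    rintro ⟨i, j⟩ hs
    obtain ⟨n, rfl⟩ := Int.eq_ofNat_of_zero_le (not_lt.1 hs)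
    exact key n i
  · refine Summable.of_nonneg_of_le (fun s => by positivity) (fun s => ?_) h.sm
    refine mul_le_mul_of_nonneg_left (le_trans ?_ (le_max_right _ _)) (norm_nonneg _)
    exact mul_le_of_le_one_left (by positivity) (pow_le_one₀ p0.le p1)
  · intro t
    rw [← sub_eq_zero]
    refine coeff_two (fun t => c t - (∑' s, c s * (k s t : ℂ) + e * ((m1 t - m2 t : ℝ) : ℂ))) ?_
      (fun s => (s.1 : ℤ)) (fun s => s.2) (fun s t a b => Prod.ext (by exact_mod_cast a) b) ?_ t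
    · refine Summable.norm (h.sm'.of_norm.sub (Summable.add ?_ (Summable.mul_left e ?_)))
      · simpa using (kernel_sum k0 k1 h.sm' (g := fun _ => 1) (G := fun _ => 1) (fun _ => n1)
          fun s => by simpa using Complex.hasSum_ofReal.2 (k1 s)).2.summable
      · exact (Complex.hasSum_ofReal.2 (a2.sub b2)).summable
    · intro x y hx hy _
      have y0 : y ≠ 0 := fun h => by simp [h] at hy
      obtain ⟨-, c2⟩ := kernel_sum k0 k1 h.sm' (fun t => norm_mono_le' hx.le hy t.1 t.2)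
        fun s => k4 s x y hx.le hy.le y0
      have c3 := (h.rep _ y (S.h_le hx.le hy.le) hy).mul_left (P.A x y)
      have c4 := (lev0_hasSum (g := fun s => c s * (S.s1 (S.α * x) * S.b1 (S.α * x) ^ s.1))).1
        (S.T_eq h hF (S.αx_le hx.le))
      have c5 : ∑' s, c s * (P.A x y * (P.h y x ^ s.1 * y ^ s.2) +
          if s.2 = 0 then P.B x y * (S.s1 (S.α * x) * S.b1 (S.α * x) ^ s.1) else 0) =
          P.A x y * F (P.h y x) y + P.B x y * P.T K x := by
        refine (hs_congr (c3.add (c4.mul_left (P.B x y))) (fun s => ?_) rfl).tsum_eq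
        split_ifs <;> ring
      rw [c5] at c2
      refine hs_congr ((h.rep x y hx.le hy).sub (c2.add
        (((a5 x y hx.le hy.le y0).sub (b5 x y hx.le hy.le y0)).mul_left e))) (fun s => ?_) ?_
      · push_cast
        simp only [zpow_natCast]
        ring
      · rw [hF x y hx.le hy, ← he x hx.le, S.B_eq _ y0, Setup.bb, zpow_zero, zpow_neg_one]
        field_simp
        ring

end Setup

end Pool.Agent.P.MP_386d8e_pr
end

-- part Pool.Agent.P.MP_386d8e_pr.Sect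
section

set_option autoImplicit false

open Filter Topology

namespace Pool.Agent.P.MP_386d8e_pr

section
variable {C : ℕ → ℕ → ℂ} {a γ : ℕ → ℝ} (ha : ∀ i, 0 ≤ a i) (hγ : ∀ j, 1 ≤ γ j)
  (hC : ∀ i j, ‖C i j‖ ≤ a i * γ j) (haγ : Summable fun i => γ i * a i)
include ha hγ hC

theorem row_summable {u : ℕ → ℂ} (hu : Summable fun j => γ j * ‖u j‖) (i : ℕ) :
    Summable fun j => ‖C i j * u j‖ := by
  refine Summable.of_nonneg_of_le (fun _ => norm_nonneg _) (fun j => ?_) (hu.mul_left (a i))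
  rw [norm_mul, ← mul_assoc]
  exact mul_le_mul_of_nonneg_right (hC i j) (norm_nonneg _)

theorem row_le {u : ℕ → ℂ} (hu : Summable fun j => γ j * ‖u j‖) (i : ℕ) :
    ‖∑' j, C i j * u j‖ ≤ a i * ∑' j, γ j * ‖u j‖ := by
  rw [← tsum_mul_left]
  refine (norm_tsum_le_tsum_norm (row_summable ha hγ hC hu i)).trans ?_
  refine (row_summable ha hγ hC hu i).tsum_le_tsum (fun j => ?_) (hu.mul_left _)
  rw [norm_mul, ← mul_assoc]
  exact mul_le_mul_of_nonneg_right (hC i j) (norm_nonneg _)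

omit ha hC in
theorem wsum_sub {u v : ℕ → ℂ} (hu : Summable fun j => γ j * ‖u j‖)
    (hv : Summable fun j => γ j * ‖v j‖) : Summable fun j => γ j * ‖u j - v j‖ := by
  refine Summable.of_nonneg_of_le (fun j => mul_nonneg (by linarith [hγ j]) (norm_nonneg _))
    (fun j => ?_) (hu.add hv)
  rw [← mul_add]
  exact mul_le_mul_of_nonneg_left (norm_sub_le _ _) (by linarith [hγ j])

omit ha hγ hC in
theorem wsum_fin {u : ℕ → ℂ} {N : ℕ} (hu : ∀ i, N < i → u i = 0) :
    Summable fun j => γ j * ‖u j‖ :=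
  summable_of_ne_finset_zero (s := Finset.range (N + 1)) fun j hj => by
    rw [hu j (by simpa using hj)]; simp

include haγ in
theorem bound_below
    (inj : ∀ u : ℕ → ℂ, (Summable fun j => γ j * ‖u j‖) → (∀ i, u i = ∑' j, C i j * u j) → u = 0) :
    ∃ D : ℝ, ∃ N0 : ℕ, 0 ≤ D ∧ ∀ N, N0 ≤ N → ∀ u w : ℕ → ℂ, (∀ i, N < i → u i = 0) →
      (∀ i, N < i → w i = 0) → (∀ i, i ≤ N → w i = u i - ∑' j, C i j * u j) →
      ∑' j, γ j * ‖u j‖ ≤ D * ∑' j, γ j * ‖w j‖ := by
  have γ0 : ∀ j, 0 ≤ γ j := fun j => by linarith [hγ j]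
  by_contra hcon
  push Not at hcon
  have h1 : ∀ n : ℕ, ∃ N, n ≤ N ∧ ∃ u w : ℕ → ℂ, (∀ i, N < i → u i = 0) ∧
      (∀ i, N < i → w i = 0) ∧ (∀ i, i ≤ N → w i = u i - ∑' j, C i j * u j) ∧
      ∑' j, γ j * ‖u j‖ = 1 ∧ ∑' j, γ j * ‖w j‖ ≤ 1 / ((n : ℝ) + 1) := by
    intro n
    obtain ⟨N, hN, u, w, hu, hw, huw, hlt⟩ := hcon ((n : ℝ) + 1) n (by positivity)
    set s := ∑' j, γ j * ‖u j‖ with hs
    have hw0 : 0 ≤ ∑' j, γ j * ‖w j‖ := tsum_nonneg fun j => mul_nonneg (γ0 j) (norm_nonneg _)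
    have hn : (0 : ℝ) < (n : ℝ) + 1 := by positivity
    have s0 : 0 < s := lt_of_le_of_lt (mul_nonneg hn.le hw0) hlt
    have key : ∀ z : ℕ → ℂ, ∑' j, γ j * ‖(s⁻¹ : ℝ) * z j‖ = s⁻¹ * ∑' j, γ j * ‖z j‖ := by
      intro z
      rw [← tsum_mul_left]
      refine tsum_congr fun j => ?_
      rw [norm_mul, Complex.norm_real, Real.norm_of_nonneg (inv_nonneg.2 s0.le)]
      ring
    refine ⟨N, hN, fun i => (s⁻¹ : ℝ) * u i, fun i => (s⁻¹ : ℝ) * w i, fun i hi => by simp [hu i hi],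
      fun i hi => by simp [hw i hi], fun i hi => ?_, ?_, ?_⟩
    · simp only [huw i hi, mul_sub, ← tsum_mul_left]
      congr 1
      exact tsum_congr fun j => by ring
    · rw [key, ← hs, inv_mul_cancel₀ s0.ne']
    · rw [key, le_div_iff₀ hn, mul_assoc, inv_mul_le_iff₀ s0]
      linarith
  choose N hN u w hu hw huw hu1 hw1 using h1
  have su : ∀ n, Summable fun j => γ j * ‖u n j‖ := fun n => wsum_fin (hu n)
  have sw : ∀ n, Summable fun j => γ j * ‖w n j‖ := fun n => wsum_fin (hw n)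
  have ht : ∀ n i, ‖u n i - w n i‖ ≤ a i := by
    intro n i
    by_cases hi : i ≤ N n
    · rw [huw n i hi, sub_sub_cancel]
      simpa [hu1 n] using row_le ha hγ hC (su n) i
    · push Not at hi
      simp [hu n i hi, hw n i hi, ha i]
  let U : Ultrafilter ℕ := Ultrafilter.of atTop
  have hU : (U : Filter ℕ) ≤ atTop := Ultrafilter.of_le _
  have h2 : ∀ i, ∃ z : ℂ, ‖z‖ ≤ a i ∧ Tendsto (fun n => u n i - w n i) U (𝓝 z) := by
    intro i
    obtain ⟨z, hz, hz'⟩ := (isCompact_closedBall (0 : ℂ) (a i)).ultrafilter_le_nhds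
      (U.map fun n => u n i - w n i) (by
        rw [Ultrafilter.coe_map, le_principal_iff, mem_map]
        exact univ_mem' fun n => by simpa using ht n i)
    exact ⟨z, by simpa using hz, hz'⟩
  choose z hz hzt using h2
  have sz : Summable fun j => γ j * ‖z j‖ :=
    Summable.of_nonneg_of_le (fun j => mul_nonneg (γ0 j) (norm_nonneg _))
      (fun j => mul_le_mul_of_nonneg_left (hz j) (γ0 j)) haγ
  have h3 : Tendsto (fun n => ∑' j, γ j * ‖u n j - w n j - z j‖) U (𝓝 0) := by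
    have := tendsto_tsum_of_dominated_convergence (𝓕 := U)
      (f := fun n j => γ j * ‖u n j - w n j - z j‖) (g := fun _ => (0 : ℝ))
      (bound := fun j => 2 * (γ j * a j)) (haγ.mul_left 2) (fun j => by
        have := ((tendsto_sub_nhds_zero_iff.2 (hzt j)).norm).const_mul (γ j)
        simpa using this) (Eventually.of_forall fun n j => by
        rw [Real.norm_of_nonneg (mul_nonneg (γ0 j) (norm_nonneg _))]
        have b1 := norm_sub_le (u n j - w n j) (z j)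
        have b2 := ht n j
        have b3 := hz j
        have := γ0 j
        nlinarith)
    simpa using this
  have h4 : Tendsto (fun n => ∑' j, γ j * ‖u n j - z j‖) U (𝓝 0) := by
    have b1 : Tendsto (fun n : ℕ => 1 / ((n : ℝ) + 1)) U (𝓝 0) :=
      tendsto_one_div_add_atTop_nhds_zero_nat.mono_left hU
    have b2 := h3.add b1
    rw [add_zero] at b2
    refine squeeze_zero (fun n => tsum_nonneg fun j => mul_nonneg (γ0 j) (norm_nonneg _))
      (fun n => ?_) b2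
    have s1 := wsum_sub hγ (wsum_sub hγ (su n) (sw n)) sz
    refine le_trans ?_ (add_le_add le_rfl (hw1 n))
    rw [← s1.tsum_add (sw n)]
    refine (wsum_sub hγ (su n) sz).tsum_le_tsum (fun j => ?_) (s1.add (sw n))
    rw [← mul_add]
    refine mul_le_mul_of_nonneg_left ?_ (γ0 j)
    have : u n j - z j = (u n j - w n j - z j) + w n j := by ring
    rw [this]
    exact norm_add_le _ _
  have h5 : z = 0 := by
    refine inj z sz fun i => ?_
    refine tendsto_nhds_unique (hzt i) ?_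
    have b1 : ∀ᶠ n in (U : Filter ℕ), ∑' j, C i j * u n j = u n i - w n i := by
      filter_upwards [hU (eventually_ge_atTop i)] with n hn
      rw [huw n i (le_trans hn (hN n)), sub_sub_cancel]
    refine Tendsto.congr' b1 ?_
    rw [← tendsto_sub_nhds_zero_iff]
    refine squeeze_zero_norm (fun n => ?_) (by simpa using h4.const_mul (a i))
    rw [← Summable.tsum_sub (row_summable ha hγ hC (su n) i).of_norm (row_summable ha hγ hC sz i).of_norm]
    simp only [← mul_sub]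
    exact row_le ha hγ hC (wsum_sub hγ (su n) sz) i
  simp only [h5, Pi.zero_apply, sub_zero, hu1] at h4
  exact zero_ne_one (tendsto_nhds_unique h4 tendsto_const_nhds)

include haγ in
theorem section_conv
    (inj : ∀ u : ℕ → ℂ, (Summable fun j => γ j * ‖u j‖) → (∀ i, u i = ∑' j, C i j * u j) → u = 0)
    {v : ℕ → ℂ} {κ : ℂ} (hv : Summable fun j => γ j * ‖v j‖)
    (hveq : ∀ i, v i - ∑' j, C i j * v j = if i = 0 then κ else 0) :
    ∃ D : ℝ, ∃ N0 : ℕ, 0 ≤ D ∧ ∀ N, N0 ≤ N → ∀ M : Matrix (Fin (N + 1)) (Fin (N + 1)) ℂ,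
      (∀ i j, M i j = (if i = j then 1 else 0) - C i j) → M.det ≠ 0 ∧
      ∀ r : ℕ → ℂ, (∀ j, ‖r j‖ ≤ 1) →
        ‖κ * (M.updateRow 0 fun j => r j).det / M.det - ∑' j, r j * v j‖ ≤
          D * ∑' m, γ (m + (N + 1)) * ‖v (m + (N + 1))‖ := by
  classical
  have γ0 : ∀ j, 0 ≤ γ j := fun j => by linarith [hγ j]
  obtain ⟨D, N0, hD, hb⟩ := bound_below ha hγ hC haγ inj
  have A0 : 0 ≤ ∑' i, γ i * a i := tsum_nonneg fun i => mul_nonneg (γ0 i) (ha i)
  refine ⟨D * (∑' i, γ i * a i) + 1, N0, by positivity, fun N hN M hM => ?_⟩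
  let ext : (Fin (N + 1) → ℂ) → ℕ → ℂ := fun x i => if h : i < N + 1 then x ⟨i, h⟩ else 0
  have ext0 : ∀ x i, N < i → ext x i = 0 := fun x i hi => dif_neg (by omega)
  have ext1 : ∀ x (i : Fin (N + 1)), ext x i = x i := fun x i => dif_pos i.2
  have extsum : ∀ (x : Fin (N + 1) → ℂ) (r : ℕ → ℂ), ∑' j, r j * ext x j = ∑ j : Fin (N + 1), r j * x j := by
    intro x r
    rw [tsum_eq_sum (s := Finset.range (N + 1)) fun j hj => by rw [ext0 x j (by simpa using hj), mul_zero],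
      Finset.sum_range]
    exact Finset.sum_congr rfl fun j _ => by rw [ext1]
  have mv : ∀ (x : Fin (N + 1) → ℂ) (i : Fin (N + 1)),
      M.mulVec x i = ext x i - ∑' j, C i j * ext x j := by
    intro x i
    rw [extsum, ext1, Matrix.mulVec, dotProduct]
    simp only [hM, sub_mul, Finset.sum_sub_distrib, ite_mul, one_mul, zero_mul, Finset.sum_ite_eq,
      Finset.mem_univ, if_true]
  have hdet : M.det ≠ 0 := by
    intro h0
    obtain ⟨x, hx, hx0⟩ := Matrix.exists_mulVec_eq_zero_iff.2 h0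
    have b1 := hb N hN (ext x) 0 (ext0 x) (fun _ _ => rfl) (fun i hi => by
      have := mv x ⟨i, by omega⟩
      rw [hx0] at this
      exact this)
    simp only [Pi.zero_apply, norm_zero, mul_zero, tsum_zero] at b1
    apply hx
    funext i
    have b2 := (wsum_fin (γ := γ) (ext0 x)).le_tsum i fun j _ => mul_nonneg (γ0 j) (norm_nonneg _)
    rw [ext1] at b2
    have b3 := hγ i
    have b4 := norm_nonneg (x i)
    have : ‖x i‖ ≤ 0 := by nlinarith
    exact norm_le_zero_iff.1 this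
  refine ⟨hdet, fun r hr => ?_⟩
  have hU : IsUnit M.det := isUnit_iff_ne_zero.2 hdet
  set x : Fin (N + 1) → ℂ := M⁻¹.mulVec (Pi.single 0 κ) with hx
  have hx1 : M.mulVec x = Pi.single 0 κ := by
    rw [hx, Matrix.mulVec_mulVec, Matrix.mul_nonsing_inv _ hU, Matrix.one_mulVec]
  have cr : κ * (M.updateRow 0 fun j => r j).det / M.det = ∑' j, r j * ext x j := by
    set c : Fin (N + 1) → ℂ := Matrix.vecMul (fun j : Fin (N + 1) => r j) M⁻¹ with hc
    have b1 : (fun j : Fin (N + 1) => r j) = ∑ k, c k • M k := by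
      have : Matrix.vecMul c M = fun j : Fin (N + 1) => r j := by
        rw [hc, Matrix.vecMul_vecMul, Matrix.nonsing_inv_mul _ hU, Matrix.vecMul_one]
      rw [← this]
      funext j
      simp [Matrix.vecMul, dotProduct, Finset.sum_apply]
    rw [extsum]
    conv_lhs => rw [b1, Matrix.det_updateRow_sum]
    have b2 : ∑ j : Fin (N + 1), r j * x j = c 0 * κ := by
      change (fun j : Fin (N + 1) => r j) ⬝ᵥ x = _
      rw [hx, Matrix.dotProduct_mulVec, ← hc, dotProduct_single]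
    rw [b2, smul_eq_mul]
    field_simp
  set tl : ℕ → ℂ := fun i => if N < i then v i else 0 with htl
  have stl : Summable fun j => γ j * ‖tl j‖ :=
    Summable.of_nonneg_of_le (fun j => mul_nonneg (γ0 j) (norm_nonneg _))
      (fun j => mul_le_mul_of_nonneg_left (by simp only [htl]; split_ifs <;> simp) (γ0 j)) hv
  have tl1 : ∑' j, γ j * ‖tl j‖ = ∑' m, γ (m + (N + 1)) * ‖v (m + (N + 1))‖ := by
    rw [← stl.sum_add_tsum_nat_add (N + 1), Finset.sum_eq_zero, zero_add]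
    · exact tsum_congr fun m => by simp only [htl]; rw [if_pos (by omega)]
    · intro j hj
      have : ¬ N < j := by have := Finset.mem_range.1 hj; omega
      simp [htl, this]
  rw [← tl1, cr]
  set τ := ∑' j, γ j * ‖tl j‖ with hτ
  have τ0 : 0 ≤ τ := tsum_nonneg fun j => mul_nonneg (γ0 j) (norm_nonneg _)
  set u : ℕ → ℂ := fun i => ext x i - v i + tl i with hu
  have u0 : ∀ i, N < i → u i = 0 := fun i hi => by simp [hu, ext0 x i hi, htl, hi]
  have su : Summable fun j => γ j * ‖u j‖ := wsum_fin u0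
  have sx : Summable fun j => γ j * ‖ext x j‖ := wsum_fin (ext0 x)
  set w : ℕ → ℂ := fun i => if N < i then 0 else -∑' j, C i j * tl j with hw
  have b1 := hb N hN u w u0 (fun i hi => by simp [hw, hi]) (by
    intro i hi
    have c1 := mv x ⟨i, by omega⟩
    rw [hx1] at c1
    have c2 := hveq i
    have c3 : ∑' j, C i j * u j = ∑' j, C i j * ext x j - ∑' j, C i j * v j + ∑' j, C i j * tl j := by
      have d1 := (row_summable ha hγ hC sx i).of_norm
      have d2 := (row_summable ha hγ hC hv i).of_norm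
      rw [← d1.tsum_sub d2, ← (d1.sub d2).tsum_add (row_summable ha hγ hC stl i).of_norm]
      exact tsum_congr fun j => by simp only [hu]; ring
    have c4 : (Pi.single 0 κ : Fin (N + 1) → ℂ) ⟨i, by omega⟩ = if i = 0 then κ else 0 := by
      rw [Pi.single_apply]
      simp [Fin.ext_iff]
    have c5 : ¬ N < i := by omega
    rw [c4] at c1
    simp only [hw, hu, htl, if_neg c5] at c3 ⊢
    rw [c3]
    simp only at c1
    linear_combination c2 + c1)
  have b2 : ∑' j, γ j * ‖w j‖ ≤ (∑' i, γ i * a i) * τ := by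
    rw [← tsum_mul_right]
    have c1 : ∀ j, γ j * ‖w j‖ ≤ γ j * a j * τ := by
      intro j
      rw [mul_assoc]
      refine mul_le_mul_of_nonneg_left ?_ (γ0 j)
      simp only [hw]
      split_ifs
      · simpa using mul_nonneg (ha j) τ0
      · rw [norm_neg]; exact row_le ha hγ hC stl j
    exact (wsum_fin (N := N) fun i hi => by simp [hw, hi]).tsum_le_tsum c1 (haγ.mul_right τ)
  have r1 : ∀ i j : ℕ, ‖r j‖ ≤ 1 * γ j := fun _ j => by linarith [hr j, hγ j]
  have rs := fun (z : ℕ → ℂ) (hz : Summable fun j => γ j * ‖z j‖) =>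
    row_summable (C := fun _ j => r j) (a := fun _ => 1) (fun _ => zero_le_one) hγ r1 hz 0
  have rl := fun (z : ℕ → ℂ) (hz : Summable fun j => γ j * ‖z j‖) =>
    row_le (C := fun _ j => r j) (a := fun _ => 1) (fun _ => zero_le_one) hγ r1 hz 0
  have b3 : ∑' j, r j * ext x j - ∑' j, r j * v j = ∑' j, r j * u j - ∑' j, r j * tl j := by
    rw [← (rs _ sx).of_norm.tsum_sub (rs _ hv).of_norm, ← (rs _ su).of_norm.tsum_sub (rs _ stl).of_norm]
    exact tsum_congr fun j => by simp only [hu]; ring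
  rw [b3]
  have b4 := rl _ su
  have b5 := rl _ stl
  have b6 := norm_sub_le (∑' j, r j * u j) (∑' j, r j * tl j)
  have b7 := mul_le_mul_of_nonneg_left b2 hD
  simp only [one_mul] at b4 b5
  rw [← hτ] at b5
  nlinarith

end

end Pool.Agent.P.MP_386d8e_pr
end

-- part Pool.Agent.P.MP_386d8e_pr.Mix
section

set_option autoImplicit false

open MeasureTheory Filter Topology

namespace Pool.Agent.P.MP_386d8e_pr

theorem dsum {ι S : Type*} {v : ι → ℂ} {d : ι → S → ℂ} {E : ι → ℝ} {w : S → ℝ} (hw : ∀ s, 1 ≤ w s)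
    (h1 : ∀ j, Summable fun s => ‖d j s‖ * w s) (h2 : ∀ j, ∑' s, ‖d j s‖ * w s ≤ E j)
    (hv : Summable fun j => ‖v j‖ * E j) :
    (Summable fun s => ‖∑' j, v j * d j s‖ * w s) ∧
    ∀ (g : S → ℂ) (G : ι → ℂ), (∀ s, ‖g s‖ ≤ 1) → (∀ j, HasSum (fun s => d j s * g s) (G j)) →
      (Summable fun j => v j * G j) ∧ HasSum (fun s => (∑' j, v j * d j s) * g s) (∑' j, v j * G j) := by
  have w0 : ∀ s, 0 ≤ w s := fun s => zero_le_one.trans (hw s)
  have s1 : Summable fun p : ι × S => ‖v p.1‖ * (‖d p.1 p.2‖ * w p.2) :=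
    (summable_prod_of_nonneg (f := fun p : ι × S => ‖v p.1‖ * (‖d p.1 p.2‖ * w p.2))
      fun p => mul_nonneg (norm_nonneg _) (mul_nonneg (norm_nonneg _) (w0 _))).2
      ⟨fun j => (h1 j).mul_left ‖v j‖, by
        simp only [tsum_mul_left]
        exact Summable.of_nonneg_of_le
          (fun j => mul_nonneg (norm_nonneg _) (tsum_nonneg fun s => mul_nonneg (norm_nonneg _) (w0 s)))
          (fun j => mul_le_mul_of_nonneg_left (h2 j) (norm_nonneg _)) hv⟩
  constructor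
  · have s2 := s1.prod_symm
    refine Summable.of_nonneg_of_le (fun s => mul_nonneg (norm_nonneg _) (w0 s)) (fun s => ?_) s2.prod
    have s3 : Summable fun j => ‖v j‖ * (‖d j s‖ * w s) := s2.prod_factor s
    have s4 : Summable fun j => ‖v j * d j s‖ :=
      Summable.of_nonneg_of_le (fun _ => norm_nonneg _) (fun j => by
        rw [norm_mul]
        exact mul_le_mul_of_nonneg_left (le_mul_of_one_le_right (norm_nonneg _) (hw s)) (norm_nonneg _)) s3
    refine (mul_le_mul_of_nonneg_right (norm_tsum_le_tsum_norm s4) (w0 s)).trans (le_of_eq ?_)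
    rw [← tsum_mul_right]
    exact tsum_congr fun j => by simp only [norm_mul, Prod.fst_swap, Prod.snd_swap]; ring
  · intro g G hg hG
    have s2 : Summable fun p : ι × S => v p.1 * (d p.1 p.2 * g p.2) :=
      Summable.of_norm_bounded s1 fun p => by
        rw [norm_mul, norm_mul]
        exact mul_le_mul_of_nonneg_left
          (mul_le_mul_of_nonneg_left ((hg _).trans (hw _)) (norm_nonneg _)) (norm_nonneg _)
    have s3 := s2.hasSum.prod_fiberwise fun j => (hG j).mul_left (v j)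
    have s4 : HasSum (fun p : S × ι => v p.2 * (d p.2 p.1 * g p.1)) (∑' j, v j * G j) := by
      rw [s3.tsum_eq]
      exact (Equiv.prodComm S ι).hasSum_iff.2 s2.hasSum
    refine ⟨s3.summable, s4.prod_fiberwise fun t => ?_⟩
    refine hs_congr (s4.summable.prod_factor t).hasSum (fun _ => rfl) ?_
    rw [← tsum_mul_right]
    exact tsum_congr fun s => by ring

theorem wsum_norm {v : ℕ → ℂ} (hv : Summable fun j : ℕ => (1 + (j : ℝ)) * ‖v j‖) :
    Summable fun j => ‖v j‖ :=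
  Summable.of_nonneg_of_le (fun _ => norm_nonneg _)
    (fun j => le_mul_of_one_le_left (norm_nonneg _) (by linarith [Nat.cast_nonneg (α := ℝ) j])) hv

theorem pow_summable {v : ℕ → ℂ} (hv : Summable fun j => ‖v j‖) {x : ℂ} (hx : ‖x‖ ≤ 1) :
    Summable fun j => v j * x ^ j :=
  Summable.of_norm_bounded hv fun j => by
    rw [norm_mul, norm_pow]
    exact mul_le_of_le_one_right (norm_nonneg _) (pow_le_one₀ (norm_nonneg _) hx)

namespace Setup

variable {P : Model} {S : Setup P} (T : S.Stable)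

theorem Stable.exists_mix {r : ℝ} (r0 : S.α * T.m1 < r) (r1 : r ≤ 1) :
    (∃ C : ℝ, 1 ≤ C ∧ ∀ i j : ℕ, ‖P.t i j‖ ≤ C * S.α ^ i * (1 + j)) ∧
    ∀ v : ℕ → ℂ, (Summable fun j : ℕ => (1 + (j : ℝ)) * ‖v j‖) → ∀ K : ℂ → ℂ,
      (∀ x : ℂ, ‖x‖ ≤ 1 → HasSum (fun j => v j * x ^ j) (K x)) →
      ∃ (C : ℝ) (c : ℕ × ℤ → ℂ) (F : ℂ → ℂ → ℂ), Lr r C c F ∧
        F 1 1 * ((1 - S.α * T.m1 - S.β * (T.n1 + T.n2 + T.m2) : ℝ) : ℂ) =
          K 1 * ((1 - S.α * T.m1 - S.β * T.m2 : ℝ) : ℂ) ∧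
        (∀ x y : ℂ, ‖x‖ ≤ 1 → ‖y‖ = 1 → F x y = P.A x y * F (P.h y x) y + P.B x y * K x) ∧
        (Summable fun i => ‖∑' j, P.t i j * v j‖) ∧
        ∀ x : ℂ, ‖x‖ ≤ 1 → HasSum (fun i => (∑' j, P.t i j * v j) * x ^ i) (P.T K x) := by
  obtain ⟨C, hC⟩ := T.exists_mono r0 r1
  choose c F hL h1 hF using hC
  have ht := fun j => S.t_rep (hL j) (hF j)
  have hα := S.hα
  refine ⟨⟨max 1 C, le_max_left _ _, fun i j => ((ht j).1 i).trans ?_⟩, fun v hv K hK => ?_⟩
  · rw [mul_right_comm]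
    exact mul_le_mul_of_nonneg_right (mul_le_mul_of_nonneg_right (le_max_right _ _) (by positivity))
      (by positivity)
  have hv' : ∀ D : ℝ, Summable fun j : ℕ => ‖v j‖ * (D * (1 + (j : ℝ))) := fun D =>
    (hv.mul_left D).congr fun j => by ring
  obtain ⟨a1, a2⟩ := dsum (one_le_wt r) (fun j => (hL j).sm) (fun j => (hL j).le) (hv' C)
  have a3 := fun (x y : ℂ) (hx : ‖x‖ ≤ 1) (hy : ‖y‖ = 1) =>
    a2 (fun s => x ^ s.1 * y ^ s.2) (fun j => F j x y) (fun s => norm_mono_le' hx hy s.1 s.2)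
      fun j => (hL j).rep x y hx hy
  have L : Lr r _ (fun s => ∑' j, v j * c j s) fun x y => ∑' j, v j * F j x y :=
    ⟨a1, le_rfl, fun x y hx hy => (a3 x y hx hy).2⟩
  have E : ∀ x y : ℂ, ‖x‖ ≤ 1 → ‖y‖ = 1 → ∑' j, v j * F j x y =
      P.A x y * ∑' j, v j * F j (P.h y x) y + P.B x y * K x := by
    intro x y hx hy
    refine (hs_congr (((a3 _ y (S.h_le hx hy.le) hy).1.hasSum.mul_left (P.A x y)).add
      ((hK x hx).mul_left (P.B x y))) (fun j => ?_) rfl).tsum_eq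
    rw [hF j x y hx hy]
    ring
  have g := hasSum_geometric_of_lt_one S.hα.le S.α_lt
  obtain ⟨b1, b2⟩ := dsum (v := v) (d := fun j i => P.t i j) (w := fun _ => 1)
    (E := fun j => (C * (1 - S.α)⁻¹) * (1 + j)) (fun _ => le_rfl)
    (fun j => by simpa using S.geo_sum (ht j).1) (fun j => by
      simp only [mul_one]
      refine hasSum_le (ht j).1 (S.geo_sum (ht j).1).hasSum (hs_congr (g.mul_left _) (fun _ => rfl) ?_)
      ring) (hv' _)
  obtain ⟨-, b3⟩ := dsum (v := v) (d := fun j i => c j (i, 0)) (w := fun _ => 1)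
    (E := fun j => C * (1 + j)) (fun _ => le_rfl)
    (fun j => by simpa using (hL j).lev0.1) (fun j => by simpa using (hL j).lev0.2) (hv' _)
  refine ⟨_, _, _, L, ?_, E, by simpa only [mul_one, mul_comm, one_mul] using b1, fun x hx => ?_⟩
  · rw [← tsum_mul_right, ← (hK 1 (by simp)).tsum_eq, ← tsum_mul_right]
    exact tsum_congr fun j => by rw [mul_assoc, h1 j, one_pow, mul_one]
  · have c1 := (b2 (fun i => x ^ i) _ (fun i => by
      rw [norm_pow]; exact pow_le_one₀ (norm_nonneg _) hx) fun j => (ht j).2 x hx).2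
    have c2 := (b3 (fun i => S.s1 (S.α * x) * S.b1 (S.α * x) ^ i) _ (fun i =>
      ((S.S1.comp W.fst).mul1 ((S.B1.comp W.fst).pow1 i)).bound (y := 0) (S.αx_le hx) (by simp))
      fun j => S.T_eq (hL j) (K := fun z => z ^ j) (hF j) (S.αx_le hx)).2
    have c3 := S.T_eq L E (S.αx_le hx)
    refine hs_congr c1 (fun i => ?_) (c3.unique c2)
    simp only [mul_comm]

include T in
theorem Stable.inj (u : ℕ → ℂ) (hu : Summable fun j : ℕ => (1 + (j : ℝ)) * ‖u j‖)
    (h0 : ∑' j, u j = 0) (h : ∀ i, i ≠ 0 → u i = ∑' j, P.t i j * u j) : u = 0 := by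
  have ρ0 := T.rho_nonneg
  have ρ1 := T.rho_lt
  obtain ⟨p, a, p0, p1, ya, hp, ha⟩ := T.fix ((S.α * T.m1 + 1) / 2) (by linarith) (by linarith)
  have hu' := wsum_norm hu
  obtain ⟨C, c, F, hL, h1, hF, h2, h3⟩ := (T.exists_mix (r := (S.α * T.m1 + 1) / 2) (by linarith)
    (by linarith)).2 u hu (fun x => ∑' j, u j * x ^ j) fun x hx => (pow_summable hu' hx).hasSum
  have he : ∀ x : ℂ, ‖x‖ ≤ 1 →
      P.T (fun x => ∑' j, u j * x ^ j) x - ∑' j, u j * x ^ j = ∑' j, P.t 0 j * u j - u 0 := by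
    intro x hx
    refine ((h3 x hx).sub (pow_summable hu' hx).hasSum).unique ?_
    have := hasSum_single (f := fun i => (∑' j, P.t i j * u j) * x ^ i - u i * x ^ i) 0 fun i hi => by
      rw [← h i hi, sub_self]
    simpa using this
  have F1 : F 1 1 = 0 := by
    simp only [one_pow, mul_one, h0, zero_mul] at h1
    refine (mul_eq_zero.1 h1).resolve_right ?_
    have : 1 - S.α * T.m1 - S.β * (T.n1 + T.n2 + T.m2) ≠ 0 := by linarith [T.st]
    exact_mod_cast this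
  obtain ⟨e0, c0⟩ := S.core p0 p1 (by linarith) (by linarith) ya (by rw [S.h_eq]; exact hp) ha hL hF he F1
  funext i
  refine coeff_nat u hu' (fun x hx => ?_) i
  have b1 := S.T_eq hL hF (S.αx_le hx.le)
  simp only [c0, zero_mul] at b1
  have b2 := he x hx.le
  rw [e0, b1.unique hasSum_zero, zero_sub, neg_eq_zero] at b2
  exact b2 ▸ (pow_summable hu' hx.le).hasSum

end Setup

end Pool.Agent.P.MP_386d8e_pr
end

-- part Pool.Agent.P.MP_386d8e_pr.Main
section

set_option autoImplicit false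

open MeasureTheory Filter Topology

namespace Pool.Agent.P.MP_386d8e_pr

theorem W.univ' {C : ℝ} {F : ℂ → ℂ → ℂ} (h : W C F) :
    ∃ e : ℕ → ℂ, (Summable fun i => ‖e i‖) ∧ ∑' i, ‖e i‖ ≤ C ∧
      ∀ u : ℂ, ‖u‖ ≤ 1 → HasSum (fun i => e i * u ^ i) (F u 0) := by
  obtain ⟨c, h1, h2, h3⟩ := h
  have inj : Function.Injective fun i : ℕ => ((i, 0) : ℕ × ℕ) := fun _ _ h => (Prod.ext_iff.1 h).1
  refine ⟨fun i => c (i, 0), h1.comp_injective inj,
    (tsum_comp_le_tsum_of_inj h1 (fun _ => norm_nonneg _) inj).trans h2, fun u hu => ?_⟩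
  have := (inj.hasSum_iff (f := fun s : ℕ × ℕ => c s * (u ^ s.1 * 0 ^ s.2)) (by
    rintro ⟨i, j⟩ h
    have : j ≠ 0 := by rintro rfl; exact h ⟨i, rfl⟩
    simp [this])).2 (h3 u 0 hu (by simp))
  simpa [Function.comp_def] using this

/-- Cauchy's formula in the second variable -/
theorem W.cauchy {C : ℝ} {F : ℂ → ℂ → ℂ} (h : W C F) {x y : ℂ} (hx : ‖x‖ ≤ 1) (hy : ‖y‖ < 1)
    {G : ℂ → ℂ} (hG : ∀ w : ℂ, ‖w‖ = 1 → w ≠ 1 → G w = F x w) :
    Real.circleAverage (fun w => G w * (w / (w - y))) 0 1 = F x y := by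
  obtain ⟨c, h1, -, h3⟩ := h
  have g1 : Summable fun n : ℕ => ‖y ^ n‖ := by
    simpa only [norm_pow] using summable_geometric_of_lt_one (norm_nonneg _) hy
  have c1 : Summable fun s : ℕ × ℕ => ‖c s * x ^ s.1‖ :=
    Summable.of_nonneg_of_le (fun _ => norm_nonneg _) (fun s => by
      rw [norm_mul, norm_pow]
      exact mul_le_of_le_one_right (norm_nonneg _) (pow_le_one₀ (norm_nonneg _) hx)) h1
  have s1 := c1.mul_norm g1
  have a1 := avg_sum (ι := (ℕ × ℕ) × ℕ) (fun p => c p.1 * x ^ p.1.1 * y ^ p.2) s1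
    (fun p => (p.1.2 : ℤ) - p.2) (fun w => G w * (w / (w - y))) (by
      intro w hw hw1
      have w0 : w ≠ 0 := fun h => by simp [h] at hw
      have b1 : ‖y / w‖ < 1 := by rw [norm_div, hw, div_one]; exact hy
      have b2 : Summable fun s : ℕ × ℕ => ‖c s * (x ^ s.1 * w ^ s.2)‖ :=
        Summable.of_nonneg_of_le (fun _ => norm_nonneg _) (fun s => by
          rw [norm_mul]
          exact mul_le_of_le_one_right (norm_nonneg _) (norm_mono_le hx hw.le _ _)) h1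
      have b3 : Summable fun n : ℕ => ‖(y / w) ^ n‖ := by
        simpa only [norm_pow] using summable_geometric_of_lt_one (norm_nonneg _) b1
      have b4 := HasSum.mul (f := fun s : ℕ × ℕ => c s * (x ^ s.1 * w ^ s.2))
        (g := fun n : ℕ => (y / w) ^ n) (h3 x w hx hw.le) (hasSum_geometric_of_norm_lt_one b1)
        (summable_mul_of_summable_norm (f := fun s : ℕ × ℕ => c s * (x ^ s.1 * w ^ s.2))
          (g := fun n : ℕ => (y / w) ^ n) b2 b3)
      refine hs_congr b4 (fun p => ?_) ?_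
      · rw [zpow_sub₀ w0, zpow_natCast, zpow_natCast, div_pow]
        ring
      · rw [hG w hw hw1]
        congr 1
        field_simp)
  refine (a1.prod_fiberwise fun s => ?_).unique (h3 x y hx hy.le)
  have := hasSum_single (f := fun n : ℕ => if (s.2 : ℤ) - n = 0 then c s * x ^ s.1 * y ^ n else 0) s.2
    fun n hn => if_neg (by omega)
  simpa [mul_assoc] using this

namespace Setup

variable {P : Model} {S : Setup P} (T : S.Stable) {p1 p2 : PMF (ℕ × ℕ)} (hst : P.Steady p1 p2)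

include hst in
theorem pgf_eq {x y : ℂ} (hx : ‖x‖ ≤ 1) (hy : ‖y‖ = 1) :
    pgf p1 x y = P.A x y * pgf p1 (P.h y x) y + P.B x y * pgf p2 x 0 := by
  have y0 : y ≠ 0 := fun h => by simp [h] at hy
  obtain ⟨r1, r2⟩ := hst x y hx hy.le
  rw [r2 y0, r1, Model.A, Model.B]
  ring

include S hst in
theorem ser_true {x y : ℂ} (hx : ‖x‖ ≤ 1) (hy : ‖y‖ = 1) (hy1 : y ≠ 1) :
    P.ser (fun x => pgf p2 x 0) x y = pgf p1 x y :=
  (S.sol_unique hy hy1 (F := fun x => pgf p1 x y) (b := fun x => P.B x y * pgf p2 x 0)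
    (fun _ hx => (pgf_W p1).bound hx hy.le) (fun _ hx => pgf_eq hst hx hy) hx).tsum_eq

include S hst in
theorem T_true {x : ℂ} (hx : ‖x‖ ≤ 1) : P.T (fun x => pgf p2 x 0) x = pgf p2 x 0 := by
  have h1 := S.h_le hx (y := 0) (by simp)
  rw [(hst x 0 hx (by simp)).1, Model.T, ← (pgf_W p1).cauchy h1 (y := 0) (by simp)
    fun w hw hw1 => ser_true (S := S) hst h1 hw hw1]
  congr 1
  refine Real.circleAverage_congr_sphere fun w hw => ?_
  have w0 : w ≠ 0 := fun h => by simp [h] at hw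
  simp [w0]

include T hst in
theorem Stable.conv {κ : ℂ} (hκ : pgf p2 1 0 = κ) : ∃ C : ℝ, ∀ᶠ N : ℕ in atTop, (P.M N 1).det ≠ 0 ∧
    ∀ x : ℂ, ‖x‖ ≤ 1 → ‖κ * (P.M N x).det / (P.M N 1).det - pgf p2 x 0‖ ≤ C * (N + 1) * S.α ^ N := by
  have hα := S.hα
  obtain ⟨d, d1, d2, d3⟩ := (pgf_W p1).univ'
  obtain ⟨v, v1, v2⟩ := S.scale d1 d2 (f := fun x => pgf p2 x 0) fun x hx => by
    have := (d3 _ (S.B1.norm_le (S.αx_le hx))).mul_left (S.s1 (S.α * x))
    refine hs_congr this (fun i => by ring) ?_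
    rw [(hst x 0 hx (by simp)).1, S.es1, S.h_eq, mul_zero, add_zero]
  simp only [one_mul] at v1
  have g1 : Summable fun n : ℕ => (n : ℝ) * S.α ^ n := by
    simpa using summable_pow_mul_geometric_of_norm_lt_one 1 (r := S.α)
      (by rw [Real.norm_of_nonneg hα.le]; exact S.α_lt)
  have g0 := summable_geometric_of_lt_one hα.le S.α_lt
  have g2 : Summable fun n : ℕ => (1 + (n : ℝ)) * S.α ^ n := (g0.add g1).congr fun n => by ring
  have hv : Summable fun j : ℕ => (1 + (j : ℝ)) * ‖v j‖ :=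
    Summable.of_nonneg_of_le (fun _ => by positivity)
      (fun j => mul_le_mul_of_nonneg_left (v1 j) (by positivity)) g2
  have hv' := wsum_norm hv
  obtain ⟨⟨C, C1, hC⟩, hmix⟩ := T.exists_mix T.rho_lt le_rfl
  obtain ⟨-, -, -, -, -, -, m1, m2⟩ := hmix v hv _ v2
  have vt : ∀ i, ∑' j, P.t i j * v j = v i := by
    intro i
    rw [← sub_eq_zero]
    refine coeff_nat (fun i => ∑' j, P.t i j * v j - v i) (m1.of_norm.sub hv'.of_norm).norm
      (fun x hx => ?_) i
    refine hs_congr ((m2 x hx.le).sub (v2 x hx.le)) (fun i => by ring) ?_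
    rw [T_true (S := S) hst hx.le, sub_self]
  let Cm : ℕ → ℕ → ℂ := fun i j => if i = 0 then (if j = 0 then 0 else -1) else P.t i j
  have row0 : ∀ u : ℕ → ℂ, (Summable fun j => ‖u j‖) → ∑' j, Cm 0 j * u j = u 0 - ∑' j, u j := by
    intro u hu
    refine (hs_congr ((hasSum_ite_eq 0 (u 0)).sub hu.of_norm.hasSum) (fun j => ?_) rfl).tsum_eq
    by_cases hj : j = 0 <;> simp [Cm, hj]
  obtain ⟨D, N0, D0, hD⟩ := section_conv (C := Cm) (a := fun i => C * S.α ^ i) (γ := fun j => 1 + (j : ℝ))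
    (fun i => by positivity) (fun j => by linarith [Nat.cast_nonneg (α := ℝ) j]) (fun i j => by
      simp only [Cm]
      split_ifs with hi hj
      · simp only [norm_zero]; positivity
      · rw [hi, norm_neg, norm_one, pow_zero, mul_one]
        nlinarith [Nat.cast_nonneg (α := ℝ) j]
      · exact hC i j) ((g2.mul_left C).congr fun i => by ring) (fun u hu h => by
      refine T.inj u hu ?_ fun i hi => by simpa only [Cm, if_neg hi] using h i
      have := h 0
      rw [row0 u (wsum_norm hu)] at this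
      linear_combination this) (v := v) (κ := κ) hv (fun i => by
      split_ifs with hi
      · rw [hi, row0 v hv', ← hκ, ← (v2 1 (by simp)).tsum_eq]
        simp
      · simp only [Cm, if_neg hi, vt, sub_self])
  refine ⟨D * ∑' m : ℕ, 2 * ((1 + (m : ℝ)) * S.α ^ m), ?_⟩
  filter_upwards [eventually_ge_atTop N0] with N hN
  obtain ⟨e1, e2⟩ := hD N hN (P.M N 1) fun i j => by
    simp only [Model.M, Matrix.of_apply, Cm, one_pow, Fin.val_eq_zero_iff]
    by_cases hi : i = 0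
    · by_cases hj : j = 0
      · simp [hi, hj]
      · simp [hi, hj, Ne.symm hj]
    · simp [hi]
  refine ⟨e1, fun x hx => ?_⟩
  have e3 := e2 (fun j => x ^ j) fun j => by rw [norm_pow]; exact pow_le_one₀ (norm_nonneg _) hx
  have e4 : ((P.M N 1).updateRow 0 fun j => x ^ (j : ℕ)) = P.M N x := by
    ext i j
    rw [Matrix.updateRow_apply]
    simp only [Model.M, Matrix.of_apply]
    split_ifs <;> rfl
  have e5 : ∑' j, x ^ j * v j = pgf p2 x 0 := by
    rw [← (v2 x hx).tsum_eq]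
    exact tsum_congr fun j => mul_comm _ _
  rw [e4, e5] at e3
  refine e3.trans ?_
  rw [mul_assoc, mul_assoc]
  refine mul_le_mul_of_nonneg_left ?_ D0
  rw [← tsum_mul_right]
  refine ((summable_nat_add_iff (f := fun j : ℕ => (1 + (j : ℝ)) * ‖v j‖) (N + 1)).2 hv).tsum_le_tsum
    (fun m => ?_) ((g2.mul_left 2).mul_right _)
  have b1 : ‖v (m + (N + 1))‖ ≤ S.α ^ m * S.α ^ N := by
    refine (v1 _).trans ?_
    rw [← add_assoc, pow_succ, pow_add]
    exact mul_le_of_le_one_right (by positivity) S.α_lt.le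
  have b2 : (1 + ((m + (N + 1) : ℕ) : ℝ)) ≤ 2 * (1 + m) * (N + 1) := by
    push_cast
    nlinarith [Nat.cast_nonneg (α := ℝ) m, Nat.cast_nonneg (α := ℝ) N]
  refine (mul_le_mul b2 b1 (norm_nonneg _) (by positivity)).trans (le_of_eq (by ring))

include T hst in
theorem Stable.at_one {x : ℂ} (hx : ‖x‖ ≤ 1) :
    P.ser (fun x => pgf p2 x 0) x 1 + limUnder atTop (fun k => P.prodA k x 1) = pgf p1 x 1 := by
  have n1 : ‖(1 : ℂ)‖ ≤ 1 := by simp
  have hαβ : (S.α : ℂ) + S.β = 1 := by exact_mod_cast S.hαβ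
  obtain ⟨g1, g1a, -, -, g1c⟩ := S.B1.exists_tilde T.h1
  obtain ⟨g2, g2a, -, -, g2c⟩ := S.B2.exists_tilde T.h2
  have ρ0 := T.rho_nonneg
  have hl : ∀ z : ℂ, ‖z‖ ≤ 1 → ‖S.α * z + S.β * 1‖ ≤ 1 := fun z hz => (S.lin W.fst).bound hz n1
  have hl' : ∀ z : ℂ, ‖1 - (S.α * z + S.β * 1)‖ = S.α * ‖1 - z‖ := by
    intro z
    have : 1 - (S.α * z + S.β * 1) = S.α * (1 - z) := by linear_combination -hαβ
    rw [this, norm_mul, Complex.norm_real, Real.norm_of_nonneg S.hα.le]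
  have z1 : ∀ k, ‖1 - (P.h 1)^[k] x‖ ≤ 2 * (S.α * T.m1) ^ k := by
    intro k
    induction k with
    | zero => simpa using (norm_sub_le 1 x).trans (by rw [norm_one]; linarith)
    | succ k ih =>
      have a0 := hl _ (S.z_le k hx n1)
      rw [Function.iterate_succ_apply', S.h_eq, g1a _ a0, norm_mul, hl']
      have a1 := (g1c _ W.fst).bound a0 n1
      refine (mul_le_mul (mul_le_mul_of_nonneg_left ih S.hα.le) a1 (norm_nonneg _)
        (mul_nonneg S.hα.le (by positivity))).trans (le_of_eq (by ring))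
  have pk : ∀ k, ‖P.prodA k x 1‖ ≤ 1 := fun k => by
    simpa only [Model.prodA, S.A_eq, div_one] using (W.prod1 (fun i => S.W_a (S.W_z i)) k).bound hx n1
  have g := summable_geometric_of_lt_one ρ0 T.rho_lt
  have sm : Summable fun k => P.prodA k x 1 * (P.B ((P.h 1)^[k] x) 1 * pgf p2 ((P.h 1)^[k] x) 0) := by
    refine Summable.of_norm_bounded (g.mul_left (S.α * 2 * T.m2)) fun k => ?_
    have a0 := hl _ (S.z_le k hx n1)
    rw [norm_mul, norm_mul, S.B_eq _ one_ne_zero, div_one, Setup.bb, g2a _ a0, norm_mul, norm_mul, hl']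
    refine (mul_le_of_le_one_left (by have := S.hα; positivity) (pk k)).trans ?_
    refine (mul_le_of_le_one_right (by have := S.hα; positivity)
      ((pgf_W p2).bound (S.z_le k hx n1) (by simp))).trans ?_
    refine (mul_le_of_le_one_left (by have := S.hα; positivity) (S.S2.norm_le a0)).trans ?_
    refine (mul_le_mul (mul_le_mul_of_nonneg_left (z1 k) S.hα.le) ((g2c _ W.fst).bound a0 n1)
      (norm_nonneg _) (mul_nonneg S.hα.le (by positivity))).trans (le_of_eq (by ring))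
  have t1 := sm.hasSum.tendsto_sum_nat
  simp only [S.iter_eq n1 (F := fun x => pgf p1 x 1) (b := fun x => P.B x 1 * pgf p2 x 0)
    (fun _ hx => pgf_eq hst hx (by simp)) hx] at t1
  have t2 : Tendsto (fun k => (P.h 1)^[k] x) atTop (𝓝 1) := by
    rw [← tendsto_sub_nhds_zero_iff]
    refine squeeze_zero_norm (fun k => ?_) (by simpa using g.tendsto_atTop_zero.const_mul 2)
    rw [norm_sub_rev]
    exact z1 k
  have t3 := (pgf_W p1).tendsto (v := fun _ => 1) (fun k => S.z_le k hx n1) (fun _ => n1) t2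
    tendsto_const_nhds
  rw [pgf_one] at t3
  have t4 : Tendsto (fun k => P.prodA k x 1 * (1 - pgf p1 ((P.h 1)^[k] x) 1)) atTop (𝓝 0) := by
    refine squeeze_zero_norm (fun k => ?_) (by simpa using (t3.const_sub 1).norm)
    rw [norm_mul]
    exact mul_le_of_le_one_left (norm_nonneg _) (pk k)
  have t5 := ((t1.const_sub (pgf p1 x 1)).add t4).congr (f₂ := fun k => P.prodA k x 1) fun k => by ring
  rw [t5.limUnder_eq, Model.ser]
  ring

end Setup

/-- the data attached to a model with positive rates -/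
noncomputable def mkSetup (P : Model) (h1 : 0 < P.l1) (h2 : 0 < P.l2)
    (hS : ¬ ((P.S1 : Measure NNReal) = Measure.dirac 0 ∧ (P.S2 : Measure NNReal) = Measure.dirac 0)) :
    Setup P :=
  have e : ∀ x y : ℂ, P.th x y = ((P.l1 + P.l2 : ℝ) : ℂ) *
      (1 - (((P.l1 / (P.l1 + P.l2) : ℝ) : ℂ) * x + ((P.l2 / (P.l1 + P.l2) : ℝ) : ℂ) * y)) := by
    intro x y
    have : (P.l1 : ℂ) + P.l2 ≠ 0 := by exact_mod_cast (add_pos h1 h2).ne'
    rw [Model.th]
    push_cast
    field_simp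
    ring
  { α := P.l1 / (P.l1 + P.l2)
    β := P.l2 / (P.l1 + P.l2)
    q1 := qq P.B1 (P.l1 + P.l2)
    q2 := qq P.B2 (P.l1 + P.l2)
    r1 := qq P.S1 (P.l1 + P.l2)
    r2 := qq P.S2 (P.l1 + P.l2)
    b1 := fun z => lst P.B1 (((P.l1 + P.l2 : ℝ) : ℂ) * (1 - z))
    b2 := fun z => lst P.B2 (((P.l1 + P.l2 : ℝ) : ℂ) * (1 - z))
    s1 := fun z => lst P.S1 (((P.l1 + P.l2 : ℝ) : ℂ) * (1 - z))
    s2 := fun z => lst P.S2 (((P.l1 + P.l2 : ℝ) : ℂ) * (1 - z))
    hα := by positivity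
    hβ := by positivity
    hαβ := by field_simp
    B1 := pg_lst _ (add_pos h1 h2)
    B2 := pg_lst _ (add_pos h1 h2)
    S1 := pg_lst _ (add_pos h1 h2)
    S2 := pg_lst _ (add_pos h1 h2)
    hS := (not_and_or.1 hS).imp (qq_one_pos _ (add_pos h1 h2)) (qq_one_pos _ (add_pos h1 h2))
    eb1 := fun x y => by rw [e]
    eb2 := fun x y => by rw [e]
    es1 := fun x y => by rw [e]
    es2 := fun x y => by rw [e] }

theorem main (P : Model) (h1 : 0 < P.l1) (h2 : 0 < P.l2)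
    (hS : ¬ ((P.S1 : Measure NNReal) = Measure.dirac 0 ∧ (P.S2 : Measure NNReal) = Measure.dirac 0))
    (p1 p2 : PMF (ℕ × ℕ)) (hst : P.Steady p1 p2) :
    (∃ C : ℝ, ∀ᶠ N : ℕ in atTop, (P.M N 1).det ≠ 0 ∧ ∀ x : ℂ, ‖x‖ ≤ 1 →
      ‖P.KN N x - pgf p2 x 0‖ ≤ C * (N + 1) * (P.l1 / (P.l1 + P.l2)) ^ N) ∧
    ∀ x y : ℂ, ‖x‖ ≤ 1 → ‖y‖ ≤ 1 → pgf p1 x y = P.F1 x y ∧ pgf p2 x y = P.F2 x y := by
  set S := mkSetup P h1 h2 hS with hSd
  obtain ⟨T, hT⟩ := S.exists_stable hst
  have hL := add_pos h1 h2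
  have e1 : T.m1 = (P.l1 + P.l2) * mean P.B1 := T.h1.unique (qq_mean _ hL T.h1.summable)
  have e2 : T.m2 = (P.l1 + P.l2) * mean P.B2 := T.h2.unique (qq_mean _ hL T.h2.summable)
  have e3 : T.n1 = (P.l1 + P.l2) * mean P.S1 := T.k1.unique (qq_mean _ hL T.k1.summable)
  have e4 : T.n2 = (P.l1 + P.l2) * mean P.S2 := T.k2.unique (qq_mean _ hL T.k2.summable)
  have eα : S.α = P.l1 / (P.l1 + P.l2) := rfl
  have eβ : S.β = P.l2 / (P.l1 + P.l2) := rfl
  have hκ : pgf p2 1 0 = P.kappa := by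
    have a0 : 1 - S.α * T.m1 - S.β * T.m2 ≠ 0 := by
      have := mul_nonneg S.hβ.le (add_nonneg T.n1_nonneg T.n2_nonneg)
      have := T.st
      linarith
    have a1 : P.kappa = (1 - S.α * T.m1 - S.β * (T.n1 + T.n2 + T.m2)) / (1 - S.α * T.m1 - S.β * T.m2) := by
      rw [Model.kappa, e1, e2, e3, e4, eα, eβ]
      congr 1
      · field_simp; ring
      · field_simp
    rw [a1, Complex.ofReal_div, eq_div_iff (by exact_mod_cast a0), hT]
  obtain ⟨C, hC⟩ := T.conv hst hκ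
  have hK : ∀ x : ℂ, ‖x‖ ≤ 1 → P.K x = pgf p2 x 0 := by
    intro x hx
    refine Tendsto.limUnder_eq (tendsto_sub_nhds_zero_iff.1 ?_)
    refine squeeze_zero_norm' (hC.mono fun N hN => hN.2 x hx) ?_
    have a1 := tendsto_pow_const_mul_const_pow_of_abs_lt_one 1 (r := S.α)
      (by rw [abs_of_pos S.hα]; exact S.α_lt)
    have a2 := tendsto_pow_atTop_nhds_zero_of_lt_one S.hα.le S.α_lt
    have a3 := (a1.add a2).const_mul C
    rw [add_zero, mul_zero] at a3
    exact a3.congr fun N => by ring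
  have hser : ∀ x y : ℂ, ‖x‖ ≤ 1 → ‖y‖ ≤ 1 → P.ser P.K x y = P.ser (fun x => pgf p2 x 0) x y :=
    fun x y hx hy => tsum_congr fun k => by rw [hK _ (S.z_le k hx hy)]
  have hF1 : ∀ x y : ℂ, ‖x‖ ≤ 1 → ‖y‖ ≤ 1 → pgf p1 x y = P.F1 x y := by
    intro x y hx hy
    rw [Model.F1]
    split_ifs with a1 a2
    · exact ((pgf_W p1).cauchy hx a1 fun w hw hw1 => by
        rw [hser x w hx hw.le, Setup.ser_true (S := S) hst hx hw hw1]).symm
    · rw [a2, hser x 1 hx (by simp), T.at_one hst hx]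
    · rw [hser x y hx hy, Setup.ser_true (S := S) hst hx (le_antisymm hy (not_lt.1 a1)) a2]
  refine ⟨⟨C, hC⟩, fun x y hx hy => ⟨hF1 x y hx hy, ?_⟩⟩
  rw [Model.F2, ← hF1 _ y (S.h_le hx hy) hy, (hst x y hx hy).1]

end Pool.Agent.P.MP_386d8e_pr
end
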