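import Pool.Agent.K.MP_386d8e_pr.C0

-- part Pool.Agent.P.MP_386d8e_pr.PoleA
section

set_option autoImplicit false

open Filter Topology Asymptotics Finset

namespace Pool.Agent.P.MP_386d8e_pr

noncomputable section

/-- asymptotic expansion at zero -/
def Ex (f : ℂ → ℂ) (a : ℕ → ℂ) : Prop :=
  ∀ n : ℕ, (fun y => f y - ∑ k ∈ range n, a k * y ^ k) =O[𝓝[≠] (0 : ℂ)] fun y => y ^ n

theorem Ex.congr {f g : ℂ → ℂ} {a b : ℕ → ℂ} (h : Ex f a) (hf : f =ᶠ[𝓝[≠] 0] g)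
    (ha : ∀ k, a k = b k) : Ex g b := by
  intro n
  refine (h n).congr' ?_ EventuallyEq.rfl
  filter_upwards [hf] with y hy
  simp only [hy, ha]

theorem Ex.add {f g : ℂ → ℂ} {a b : ℕ → ℂ} (h : Ex f a) (h' : Ex g b) :
    Ex (fun y => f y + g y) fun k => a k + b k := by
  intro n
  refine ((h n).add (h' n)).congr_left fun y => ?_
  simp only [add_mul, sum_add_distrib]
  ring

theorem Ex.cmul {f : ℂ → ℂ} {a : ℕ → ℂ} (h : Ex f a) (c : ℂ) :
    Ex (fun y => c * f y) fun k => c * a k := by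
  intro n
  refine ((h n).const_mul_left c).congr_left fun y => ?_
  simp only [mul_sub, mul_sum, mul_assoc]

theorem Ex.shift {f : ℂ → ℂ} {a : ℕ → ℂ} (h : Ex f a) :
    Ex (fun y => (f y - a 0) / y) fun k => a (k + 1) := by
  intro n
  have h1 := (h (n + 1)).mul (isBigO_refl (fun y : ℂ => y⁻¹) (𝓝[≠] 0))
  refine h1.congr' ?_ ?_
  · filter_upwards [self_mem_nhdsWithin] with y hy
    have y0 : y ≠ 0 := hy
    rw [sum_range_succ']
    have : ∑ k ∈ range n, a (k + 1) * y ^ (k + 1) = y * ∑ k ∈ range n, a (k + 1) * y ^ k := by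
      rw [mul_sum]
      exact sum_congr rfl fun k _ => by ring
    rw [this]
    field_simp
    ring
  · filter_upwards [self_mem_nhdsWithin] with y hy
    have y0 : y ≠ 0 := hy
    rw [pow_succ, mul_inv_cancel_right₀ y0]

theorem Ex.tendsto {f : ℂ → ℂ} {a : ℕ → ℂ} (h : Ex f a) : Tendsto f (𝓝[≠] 0) (𝓝 (a 0)) := by
  have h0 : Tendsto (fun y : ℂ => y ^ 1) (𝓝[≠] 0) (𝓝 0) := by
    simp only [pow_one]
    exact tendsto_id.mono_left nhdsWithin_le_nhds
  have h1 := (h 1).trans_tendsto h0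
  simpa using h1.add_const (a 0)

theorem Ex.unique {f : ℂ → ℂ} {a b : ℕ → ℂ} (h : Ex f a) (h' : Ex f b) (k : ℕ) : a k = b k := by
  induction k generalizing f a b with
  | zero => exact tendsto_nhds_unique h.tendsto h'.tendsto
  | succ k ih =>
    have e := tendsto_nhds_unique h.tendsto h'.tendsto
    have h2 := h'.shift
    rw [← e] at h2
    exact ih h.shift h2

theorem Ex.const (c : ℂ) : Ex (fun _ => c) fun k => if k = 0 then c else 0 := by
  intro n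
  rcases n with _ | n
  · simp only [range_zero, sum_empty, sub_zero, pow_zero]
    exact isBigO_const_const c (one_ne_zero (α := ℂ)) _
  · refine (isBigO_zero _ _).congr_left fun y => ?_
    rw [sum_range_succ']
    simp

theorem Ex.series {f : ℂ → ℂ} {ψ : ℕ → ℂ → ℂ} {b : ℕ → ℕ → ℂ}
    (h : ∀ n : ℕ, (fun y => f y - ∑ i ∈ range n, ψ i y * y ^ i) =O[𝓝[≠] (0 : ℂ)] fun y => y ^ n)
    (hψ : ∀ i, Ex (ψ i) (b i)) : Ex f fun k => ∑ s ∈ antidiagonal k, b s.1 s.2 := by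
  intro n
  have h1 : (fun y : ℂ => ∑ i ∈ range n, (ψ i y - ∑ l ∈ range (n - i), b i l * y ^ l) * y ^ i)
      =O[𝓝[≠] (0 : ℂ)] fun y => y ^ n := by
    refine IsBigO.fun_sum (A := fun i y => (ψ i y - ∑ l ∈ range (n - i), b i l * y ^ l) * y ^ i)
      fun i hi => ?_
    refine ((hψ i (n - i)).mul (isBigO_refl (fun y : ℂ => y ^ i) _)).congr_right fun y => ?_
    rw [← pow_add, Nat.sub_add_cancel (mem_range.1 hi).le]
  refine ((h n).add h1).congr_left fun y => ?_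
  have e : ∑ k ∈ range n, (∑ s ∈ antidiagonal k, b s.1 s.2) * y ^ k =
      ∑ i ∈ range n, (∑ l ∈ range (n - i), b i l * y ^ l) * y ^ i := by
    simp only [Nat.sum_antidiagonal_eq_sum_range_succ_mk, sum_mul]
    rw [show ∑ i ∈ range n, ∑ l ∈ range (n - i), b i l * y ^ l * y ^ i =
      ∑ i ∈ range n, ∑ l ∈ range (n - i), (fun i l => b i l * y ^ l * y ^ i) i l from rfl,
      ← sum_range_diag_flip]
    refine sum_congr rfl fun k _ => sum_congr rfl fun i hi => ?_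
    rw [mul_assoc, ← pow_add, Nat.sub_add_cancel (Nat.lt_succ_iff.1 (mem_range.1 hi))]
  rw [e]
  simp only [sub_mul, sum_sub_distrib]
  ring

theorem Ex.mul {f g : ℂ → ℂ} {a b : ℕ → ℂ} (h : Ex f a) (h' : Ex g b) :
    Ex (fun y => f y * g y) fun k => ∑ s ∈ antidiagonal k, a s.1 * b s.2 := by
  refine Ex.series (ψ := fun i y => a i * g y) (b := fun i l => a i * b l) (fun n => ?_)
    fun i => h'.cmul (a i)
  have h1 := (h n).mul (h'.tendsto.isBigO_one ℂ)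
  refine h1.congr (fun y => ?_) fun y => mul_one _
  simp only [sub_mul, sum_mul]
  congr 1
  exact sum_congr rfl fun k _ => by ring

theorem Ex.of_analytic {f : ℂ → ℂ} {x : ℂ} (hf : AnalyticAt ℂ f x) (c : ℂ) :
    Ex (fun y => f (x + c * y)) fun l => c ^ l / l.factorial * iteratedDeriv l f x := by
  intro n
  have h1 := hf.hasFPowerSeriesAt.isBigO_sub_partialSum_pow n
  have h2 : Tendsto (fun y : ℂ => c * y) (𝓝[≠] 0) (𝓝 0) := by
    have : Tendsto (fun y : ℂ => c * y) (𝓝 0) (𝓝 (c * 0)) := tendsto_id.const_mul c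
    rw [mul_zero] at this
    exact this.mono_left nhdsWithin_le_nhds
  have h3 := h1.comp_tendsto h2
  refine (h3.congr_left fun y => ?_).trans ?_
  · simp only [Function.comp, FormalMultilinearSeries.partialSum,
      FormalMultilinearSeries.ofScalars_apply_eq, smul_eq_mul]
    congr 1
    exact sum_congr rfl fun k _ => by ring
  · refine IsBigO.of_bound (‖c‖ ^ n) (Eventually.of_forall fun y => ?_)
    simp [mul_pow]

theorem tail_le {a : ℕ → ℂ} {s y : ℂ} (ha : Summable fun k => ‖a k‖) (h1 : ∑' k, ‖a k‖ ≤ 1)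
    (hy : ‖y‖ ≤ 1) (hs : HasSum (fun k => a k * y ^ k) s) (n : ℕ) :
    ‖s - ∑ k ∈ range n, a k * y ^ k‖ ≤ ‖y‖ ^ n := by
  have b1 := (hasSum_nat_add_iff' n).2 hs
  have b2 := ((hasSum_nat_add_iff' n).2 ha.hasSum).mul_right (‖y‖ ^ n)
  refine (b1.norm_le_of_bounded b2 fun k => ?_).trans ?_
  · rw [norm_mul, norm_pow, pow_add]
    refine mul_le_mul_of_nonneg_left ?_ (norm_nonneg _)
    exact mul_le_of_le_one_left (by positivity) (pow_le_one₀ (norm_nonneg _) hy)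
  · refine mul_le_of_le_one_left (by positivity) ?_
    have : 0 ≤ ∑ k ∈ range n, ‖a k‖ := sum_nonneg fun _ _ => norm_nonneg _
    linarith

theorem small : ∀ᶠ y : ℂ in 𝓝[≠] 0, ‖y‖ ≤ 1 :=
  mem_nhdsWithin_of_mem_nhds (by
    filter_upwards [Metric.closedBall_mem_nhds (0 : ℂ) one_pos] with y hy using by simpa using hy)

/-- the coefficient of `y ^ k` in the generating function -/
def col (p : PMF (ℕ × ℕ)) (k : ℕ) (x : ℂ) : ℂ := ∑' i, ((p (i, k)).toReal : ℂ) * x ^ i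

theorem col_norm (p : PMF (ℕ × ℕ)) (k : ℕ) :
    (Summable fun i => ‖((p (i, k)).toReal : ℂ)‖) ∧ ∑' i, ‖((p (i, k)).toReal : ℂ)‖ ≤ 1 := by
  have inj : Function.Injective fun i : ℕ => ((i, k) : ℕ × ℕ) := fun _ _ h => (Prod.ext_iff.1 h).1
  exact ⟨(pmf_norm p).summable.comp_injective inj,
    (tsum_comp_le_tsum_of_inj (pmf_norm p).summable (fun _ => norm_nonneg _) inj).trans
      (pmf_norm p).tsum_eq.le⟩

theorem col_hasSum (p : PMF (ℕ × ℕ)) (k : ℕ) {x : ℂ} (hx : ‖x‖ ≤ 1) :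
    HasSum (fun i => ((p (i, k)).toReal : ℂ) * x ^ i) (col p k x) :=
  (Summable.of_norm_bounded (col_norm p k).1 fun i => by
    rw [norm_mul, norm_pow]
    exact mul_le_of_le_one_right (norm_nonneg _) (pow_le_one₀ (norm_nonneg _) hx)).hasSum

theorem col_ex (p : PMF (ℕ × ℕ)) (k : ℕ) : Ex (col p k) fun i => ((p (i, k)).toReal : ℂ) :=
  fun n => IsBigO.of_bound 1 (small.mono fun y hy => by
    rw [one_mul, norm_pow]
    exact tail_le (col_norm p k).1 (col_norm p k).2 hy (col_hasSum p k hy) n)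

theorem col_diff (p : PMF (ℕ × ℕ)) (k : ℕ) : DifferentiableOn ℂ (col p k) (Metric.ball 0 1) :=
  Complex.differentiableOn_tsum_of_summable_norm (col_norm p k).1
    (fun i => by fun_prop) Metric.isOpen_ball fun i x hx => by
      rw [norm_mul, norm_pow]
      exact mul_le_of_le_one_right (norm_nonneg _)
        (pow_le_one₀ (norm_nonneg _) (mem_ball_zero_iff.1 hx).le)

theorem pgf_tail (p : PMF (ℕ × ℕ)) {x y : ℂ} (hx : ‖x‖ ≤ 1) (hy : ‖y‖ ≤ 1) (n : ℕ) :
    ‖pgf p x y - ∑ k ∈ range n, col p k x * y ^ k‖ ≤ ‖y‖ ^ n := by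
  have a1 : HasSum (fun k => ∑' i, ‖((p (i, k)).toReal : ℂ)‖) 1 :=
    ((Equiv.prodComm ℕ ℕ).hasSum_iff.2 (pmf_norm p)).prod_fiberwise
      fun k => (col_norm p k).1.hasSum
  have a2 : ∀ k, ‖col p k x‖ ≤ ∑' i, ‖((p (i, k)).toReal : ℂ)‖ := fun k =>
    (col_hasSum p k hx).norm_le_of_bounded (col_norm p k).1.hasSum fun i => by
      rw [norm_mul, norm_pow]
      exact mul_le_of_le_one_right (norm_nonneg _) (pow_le_one₀ (norm_nonneg _) hx)
  have a3 : Summable fun k => ‖col p k x‖ :=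
    Summable.of_nonneg_of_le (fun _ => norm_nonneg _) a2 a1.summable
  refine tail_le a3 ((a3.tsum_le_tsum a2 a1.summable).trans a1.tsum_eq.le) hy ?_ n
  exact ((Equiv.prodComm ℕ ℕ).hasSum_iff.2 (pgf_rep p hx hy)).prod_fiberwise fun k =>
    hs_congr ((col_hasSum p k hx).mul_right (y ^ k)) (fun i => by simp [mul_assoc]) rfl

theorem pgf_zero (p : PMF (ℕ × ℕ)) {x : ℂ} (hx : ‖x‖ ≤ 1) : pgf p x 0 = col p 0 x := by
  simpa [sub_eq_zero] using pgf_tail p hx (y := 0) (by simp) 1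

theorem pgf_ex (p : PMF (ℕ × ℕ)) {x : ℂ} (hx : ‖x‖ ≤ 1) : Ex (pgf p x) fun k => col p k x :=
  fun n => IsBigO.of_bound 1 (small.mono fun y hy => by
    rw [one_mul, norm_pow]
    exact pgf_tail p hx hy n)

/-- an analytic extension of a column is the sum of the same series -/
theorem col_ext (p : PMF (ℕ × ℕ)) (k : ℕ) {g : ℂ → ℂ} {R : ℝ} (hg : DifferentiableOn ℂ g (Metric.ball 0 R))
    (he : ∀ x : ℂ, ‖x‖ < 1 → g x = col p k x) {x : ℂ} (hx : ‖x‖ < R) :
    HasSum (fun i => ((p (i, k)).toReal : ℂ) * x ^ i) (g x) := by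
  have R0 : 0 < R := (norm_nonneg _).trans_lt hx
  have a1 : AnalyticAt ℂ g 0 := hg.analyticAt (Metric.ball_mem_nhds _ R0)
  have a2 : Ex (col p k) _ := (Ex.of_analytic a1 1).congr (mem_nhdsWithin_of_mem_nhds (by
    filter_upwards [Metric.ball_mem_nhds (0 : ℂ) one_pos] with y hy
    rw [zero_add, one_mul, he y (mem_ball_zero_iff.1 hy)])) fun _ => rfl
  refine hs_congr (Complex.hasSum_taylorSeries_on_ball hg (mem_ball_zero_iff.2 hx)) (fun i => ?_) rfl
  rw [(col_ex p k).unique a2 i]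
  simp only [one_pow, sub_zero, smul_eq_mul]
  ring

/-- Cauchy product -/
def cp (A B : ℕ → ℂ → ℂ) (k : ℕ) (x : ℂ) : ℂ := ∑ s ∈ antidiagonal k, A s.1 x * B s.2 x

/-- coefficients of `ν / (ν + θ)` in the second variable -/
def geo (a b ν : ℝ) (l : ℕ) (x : ℂ) : ℂ := ν * b ^ l / (ν + a + b - a * x) ^ (l + 1)

/-- coefficients of `∑ G i (x + γ y) y ^ i` -/
def sh (γ : ℝ) (G : ℕ → ℂ → ℂ) (k : ℕ) (x : ℂ) : ℂ :=
  ∑ s ∈ antidiagonal k, (γ : ℂ) ^ s.2 / s.2.factorial * iteratedDeriv s.2 (G s.1) x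

/-- from the first polling instant to the second -/
def two (a b μ ν : ℝ) (G : ℕ → ℂ → ℂ) : ℕ → ℂ → ℂ :=
  cp (geo a b ν) (sh (b / a) fun i z => G i (geo a b μ 0 z))

/-- from the second polling instant to the first -/
def one (a b μ ν : ℝ) (F : ℕ → ℂ → ℂ) : ℕ → ℂ → ℂ :=
  cp (geo a b ν) fun k x => cp (geo a b μ) (fun i => F (i + 1)) k x + if k = 0 then F 0 x else 0

theorem geo_ex {a b ν : ℝ} {x : ℂ} (h : (ν : ℂ) + a + b - a * x ≠ 0) :
    Ex (fun y => ν / (ν + (a * (1 - x) + b * (1 - y)))) fun l => geo a b ν l x := by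
  intro n
  set A : ℂ := ν + a + b - a * x with hA
  have c1 : ContinuousAt (fun y : ℂ => ν * b ^ n / (A ^ n * (A - b * y))) 0 :=
    ContinuousAt.div (by fun_prop) (by fun_prop) (by simp [h])
  have c2 := (c1.tendsto.mono_left (nhdsWithin_le_nhds (s := {0}ᶜ))).isBigO_one ℂ
  have c3 : ∀ᶠ y : ℂ in 𝓝[≠] 0, A - b * y ≠ 0 :=
    mem_nhdsWithin_of_mem_nhds (ContinuousAt.eventually_ne (by fun_prop) (by simpa using h))
  refine (c2.mul (isBigO_refl (fun y : ℂ => y ^ n) _)).congr' ?_ (Eventually.of_forall fun y => one_mul _)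
  filter_upwards [c3] with y hy
  have e : (ν : ℂ) + (a * (1 - x) + b * (1 - y)) = A - b * y := by rw [hA]; ring
  rw [e]
  simp only [geo, ← hA]
  clear c1 c2 c3
  induction n with
  | zero => simp
  | succ n ih =>
    rw [sum_range_succ, ← sub_sub, ← ih]
    field_simp
    ring

theorem den_ne {a b ν : ℝ} (ha : 0 < a) {x : ℂ} (hx : a * ‖x‖ < ν + a + b) :
    (ν : ℂ) + a + b - a * x ≠ 0 := by
  intro h
  have h1 : ((ν + a + b : ℝ) : ℂ) = a * x := by push_cast; linear_combination h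
  have h2 := congrArg norm h1
  rw [norm_mul, Complex.norm_real, Complex.norm_real, Real.norm_of_nonneg ha.le] at h2
  have := le_abs_self (ν + a + b)
  rw [Real.norm_eq_abs] at h2
  linarith

theorem geo_an {a b ν : ℝ} {x : ℂ} (h : (ν : ℂ) + a + b - a * x ≠ 0) (l : ℕ) :
    AnalyticAt ℂ (geo a b ν l) x :=
  AnalyticAt.div (f := fun _ => (ν : ℂ) * b ^ l) (g := fun x => ((ν : ℂ) + a + b - a * x) ^ (l + 1))
    analyticAt_const (by fun_prop) (pow_ne_zero _ h)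

theorem geo_lt {a b μ r : ℝ} (ha : 0 < a) (hμ : 0 < μ) (hr : 0 < r) {x : ℂ}
    (hx : a * ‖x‖ < μ + a + b - μ / r) : ‖geo a b μ 0 x‖ < r := by
  have a0 : 0 < μ / r := div_pos hμ hr
  have a1 : μ + a + b - a * ‖x‖ ≤ ‖(μ : ℂ) + a + b - a * x‖ := by
    have := norm_sub_norm_le ((μ + a + b : ℝ) : ℂ) (a * x)
    rw [norm_mul, Complex.norm_real, Complex.norm_real, Real.norm_of_nonneg ha.le,
      Real.norm_eq_abs] at this
    have h2 := le_abs_self (μ + a + b)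
    push_cast at this
    linarith
  simp only [geo, pow_zero, mul_one, zero_add, pow_one]
  rw [norm_div, Complex.norm_real, Real.norm_of_nonneg hμ.le, div_lt_iff₀ (by linarith), ← div_lt_iff₀' hr]
  linarith

/-- all four laws are exponential -/
structure Expo (P : Model) (μ1 μ2 ν1 ν2 : ℝ) : Prop where
  l1 : 0 < P.l1
  l2 : 0 < P.l2
  m1 : 0 < μ1
  m2 : 0 < μ2
  n1 : 0 < ν1
  n2 : 0 < ν2
  B1 : ∀ s : ℂ, 0 ≤ s.re → lst P.B1 s = μ1 / (μ1 + s)
  B2 : ∀ s : ℂ, 0 ≤ s.re → lst P.B2 s = μ2 / (μ2 + s)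
  S1 : ∀ s : ℂ, 0 ≤ s.re → lst P.S1 s = ν1 / (ν1 + s)
  S2 : ∀ s : ℂ, 0 ≤ s.re → lst P.S2 s = ν2 / (ν2 + s)

variable {P : Model} {μ1 μ2 ν1 ν2 : ℝ} (E : Expo P μ1 μ2 ν1 ν2) {p1 p2 : PMF (ℕ × ℕ)}
  (hst : P.Steady p1 p2)

include E in
theorem Expo.th_re {x y : ℂ} (hx : ‖x‖ ≤ 1) (hy : ‖y‖ ≤ 1) : 0 ≤ (P.th x y).re := by
  have a1 := (Complex.re_le_norm x).trans hx
  have a2 := (Complex.re_le_norm y).trans hy
  have := E.l1
  have := E.l2
  simp only [Model.th, Complex.add_re, Complex.re_ofReal_mul, Complex.sub_re, Complex.one_re]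
  positivity

include E in
theorem Expo.den {ν : ℝ} (hν : 0 < ν) {x : ℂ} (hx : ‖x‖ ≤ 1) :
    (ν : ℂ) + P.l1 + P.l2 - P.l1 * x ≠ 0 :=
  den_ne E.l1 (by nlinarith [E.l1, E.l2])

include E in
theorem Expo.h_lt {x : ℂ} (hx : ‖x‖ ≤ 1) : ‖geo P.l1 P.l2 μ1 0 x‖ < 1 :=
  geo_lt E.l1 E.m1 one_pos (by nlinarith [E.l1, E.l2])

include E hst in
theorem Expo.rec_two (k : ℕ) {x : ℂ} (hx : ‖x‖ ≤ 1) :
    col p2 k x = two P.l1 P.l2 μ1 ν1 (col p1) k x := by
  have l1 : (P.l1 : ℂ) ≠ 0 := by exact_mod_cast E.l1.ne'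
  have hh : ∀ y : ℂ, ‖y‖ ≤ 1 → P.h y x = geo P.l1 P.l2 μ1 0 (x + (P.l2 / P.l1 : ℝ) * y) := by
    intro y hy
    rw [Model.h, E.B1 _ (E.th_re hx hy), geo, Model.th]
    simp only [pow_zero, mul_one, zero_add, pow_one]
    congr 1
    push_cast
    field_simp
    ring
  have hn : ∀ y : ℂ, ‖y‖ ≤ 1 → ‖P.h y x‖ ≤ 1 := by
    intro y hy
    have a1 := E.th_re hx hy
    have a2 := Complex.re_le_norm (μ1 + P.th x y)
    rw [Complex.add_re, Complex.ofReal_re] at a2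
    rw [Model.h, E.B1 _ a1, norm_div, Complex.norm_real, Real.norm_of_nonneg E.m1.le]
    exact div_le_one_of_le₀ (by linarith) (norm_nonneg _)
  have a1 : Ex (fun y => pgf p1 (P.h y x) y)
      fun k => sh (P.l2 / P.l1) (fun i z => col p1 i (geo P.l1 P.l2 μ1 0 z)) k x := by
    refine Ex.series (ψ := fun i y => col p1 i (geo P.l1 P.l2 μ1 0 (x + (P.l2 / P.l1 : ℝ) * y)))
      (b := fun i l => ((P.l2 / P.l1 : ℝ) : ℂ) ^ l / l.factorial *
        iteratedDeriv l (fun z => col p1 i (geo P.l1 P.l2 μ1 0 z)) x)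
      (fun n => IsBigO.of_bound 1 (small.mono fun y hy => ?_)) fun i =>
        Ex.of_analytic (f := fun z => col p1 i (geo P.l1 P.l2 μ1 0 z)) ?_ _
    · rw [one_mul, norm_pow, ← hh y hy]
      exact pgf_tail p1 (hn y hy) hy n
    · exact AnalyticAt.comp (g := col p1 i) ((col_diff p1 i).analyticAt
        (Metric.isOpen_ball.mem_nhds (mem_ball_zero_iff.2 (E.h_lt hx)))) (geo_an (E.den E.m1 hx) 0)
  refine (pgf_ex p2 hx).unique (((geo_ex (E.den E.n1 hx)).mul a1).congr ?_ fun _ => rfl) k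
  filter_upwards [small] with y hy
  rw [(hst x y hx hy).1, E.S1 _ (E.th_re hx hy), Model.th]

include E hst in
theorem Expo.rec_one (k : ℕ) {x : ℂ} (hx : ‖x‖ ≤ 1) :
    col p1 k x = one P.l1 P.l2 μ2 ν2 (col p2) k x := by
  refine (pgf_ex p1 hx).unique (((geo_ex (E.den E.n2 hx)).mul (((geo_ex (E.den E.m2 hx)).mul
    (pgf_ex p2 hx).shift).add (Ex.const (col p2 0 x)))).congr ?_ fun _ => rfl) k
  filter_upwards [small, self_mem_nhdsWithin] with y hy y0
  rw [(hst x y hx hy).2 y0, E.S2 _ (E.th_re hx hy), E.B2 _ (E.th_re hx hy), Model.th, pgf_zero p2 hx]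
  ring

end

end Pool.Agent.P.MP_386d8e_pr
end

-- part Pool.Agent.P.MP_386d8e_pr.PoleB
section

set_option autoImplicit false

open Filter Topology Finset

namespace Pool.Agent.P.MP_386d8e_pr

noncomputable section

/-- `f` is `c / (p - x) ^ n` to leading order at `p` -/
def Rep (p : ℂ) (n : ℕ) (c : ℂ) (f : ℂ → ℂ) : Prop :=
  ∃ g : ℂ → ℂ, AnalyticAt ℂ g p ∧ g p = c ∧ ∀ᶠ x in 𝓝[≠] p, f x = g x / (p - x) ^ n

namespace Rep

variable {p c d : ℂ} {n m : ℕ} {f g : ℂ → ℂ}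

theorem congr (h : Rep p n c f) (hf : f =ᶠ[𝓝[≠] p] g) (hn : n = m) (hc : c = d) : Rep p m d g := by
  obtain ⟨u, a1, a2, a3⟩ := h
  refine ⟨u, a1, a2.trans hc, ?_⟩
  filter_upwards [a3, hf] with x h1 h2
  rw [← h2, h1, hn]

theorem of_analytic (h : AnalyticAt ℂ f p) : Rep p 0 (f p) f :=
  ⟨f, h, rfl, Eventually.of_forall fun x => by simp⟩

theorem zero : Rep p n 0 fun _ => 0 :=
  ⟨fun _ => 0, analyticAt_const, rfl, Eventually.of_forall fun x => by simp⟩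

theorem add (h : Rep p n c f) (h' : Rep p n d g) : Rep p n (c + d) fun x => f x + g x := by
  obtain ⟨u, a1, a2, a3⟩ := h
  obtain ⟨v, b1, b2, b3⟩ := h'
  refine ⟨fun x => u x + v x, a1.add b1, by simp only [a2, b2], ?_⟩
  filter_upwards [a3, b3] with x h1 h2
  rw [h1, h2, add_div]

theorem mul (h : Rep p n c f) (h' : Rep p m d g) : Rep p (n + m) (c * d) fun x => f x * g x := by
  obtain ⟨u, a1, a2, a3⟩ := h
  obtain ⟨v, b1, b2, b3⟩ := h'
  refine ⟨fun x => u x * v x, a1.mul b1, by simp only [a2, b2], ?_⟩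
  filter_upwards [a3, b3] with x h1 h2
  rw [h1, h2, pow_add, div_mul_div_comm]

theorem cmul (h : Rep p n c f) (a : ℂ) : Rep p n (a * c) fun x => a * f x :=
  ((of_analytic (f := fun _ => a) analyticAt_const).mul h).congr EventuallyEq.rfl (zero_add n) rfl

theorem raise (h : Rep p n c f) (hm : n < m) : Rep p m 0 f := by
  obtain ⟨u, a1, -, a3⟩ := h
  obtain ⟨k, rfl⟩ := Nat.exists_eq_add_of_lt hm
  refine ⟨fun x => u x * (p - x) ^ (k + 1), a1.mul (by fun_prop), by simp, ?_⟩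
  filter_upwards [a3, self_mem_nhdsWithin] with x h1 h2
  have : p - x ≠ 0 := sub_ne_zero.2 (Ne.symm h2)
  rw [h1]
  field_simp
  ring

theorem sum {ι : Type} (s : Finset ι) {c : ι → ℂ} {f : ι → ℂ → ℂ} (h : ∀ i ∈ s, Rep p n (c i) (f i)) :
    Rep p n (∑ i ∈ s, c i) fun x => ∑ i ∈ s, f i x := by
  classical
  induction s using Finset.induction_on with
  | empty => simpa using zero
  | insert a s ha ih =>
    simp only [sum_insert ha]
    exact (h a (mem_insert_self _ _)).add (ih fun i hi => h i (mem_insert_of_mem hi))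

theorem deriv (h : Rep p n c f) : Rep p (n + 1) (n * c) (deriv f) := by
  obtain ⟨u, a1, a2, a3⟩ := h
  refine ⟨fun x => _root_.deriv u x * (p - x) + n * u x, (a1.deriv.mul (by fun_prop)).add
    (analyticAt_const.mul a1), by simp [a2], ?_⟩
  have a4 : ∀ᶠ x in 𝓝[≠] p, f =ᶠ[𝓝 x] fun x => u x / (p - x) ^ n := by
    filter_upwards [(eventually_eventually_nhdsWithin).2 a3, self_mem_nhdsWithin] with x h1 h2
    rwa [nhdsWithin_eq_nhds.2 (isOpen_compl_singleton.mem_nhds h2)] at h1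
  filter_upwards [a4, self_mem_nhdsWithin, mem_nhdsWithin_of_mem_nhds a1.eventually_analyticAt]
    with x h1 h2 h3
  have x0 : p - x ≠ 0 := sub_ne_zero.2 (Ne.symm h2)
  have d1 : HasDerivAt (fun x => (p - x) ^ n) (n * (p - x) ^ (n - 1) * (-1)) x :=
    ((hasDerivAt_id' x).const_sub p).fun_pow n
  rw [h1.deriv_eq, ((AnalyticAt.differentiableAt h3).hasDerivAt.fun_div d1 (pow_ne_zero _ x0)).deriv]
  rcases n with _ | n
  · simp only [pow_zero, Nat.cast_zero, zero_mul, zero_add, pow_one, add_zero, mul_zero, sub_zero,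
      one_pow]
    field_simp
  · rw [Nat.add_sub_cancel]
    field_simp
    ring

theorem iter (h : Rep p n c f) (l : ℕ) :
    Rep p (n + l) (n.ascFactorial l * c) (iteratedDeriv l f) := by
  induction l with
  | zero => simpa using h
  | succ l ih =>
    rw [iteratedDeriv_succ]
    refine ih.deriv.congr EventuallyEq.rfl (add_assoc _ _ _) ?_
    rw [Nat.ascFactorial_succ]
    push_cast
    ring

theorem comp {H q : ℂ → ℂ} {p' : ℂ} (h : Rep p n c f) (hH : AnalyticAt ℂ H p') (hp : H p' = p)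
    (hq : AnalyticAt ℂ q p') (hq0 : q p' ≠ 0) (he : ∀ᶠ x in 𝓝 p', p - H x = (p' - x) * q x) :
    Rep p' n (c / q p' ^ n) fun x => f (H x) := by
  obtain ⟨u, a1, a2, a3⟩ := h
  have q1 : ∀ᶠ x in 𝓝 p', q x ≠ 0 := hq.continuousAt.eventually_ne hq0
  have t1 : Tendsto H (𝓝[≠] p') (𝓝[≠] p) := by
    refine tendsto_nhdsWithin_iff.2 ⟨hp ▸ hH.continuousAt.tendsto.mono_left nhdsWithin_le_nhds, ?_⟩
    filter_upwards [self_mem_nhdsWithin, mem_nhdsWithin_of_mem_nhds q1, mem_nhdsWithin_of_mem_nhds he]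
      with x h1 h2 h3 h4
    have : H x = p := h4
    rw [this, sub_self] at h3
    exact mul_ne_zero (sub_ne_zero.2 (Ne.symm h1)) h2 h3.symm
  refine ⟨fun x => u (H x) / q x ^ n, (AnalyticAt.comp (g := u) (hp ▸ a1) hH).div (hq.pow n)
    (pow_ne_zero _ hq0), by simp only [hp, a2], ?_⟩
  filter_upwards [t1.eventually a3, mem_nhdsWithin_of_mem_nhds he] with x h1 h2
  rw [h1, show p - H x = (p' - x) * q x from h2, mul_pow, div_div, mul_comm]

theorem order (h : Rep p n c f) (hc : c ≠ 0) : meromorphicOrderAt f p = (-(n : ℤ) : ℤ) := by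
  obtain ⟨u, a1, a2, a3⟩ := h
  have e : ∀ᶠ x in 𝓝[≠] p, f x = (x - p) ^ (-(n : ℤ)) • (u x * (-1) ^ n) := by
    filter_upwards [a3] with x h1
    rw [h1, ← neg_sub x p, neg_pow, zpow_neg, zpow_natCast, smul_eq_mul, div_mul_eq_div_div,
      div_eq_mul_inv (u x), ← inv_pow, inv_neg, inv_one, div_eq_inv_mul]
  have a4 : AnalyticAt ℂ (fun x => u x * (-1) ^ n) p := a1.mul analyticAt_const
  refine (meromorphicOrderAt_eq_int_iff ?_).2 ⟨_, a4, by simp [a2, hc], e⟩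
  exact MeromorphicAt.iff_eventuallyEq_zpow_smul_analyticAt.2 ⟨_, _, a4, e⟩

end Rep

/-- leading terms of a family, all of one sign -/
def Pos (t : ℕ) (p : ℂ) (d : ℕ) (G : ℕ → ℂ → ℂ) : Prop :=
  ∃ (e : ℂ) (c : ℕ → ℝ), e ≠ 0 ∧ (∀ k, 0 ≤ c k) ∧ 0 < c 0 ∧ 0 < c t ∧
    ∀ k, Rep p (d + k) (e * c k) (G k)

namespace Pos

variable {p : ℂ} {d d' t t' : ℕ} {G G' : ℕ → ℂ → ℂ}

theorem weak (h : Pos t p d G) : Pos 0 p d G := by
  obtain ⟨e, c, a1, a2, a3, -, a5⟩ := h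
  exact ⟨e, c, a1, a2, a3, a3, a5⟩

theorem congr (h : Pos t p d G) (hG : ∀ k, G k =ᶠ[𝓝 p] G' k) : Pos t p d G' := by
  obtain ⟨e, c, a1, a2, a3, a4, a5⟩ := h
  exact ⟨e, c, a1, a2, a3, a4, fun k => (a5 k).congr ((hG k).filter_mono nhdsWithin_le_nhds) rfl rfl⟩

theorem order (h : Pos t p d G) : meromorphicOrderAt (G 0) p = (-(d : ℤ) : ℤ) := by
  obtain ⟨e, c, a1, -, a3, -, a5⟩ := h
  exact (a5 0).order (mul_ne_zero a1 (by exact_mod_cast a3.ne'))

theorem of_analytic (h : ∀ k, AnalyticAt ℂ (G k) p) (h0 : G 0 p ≠ 0) : Pos 0 p 0 G := by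
  refine ⟨G 0 p, fun k => if k = 0 then 1 else 0, h0, fun k => by dsimp only; split_ifs <;> simp, by simp,
    by simp, fun k => ?_⟩
  rcases k with _ | k
  · simpa using Rep.of_analytic (h 0)
  · simpa using (Rep.of_analytic (h (k + 1))).raise (Nat.succ_pos k)

theorem cp (h : Pos t p d G) (h' : Pos t' p d' G') : Pos (t + t') p (d + d') (cp G G') := by
  obtain ⟨e, c, a1, a2, a3, a4, a5⟩ := h
  obtain ⟨e', c', b1, b2, b3, b4, b5⟩ := h'
  refine ⟨e * e', fun k => ∑ s ∈ antidiagonal k, c s.1 * c' s.2, mul_ne_zero a1 b1,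
    fun k => sum_nonneg fun s _ => mul_nonneg (a2 _) (b2 _), by simpa using mul_pos a3 b3,
    sum_pos' (fun s _ => mul_nonneg (a2 _) (b2 _)) ⟨(t, t'), by simp, mul_pos a4 b4⟩, fun k => ?_⟩
  refine (Rep.sum (antidiagonal k) (n := d + d' + k) (c := fun s => e * c s.1 * (e' * c' s.2))
    (f := fun s x => G s.1 x * G' s.2 x) fun s hs => ((a5 s.1).mul (b5 s.2)).congr EventuallyEq.rfl
      (by have := mem_antidiagonal.1 hs; omega) rfl).congr EventuallyEq.rfl rfl ?_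
  push_cast
  rw [mul_sum]
  exact sum_congr rfl fun s _ => by ring

theorem sh {γ : ℝ} (hγ : 0 < γ) (h : Pos 0 p d G) (hd : 0 < d) : Pos 1 p d (sh γ G) := by
  obtain ⟨e, c, a1, a2, a3, -, a5⟩ := h
  have b1 : ∀ s : ℕ × ℕ, 0 ≤ γ ^ s.2 / s.2.factorial * ((d + s.1).ascFactorial s.2 * c s.1) :=
    fun s => by have := a2 s.1; positivity
  refine ⟨e, fun k => ∑ s ∈ antidiagonal k,
    γ ^ s.2 / s.2.factorial * ((d + s.1).ascFactorial s.2 * c s.1), a1,
    fun k => sum_nonneg fun s _ => b1 s, by simpa using a3,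
    sum_pos' (fun s _ => b1 s) ⟨(0, 1), by simp, by
      have : (0 : ℝ) < ((d + 0).ascFactorial 1 : ℕ) := by simpa [Nat.ascFactorial_succ] using hd
      positivity⟩, fun k => ?_⟩
  refine (Rep.sum (antidiagonal k) (n := d + k)
    (c := fun s => (γ : ℂ) ^ s.2 / s.2.factorial * ((d + s.1).ascFactorial s.2 * (e * c s.1)))
    (f := fun s x => (γ : ℂ) ^ s.2 / s.2.factorial * iteratedDeriv s.2 (G s.1) x)
    fun s hs => (((a5 s.1).iter s.2).cmul _).congr EventuallyEq.rfl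
      (by have := mem_antidiagonal.1 hs; omega) rfl).congr EventuallyEq.rfl rfl ?_
  push_cast
  rw [mul_sum]
  exact sum_congr rfl fun s _ => by ring

theorem shift (h : Pos 1 p d G) : Pos 0 p (d + 1) fun i => G (i + 1) := by
  obtain ⟨e, c, a1, a2, -, a4, a5⟩ := h
  exact ⟨e, fun i => c (i + 1), a1, fun _ => a2 _, a4, a4,
    fun k => (a5 (k + 1)).congr EventuallyEq.rfl (by omega) rfl⟩

theorem add_low {f : ℂ → ℂ} {c : ℂ} (h : Pos t p d G) (hf : Rep p d' c f) (hd : d' < d) :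
    Pos t p d fun k x => G k x + if k = 0 then f x else 0 := by
  obtain ⟨e, c, a1, a2, a3, a4, a5⟩ := h
  refine ⟨e, c, a1, a2, a3, a4, fun k => ?_⟩
  rcases k with _ | k
  · simpa using (a5 0).add (hf.raise hd)
  · simpa using a5 (k + 1)

theorem comp {H q : ℂ → ℂ} {p' : ℂ} {m : ℝ} (h : Pos 0 p d G) (hH : AnalyticAt ℂ H p') (hp : H p' = p)
    (hq : AnalyticAt ℂ q p') (hm : 0 < m) (hq0 : q p' = m)
    (he : ∀ᶠ x in 𝓝 p', p - H x = (p' - x) * q x) : Pos 0 p' d fun i x => G i (H x) := by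
  obtain ⟨e, c, a1, a2, a3, -, a5⟩ := h
  refine ⟨e, fun k => c k / m ^ (d + k), a1, fun k => by have := a2 k; positivity, by positivity,
    by positivity, fun k => ((a5 k).comp hH hp hq (by rw [hq0]; exact_mod_cast hm.ne') he).congr
      EventuallyEq.rfl rfl ?_⟩
  rw [hq0]
  push_cast
  ring

theorem geo_pole {a b ν : ℝ} (ha : 0 < a) (hb : 0 < b) (hν : 0 < ν)
    (h : (ν : ℂ) + a + b - a * p = 0) : Pos 1 p 1 (geo a b ν) := by
  have a0 : (a : ℂ) ≠ 0 := by exact_mod_cast ha.ne'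
  refine ⟨1, fun l => ν * b ^ l / a ^ (l + 1), one_ne_zero, fun l => by positivity, by positivity,
    by positivity, fun l => ⟨fun _ => ν * b ^ l / a ^ (l + 1), analyticAt_const, by push_cast; ring,
      Eventually.of_forall fun x => ?_⟩⟩
  rw [geo, show (ν : ℂ) + a + b - a * x = a * (p - x) by linear_combination h, mul_pow, div_div,
    add_comm 1 l]

theorem geo_reg {a b ν : ℝ} (hν : 0 < ν) (h : (ν : ℂ) + a + b - a * p ≠ 0) :
    Pos 0 p 0 (geo a b ν) :=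
  of_analytic (geo_an h) (div_ne_zero (by simpa using hν.ne') (pow_ne_zero _ h))

theorem geo_any {a b ν : ℝ} (ha : 0 < a) (hb : 0 < b) (hν : 0 < ν) : ∃ d, Pos 0 p d (geo a b ν) := by
  by_cases h : (ν : ℂ) + a + b - a * p = 0
  · exact ⟨1, (geo_pole ha hb hν h).weak⟩
  · exact ⟨0, geo_reg hν h⟩

/-- division by the second variable raises the order -/
theorem one {a b μ ν : ℝ} (ha : 0 < a) (hb : 0 < b) (hμ : 0 < μ) (hν : 0 < ν) (h : Pos 1 p d G) :
    ∃ e, d < e ∧ Pos 0 p e (one a b μ ν G) := by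
  obtain ⟨d1, h1⟩ := geo_any (p := p) ha hb hμ
  obtain ⟨d2, h2⟩ := geo_any (p := p) ha hb hν
  obtain ⟨e, c, -, -, -, -, a5⟩ := id h
  exact ⟨_, by omega, h2.cp ((h1.cp h.shift).add_low (a5 0) (by omega))⟩

end Pos

end

end Pool.Agent.P.MP_386d8e_pr
end

-- part Pool.Agent.P.MP_386d8e_pr.PoleC
section

set_option autoImplicit false

open Filter Topology Finset MeasureTheory

namespace Pool.Agent.P.MP_386d8e_pr

noncomputable section

section
variable {a b μ ν : ℝ} {G G' : ℕ → ℂ → ℂ} {x : ℂ}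

theorem cp_mero (h : ∀ k, MeromorphicAt (G k) x) (h' : ∀ k, MeromorphicAt (G' k) x) (k : ℕ) :
    MeromorphicAt (cp G G' k) x :=
  MeromorphicAt.fun_sum (G := fun s : ℕ × ℕ => fun x => G s.1 x * G' s.2 x) fun s _ =>
    (h s.1).mul (h' s.2)

theorem cp_an (h : ∀ k, AnalyticAt ℂ (G k) x) (h' : ∀ k, AnalyticAt ℂ (G' k) x) (k : ℕ) :
    AnalyticAt ℂ (cp G G' k) x :=
  Finset.analyticAt_fun_sum (f := fun s : ℕ × ℕ => fun x => G s.1 x * G' s.2 x) _ fun s _ =>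
    (h s.1).mul (h' s.2)

theorem sh_mero (h : ∀ k, MeromorphicAt (G k) x) (k : ℕ) : MeromorphicAt (sh a G k) x :=
  MeromorphicAt.fun_sum (G := fun s : ℕ × ℕ => fun x =>
    (a : ℂ) ^ s.2 / s.2.factorial * iteratedDeriv s.2 (G s.1) x) fun s _ =>
      (MeromorphicAt.const _ _).mul (by
        rw [iteratedDeriv_eq_iterate]
        exact (h s.1).iterated_deriv)

theorem sh_an (h : ∀ k, AnalyticAt ℂ (G k) x) (k : ℕ) : AnalyticAt ℂ (sh a G k) x :=
  Finset.analyticAt_fun_sum (f := fun s : ℕ × ℕ => fun x =>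
    (a : ℂ) ^ s.2 / s.2.factorial * iteratedDeriv s.2 (G s.1) x) _ fun s _ =>
      analyticAt_const.mul (by
        rw [iteratedDeriv_eq_iterate]
        exact (h s.1).iterated_deriv _)

theorem geo_mero (l : ℕ) : MeromorphicAt (geo a b ν l) x :=
  MeromorphicAt.div (f := fun _ => (ν : ℂ) * b ^ l) (g := fun x => ((ν : ℂ) + a + b - a * x) ^ (l + 1))
    (MeromorphicAt.const _ _) (AnalyticAt.meromorphicAt (by fun_prop))

theorem two_mero (hμ : (μ : ℂ) + a + b - a * x ≠ 0) (h : ∀ k, MeromorphicAt (G k) (geo a b μ 0 x))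
    (k : ℕ) : MeromorphicAt (two a b μ ν G k) x :=
  cp_mero geo_mero (sh_mero fun i => (h i).comp_analyticAt (geo_an hμ 0)) k

theorem comp_an (hμ : (μ : ℂ) + a + b - a * x ≠ 0) (h : ∀ k, AnalyticAt ℂ (G k) (geo a b μ 0 x))
    (k : ℕ) : AnalyticAt ℂ (sh (b / a) (fun i z => G i (geo a b μ 0 z)) k) x :=
  sh_an (fun i => AnalyticAt.comp (g := G i) (h i) (geo_an hμ 0)) k

theorem two_an (hμ : (μ : ℂ) + a + b - a * x ≠ 0) (hν : (ν : ℂ) + a + b - a * x ≠ 0)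
    (h : ∀ k, AnalyticAt ℂ (G k) (geo a b μ 0 x)) (k : ℕ) : AnalyticAt ℂ (two a b μ ν G k) x :=
  cp_an (geo_an hν) (comp_an hμ h) k

theorem one_mero (h : ∀ k, MeromorphicAt (G k) x) (k : ℕ) : MeromorphicAt (one a b μ ν G k) x :=
  cp_mero geo_mero (fun k => (cp_mero geo_mero (fun i => h (i + 1)) k).add (by
    by_cases hk : k = 0
    · simpa only [if_pos hk] using h 0
    · simpa only [if_neg hk] using MeromorphicAt.const _ _)) k

theorem mid_an (hμ : (μ : ℂ) + a + b - a * x ≠ 0) (h : ∀ k, AnalyticAt ℂ (G k) x) (k : ℕ) :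
    AnalyticAt ℂ (fun x => cp (geo a b μ) (fun i => G (i + 1)) k x + if k = 0 then G 0 x else 0) x :=
  (cp_an (geo_an hμ) (fun i => h (i + 1)) k).add (by
    by_cases hk : k = 0
    · simpa only [if_pos hk] using h 0
    · simpa only [if_neg hk] using analyticAt_const)

theorem one_an (hμ : (μ : ℂ) + a + b - a * x ≠ 0) (hν : (ν : ℂ) + a + b - a * x ≠ 0)
    (h : ∀ k, AnalyticAt ℂ (G k) x) (k : ℕ) : AnalyticAt ℂ (one a b μ ν G k) x :=
  cp_an (geo_an hν) (mid_an hμ h) k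

theorem one_congr (h : ∀ k, G k x = G' k x) (k : ℕ) : one a b μ ν G k x = one a b μ ν G' k x := by
  simp only [one, cp, h]

theorem two_congr (hμ : (μ : ℂ) + a + b - a * x ≠ 0) (h : ∀ k, G k =ᶠ[𝓝 (geo a b μ 0 x)] G' k)
    (k : ℕ) : two a b μ ν G k x = two a b μ ν G' k x := by
  have : ∀ i l, iteratedDeriv l (fun z => G i (geo a b μ 0 z)) x =
      iteratedDeriv l (fun z => G' i (geo a b μ 0 z)) x := fun i l =>
    EventuallyEq.iteratedDeriv_eq l ((geo_an hμ 0).continuousAt.tendsto.eventually (h i))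
  simp only [two, cp, sh, this]

theorem two_zero : two a b μ ν G 0 x = geo a b ν 0 x * G 0 (geo a b μ 0 x) := by
  simp [two, cp, sh]

end

theorem ev_ball {f g : ℂ → ℂ} {r : ℝ} (h : ∀ x : ℂ, ‖x‖ < r → f x = g x) {x : ℂ} (hx : ‖x‖ < r) :
    f =ᶠ[𝓝 x] g := by
  filter_upwards [Metric.isOpen_ball.mem_nhds (mem_ball_zero_iff.2 hx)] with y hy
  exact h y (mem_ball_zero_iff.1 hy)

/-- the inverse of `h (·, 0)` -/
def back (a b μ r : ℝ) : ℝ := (μ + a + b - μ / r) / a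

theorem back_gap {a b μ X r : ℝ} (ha : 0 < a) (hμ : 0 < μ) (h1 : 1 < X)
    (hX : μ = X * (μ + a + b - a * X)) (r1 : 1 ≤ r) (rX : r < X) :
    r + b / (a * (X - 1)) * (X - r) ≤ back a b μ r ∧ back a b μ r < X := by
  have X0 : 0 < X := by linarith
  have r0 : 0 < r := by linarith
  have e1 : μ + a + b = a * X + μ / X := by field_simp; linarith
  have e2 : b / (a * (X - 1)) = 1 - μ / (a * X) := by
    have : X - 1 ≠ 0 := by linarith
    field_simp
    linarith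
  constructor
  · have e3 : back a b μ r = r + (1 - μ / (a * X) / r) * (X - r) := by
      rw [back, e1]
      field_simp
      ring
    rw [e2, e3]
    have : μ / (a * X) / r ≤ μ / (a * X) := div_le_self (by positivity) r1
    nlinarith
  · rw [back, e1, div_lt_iff₀ ha]
    have : μ / X < μ / r := div_lt_div_of_pos_left hμ r0 rX
    linarith

theorem back_lt {a b μ r : ℝ} (ha : 0 < a) (hμ : 0 < μ) (hr : 0 < r) {x : ℂ} (hx : ‖x‖ < back a b μ r) :
    (μ : ℂ) + a + b - a * x ≠ 0 ∧ ‖geo a b μ 0 x‖ < r := by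
  rw [back, lt_div_iff₀' ha] at hx
  exact ⟨den_ne ha (by have := div_pos hμ hr; linarith), geo_lt ha hμ hr hx⟩

theorem val_pos {q : ℕ → ℝ} (hq : ∀ i, 0 ≤ q i) {t : ℝ} (ht : 0 < t) {v : ℂ}
    (h : HasSum (fun i => (q i : ℂ) * (t : ℂ) ^ i) v) {i : ℕ} (hi : 0 < q i) :
    ∃ r : ℝ, 0 < r ∧ v = r := by
  have h1 : HasSum (fun i => q i * t ^ i) v.re :=
    hs_congr (Complex.hasSum_re h) (fun i => by
      rw [← Complex.ofReal_pow, ← Complex.ofReal_mul, Complex.ofReal_re]) rfl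
  refine ⟨v.re, lt_of_lt_of_le (by positivity) (le_hasSum h1 i fun j _ => by have := hq j; positivity), ?_⟩
  exact h.unique (hs_congr (Complex.hasSum_ofReal.2 h1) (fun i => by simp) rfl)

variable {P : Model} {μ1 μ2 ν1 ν2 : ℝ} (E : Expo P μ1 μ2 ν1 ν2) {p1 p2 : PMF (ℕ × ℕ)}
  (hst : P.Steady p1 p2)

include E hst in
theorem Expo.pos20 : ∃ i, 0 < (p2 (i, 0)).toReal := by
  have hS : ¬ ((P.S1 : Measure NNReal) = Measure.dirac 0 ∧ (P.S2 : Measure NNReal) = Measure.dirac 0) := by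
    rintro ⟨h, -⟩
    have a1 := E.S1 1 (by simp)
    have a2 : (ν1 : ℂ) + 1 ≠ 0 := by exact_mod_cast (add_pos E.n1 one_pos).ne'
    rw [lst, h, integral_dirac, eq_div_iff a2] at a1
    simp at a1
  obtain ⟨T, hT⟩ := (mkSetup P E.l1 E.l2 hS).exists_stable hst
  by_contra h
  have h0 : ∀ i, (p2 (i, 0)).toReal = 0 := fun i =>
    le_antisymm (not_lt.1 fun hi => h ⟨i, hi⟩) ENNReal.toReal_nonneg
  rw [pgf_zero p2 (by simp), col] at hT
  simp only [h0, Complex.ofReal_zero, zero_mul, tsum_zero] at hT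
  have := Complex.ofReal_eq_zero.1 hT.symm
  linarith [T.st]

include E hst in
theorem Expo.pos10 : ∃ i, 0 < (p1 (i, 0)).toReal := by
  obtain ⟨i, hi⟩ := E.pos20 hst
  by_contra h
  have h0 : ∀ i, (p1 (i, 0)).toReal = 0 := fun i =>
    le_antisymm (not_lt.1 fun hi => h ⟨i, hi⟩) ENNReal.toReal_nonneg
  obtain ⟨r, r0, hr⟩ := val_pos (fun _ => ENNReal.toReal_nonneg) one_pos
    (col_hasSum p2 0 (x := (1 : ℝ)) (by simp)) hi
  rw [E.rec_two hst 0 (by simp), two_zero, col] at hr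
  simp only [h0, Complex.ofReal_zero, zero_mul, tsum_zero, mul_zero] at hr
  exact r0.ne' (Complex.ofReal_eq_zero.1 hr.symm)

include E hst in
theorem Expo.pos21 : ∃ i, 0 < (p2 (i, 1)).toReal := by
  obtain ⟨i, hi⟩ := E.pos10 hst
  have l1 := E.l1
  have l2 := E.l2
  have m1 := E.m1
  have n1 := E.n1
  by_contra h
  have h0 : ∀ i, (p2 (i, 1)).toReal = 0 := fun i =>
    le_antisymm (not_lt.1 fun hi => h ⟨i, hi⟩) ENNReal.toReal_nonneg
  have key : ∀ y : ℝ, 0 ≤ y → y ≤ 1 → ∃ r : ℝ,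
      pgf p2 0 y = ((ν1 / (ν1 + P.l1 + P.l2 * (1 - y)) * r : ℝ) : ℂ) ∧
      HasSum (fun s : ℕ × ℕ => (p1 s).toReal *
        ((μ1 / (μ1 + P.l1 + P.l2 * (1 - y))) ^ s.1 * y ^ s.2)) r := by
    intro y y0 y1
    have : 0 ≤ P.l2 * (1 - y) := mul_nonneg l2.le (by linarith)
    obtain ⟨r, hr, hr'⟩ := pgf_real p1 (x := μ1 / (μ1 + P.l1 + P.l2 * (1 - y))) (by positivity)
      (div_le_one_of_le₀ (by linarith) (by positivity)) y0 y1
    refine ⟨r, ?_, hr'⟩
    have a1 := E.th_re (x := 0) (by simp) (nrm y0 y1)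
    rw [(hst 0 y (by simp) (nrm y0 y1)).1, Model.h, E.S1 _ a1, E.B1 _ a1, Complex.ofReal_mul, hr,
      Model.th]
    push_cast
    simp only [sub_zero, mul_one, add_assoc]
  obtain ⟨r0, e0, s0⟩ := key 0 le_rfl zero_le_one
  have r00 : 0 < r0 := lt_of_lt_of_le (by positivity) (le_hasSum s0 (i, 0) fun s _ => by positivity)
  set A := ν1 + P.l1 + P.l2 with hA
  have A0 : 0 < A := by positivity
  set κ := ν1 * r0 * P.l2 / A ^ 2 with hκ
  have κ0 : 0 < κ := by positivity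
  set y := min 1 (κ / 2) with hy
  have y0 : 0 < y := lt_min one_pos (by positivity)
  have y1 : y ≤ 1 := min_le_left _ _
  have y2 : y ≤ κ / 2 := min_le_right _ _
  obtain ⟨r, e1, s1⟩ := key y y0.le y1
  have b0 : 0 ≤ P.l2 * (1 - y) := mul_nonneg l2.le (by linarith)
  have b1 : r0 ≤ r := hasSum_le (fun s => by gcongr) s0 s1
  have b2 := pgf_tail p2 (x := 0) (by simp) (nrm y0.le y1) 2
  have b3 : col p2 1 0 = 0 := by simp only [col, h0, Complex.ofReal_zero, zero_mul, tsum_zero]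
  rw [sum_range_succ, sum_range_one, b3, zero_mul, add_zero, pow_zero, mul_one,
    ← pgf_zero p2 (by simp), e1] at b2
  rw [Complex.ofReal_zero] at e0
  rw [e0, ← Complex.ofReal_sub, Complex.norm_real, Complex.norm_real, Real.norm_of_nonneg y0.le,
    Real.norm_eq_abs] at b2
  have b4 := (le_abs_self _).trans b2
  have e2 : ν1 + P.l1 + P.l2 * (1 - y) = A - P.l2 * y := by rw [hA]; ring
  have e3 : ν1 + P.l1 + P.l2 * (1 - 0) = A := by rw [hA]; ring
  have b5 : 0 < A - P.l2 * y := by rw [← e2]; positivity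
  rw [e2, e3] at b4
  have b6 : ν1 / A * r0 + κ * y ≤ ν1 / (A - P.l2 * y) * r0 := by
    rw [hκ, div_mul_eq_mul_div ν1 (A - P.l2 * y), le_div_iff₀ b5]
    have : (ν1 / A * r0 + ν1 * r0 * P.l2 / A ^ 2 * y) * (A - P.l2 * y) =
        ν1 * r0 - ν1 * r0 * (P.l2 * y / A) ^ 2 := by field_simp; ring
    rw [this]
    have : 0 ≤ ν1 * r0 * (P.l2 * y / A) ^ 2 := by positivity
    linarith
  have b7 : ν1 / (A - P.l2 * y) * r0 ≤ ν1 / (A - P.l2 * y) * r :=
    mul_le_mul_of_nonneg_left b1 (by positivity)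
  nlinarith

end

end Pool.Agent.P.MP_386d8e_pr
end

-- part Pool.Agent.P.MP_386d8e_pr.PoleD
section

set_option autoImplicit false

open Filter Topology Finset MeasureTheory

namespace Pool.Agent.P.MP_386d8e_pr

noncomputable section

variable {P : Model} {μ1 μ2 ν1 ν2 X : ℝ} (E : Expo P μ1 μ2 ν1 ν2) {p1 p2 : PMF (ℕ × ℕ)}
  (hst : P.Steady p1 p2) (h1 : 1 < X) (hX : μ1 = X * (μ1 + P.l1 + P.l2 - P.l1 * X))

include E h1 hX in
theorem Expo.back_mem {r : ℝ} (r1 : 1 ≤ r) (rX : r < X) :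
    r < back P.l1 P.l2 μ1 r ∧ back P.l1 P.l2 μ1 r < X := by
  have a := back_gap E.l1 E.m1 h1 hX r1 rX
  have : 0 < P.l2 / (P.l1 * (X - 1)) * (X - r) :=
    mul_pos (div_pos E.l2 (mul_pos E.l1 (by linarith))) (by linarith)
  exact ⟨by linarith [a.1], a.2⟩

include E h1 hX in
theorem Expo.radii : ∃ r : ℕ → ℝ, r 0 = 1 ∧ (∀ n, r (n + 1) = back P.l1 P.l2 μ1 (r n)) ∧
    (∀ n, 1 ≤ r n ∧ r n < X) ∧ Monotone r ∧ ∀ t < X, ∃ n, t < r n := by
  let r : ℕ → ℝ := fun n => (back P.l1 P.l2 μ1)^[n] 1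
  have rs : ∀ n, r (n + 1) = back P.l1 P.l2 μ1 (r n) := fun n => Function.iterate_succ_apply' _ _ _
  have rm : ∀ n, 1 ≤ r n ∧ r n < X := by
    intro n
    induction n with
    | zero => exact ⟨le_rfl, h1⟩
    | succ n ih =>
      have := E.back_mem h1 hX ih.1 ih.2
      rw [rs]
      exact ⟨by linarith [this.1, ih.1], this.2⟩
  refine ⟨r, rfl, rs, rm, monotone_nat_of_le_succ fun n => ?_, fun t ht => ?_⟩
  · rw [rs]
    exact (E.back_mem h1 hX (rm n).1 (rm n).2).1.le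
  · by_contra h
    have h' : ∀ n, r n ≤ t := fun n => not_lt.1 fun hn => h ⟨n, hn⟩
    have ε0 : 0 < P.l2 / (P.l1 * (X - 1)) := div_pos E.l2 (mul_pos E.l1 (by linarith))
    set ε := P.l2 / (P.l1 * (X - 1))
    have g : ∀ n : ℕ, n * (ε * (X - t)) ≤ r n := by
      intro n
      induction n with
      | zero => simpa using zero_le_one.trans (rm 0).1
      | succ n ih =>
        have a := (back_gap E.l1 E.m1 h1 hX (rm n).1 (rm n).2).1
        have b : ε * (X - t) ≤ ε * (X - r n) := mul_le_mul_of_nonneg_left (by linarith [h' n]) ε0.le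
        rw [rs]
        push_cast
        linarith
    obtain ⟨n, hn⟩ := exists_nat_gt (t / (ε * (X - t)))
    rw [div_lt_iff₀ (mul_pos ε0 (by linarith))] at hn
    linarith [g n, h' n]

include E hst h1 hX in
theorem Expo.glue : ∃ f : ℕ → ℂ → ℂ, (∀ k (x : ℂ), ‖x‖ < 1 → f k x = col p1 k x) ∧
    (∀ k (x : ℂ), ‖x‖ < 1 → two P.l1 P.l2 μ1 ν1 f k x = col p2 k x) ∧
    (∀ k (x : ℂ), ‖x‖ < X → f k x = one P.l1 P.l2 μ2 ν2 (two P.l1 P.l2 μ1 ν1 f) k x) ∧
    (∀ k (x : ℂ), ‖x‖ < X → MeromorphicAt (two P.l1 P.l2 μ1 ν1 f k) x) ∧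
    ∀ R ≤ X, P.l1 * R ≤ μ2 + P.l1 + P.l2 → P.l1 * R ≤ ν1 + P.l1 + P.l2 → P.l1 * R ≤ ν2 + P.l1 + P.l2 →
      ∀ k (x : ℂ), ‖x‖ < R → AnalyticAt ℂ (f k) x := by
  classical
  obtain ⟨r, r0, rs, rm, mono, rt⟩ := E.radii h1 hX
  have rp : ∀ n, 0 < r n := fun n => one_pos.trans_le (rm n).1
  let Φ : (ℕ → ℂ → ℂ) → ℕ → ℂ → ℂ := fun G => one P.l1 P.l2 μ2 ν2 (two P.l1 P.l2 μ1 ν1 G)
  have loc2 : ∀ n (G G' : ℕ → ℂ → ℂ), (∀ k (x : ℂ), ‖x‖ < r n → G k x = G' k x) →
      ∀ k (x : ℂ), ‖x‖ < r (n + 1) → two P.l1 P.l2 μ1 ν1 G k x = two P.l1 P.l2 μ1 ν1 G' k x := by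
    intro n G G' h k x hx
    rw [rs] at hx
    obtain ⟨a1, a2⟩ := back_lt E.l1 E.m1 (rp n) hx
    exact two_congr a1 (fun i => ev_ball (h i) a2) k
  have loc : ∀ n (G G' : ℕ → ℂ → ℂ), (∀ k (x : ℂ), ‖x‖ < r n → G k x = G' k x) →
      ∀ k (x : ℂ), ‖x‖ < r (n + 1) → Φ G k x = Φ G' k x :=
    fun n G G' h k x hx => one_congr (fun i => loc2 n G G' h i x hx) k
  have c1 : ∀ n k (x : ℂ), ‖x‖ < r n → Φ^[n + 1] (col p1) k x = Φ^[n] (col p1) k x := by
    intro n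
    induction n with
    | zero =>
      intro k x hx
      rw [r0] at hx
      exact (one_congr (fun i => (E.rec_two hst i hx.le).symm) k).trans (E.rec_one hst k hx.le).symm
    | succ n ih =>
      intro k x hx
      rw [Function.iterate_succ_apply' Φ (n + 1)]
      conv_rhs => rw [Function.iterate_succ_apply' Φ n]
      exact loc n _ _ ih k x hx
  have c2 : ∀ n m, n ≤ m → ∀ k (x : ℂ), ‖x‖ < r n → Φ^[m] (col p1) k x = Φ^[n] (col p1) k x := by
    intro n m hm k x hx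
    induction m, hm using Nat.le_induction with
    | base => rfl
    | succ m hm ih => rw [c1 m k x (hx.trans_le (mono hm)), ih]
  let f : ℕ → ℂ → ℂ := fun k x => if h : ∃ n, ‖x‖ < r n then Φ^[Nat.find h] (col p1) k x else 0
  have c3 : ∀ n k (x : ℂ), ‖x‖ < r n → f k x = Φ^[n] (col p1) k x := by
    intro n k x hx
    have h : ∃ n, ‖x‖ < r n := ⟨n, hx⟩
    simp only [f, dif_pos h]
    exact (c2 _ n (Nat.find_min' h hx) k x (Nat.find_spec h)).symm
  have c4 : ∀ k (x : ℂ), ‖x‖ < r 0 → f k x = col p1 k x := c3 0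
  have c5 : ∀ k (x : ℂ), ‖x‖ < X → f k x = Φ f k x := by
    intro k x hx
    obtain ⟨n, hn⟩ := rt _ hx
    have hn' := hn.trans_le (mono n.le_succ)
    rw [c3 (n + 1) k x hn', Function.iterate_succ_apply']
    exact (loc n _ _ (c3 n) k x hn').symm
  have c0 : ∀ k (x : ℂ), ‖x‖ < r 0 → AnalyticAt ℂ (f k) x := fun k x hx =>
    ((col_diff p1 k).analyticAt (Metric.isOpen_ball.mem_nhds
      (mem_ball_zero_iff.2 (r0 ▸ hx)))).congr (ev_ball (c4 k) hx).symm
  have c6 : ∀ n k (x : ℂ), ‖x‖ < r n → MeromorphicAt (f k) x := by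
    intro n
    induction n with
    | zero => exact fun k x hx => (c0 k x hx).meromorphicAt
    | succ n ih =>
      intro k x hx
      obtain ⟨a1, a2⟩ := back_lt E.l1 E.m1 (rp n) (rs n ▸ hx)
      exact (one_mero (two_mero a1 fun i => ih i _ a2) k).congr
        ((ev_ball (c5 k) (hx.trans (rm _).2)).symm.filter_mono nhdsWithin_le_nhds)
  refine ⟨f, r0 ▸ c4, fun k x hx => ?_, c5, fun k x hx => ?_, fun R RX b1 b2 b3 k x hx => ?_⟩
  · rw [loc2 0 _ _ c4 k x (hx.trans_le (rm 1).1), E.rec_two hst k hx.le]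
  · obtain ⟨n, hn⟩ := rt _ hx
    obtain ⟨a1, a2⟩ := back_lt E.l1 E.m1 (rp n) (rs n ▸ hn.trans_le (mono n.le_succ))
    exact two_mero a1 (fun i => c6 n i _ a2) k
  · obtain ⟨n, hn⟩ := rt _ (hx.trans_le RX)
    induction n generalizing k x with
    | zero => exact c0 k x hn
    | succ n ih =>
      by_cases h0 : ‖x‖ < 1
      · exact c0 k x (r0 ▸ h0)
      obtain ⟨a1, a2⟩ := back_lt E.l1 E.m1 (rp n) (rs n ▸ hn)
      have R1 : 1 ≤ ‖x‖ := not_lt.1 h0
      have a3 := (back_lt E.l1 E.m1 (one_pos.trans_le R1)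
        (E.back_mem h1 hX R1 (hx.trans_le RX)).1).2
      have a4 := mul_lt_mul_of_pos_left hx E.l1
      exact (one_an (den_ne E.l1 (a4.trans_le b1)) (den_ne E.l1 (a4.trans_le b3))
        (two_an a1 (den_ne E.l1 (a4.trans_le b2)) fun i => ih i _ (a3.trans hx) a2) k).congr
        (ev_ball (c5 k) (hx.trans_le RX)).symm

include E in
theorem Expo.step {f : ℕ → ℂ → ℂ} {p : ℝ} {e : ℕ} (p0 : 0 < p) (h : Pos 0 p e f) (he : 0 < e) :
    ∃ D, e ≤ D ∧ Pos 1 (back P.l1 P.l2 μ1 p : ℝ) D (two P.l1 P.l2 μ1 ν1 f) := by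
  have l1 := E.l1
  have a0 : (P.l1 : ℂ) ≠ 0 := by exact_mod_cast l1.ne'
  have b0 : (p : ℂ) ≠ 0 := by exact_mod_cast p0.ne'
  have m0 : (μ1 : ℂ) ≠ 0 := by exact_mod_cast E.m1.ne'
  have e1 : (μ1 : ℂ) + P.l1 + P.l2 - P.l1 * (back P.l1 P.l2 μ1 p : ℝ) = μ1 / p := by
    rw [back]
    push_cast
    field_simp
    ring
  have e2 : (μ1 : ℂ) + P.l1 + P.l2 - P.l1 * (back P.l1 P.l2 μ1 p : ℝ) ≠ 0 := by
    rw [e1]
    exact div_ne_zero m0 b0
  have a1 := h.comp (H := geo P.l1 P.l2 μ1 0) (m := P.l1 * p / (μ1 / p))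
    (q := fun x => P.l1 * p / (μ1 + P.l1 + P.l2 - P.l1 * x)) (geo_an e2 0)
    (by simp only [geo, e1, pow_zero, mul_one, zero_add, pow_one]; field_simp)
    (AnalyticAt.div analyticAt_const (by fun_prop) e2) (by have := E.m1; positivity)
    (by simp only [e1]; push_cast; rfl) (by
      filter_upwards [ContinuousAt.eventually_ne
        (g := fun x : ℂ => (μ1 : ℂ) + P.l1 + P.l2 - P.l1 * x) (by fun_prop) e2] with x hx
      simp only [geo, pow_zero, mul_one, zero_add, pow_one]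
      rw [eq_div_iff b0] at e1
      field_simp
      linear_combination e1)
  obtain ⟨d, hd⟩ := Pos.geo_any (p := (back P.l1 P.l2 μ1 p : ℝ)) l1 E.l2 E.n1
  exact ⟨d + e, by omega, hd.cp (a1.sh (div_pos E.l2 l1) he)⟩

include E hst h1 hX in
theorem Expo.poles (p : ℕ → ℝ) (hp0 : p 0 = 1 + (P.l2 + min μ2 (min ν1 ν2)) / P.l1) (hpX : p 0 < X)
    (hp : ∀ j, p (j + 1) = (μ1 + P.l1 + P.l2 - μ1 / p j) / P.l1) :
    ∃ (K : ℂ → ℂ) (d : ℕ → ℕ), MeromorphicOn K (Metric.ball 0 X) ∧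
      (∀ x : ℂ, ‖x‖ < 1 → K x = pgf p2 x 0) ∧ StrictMono d ∧
      ∀ j, 1 < p j ∧ p j < X ∧ meromorphicOrderAt K (p j) = (-(d j : ℤ) : ℤ) := by
  obtain ⟨f, g1, g2, g3, g4, g5⟩ := E.glue hst h1 hX
  have l1 := E.l1
  have l2 := E.l2
  set m := min μ2 (min ν1 ν2) with hm
  have m0 : 0 < m := lt_min E.m2 (lt_min E.n1 E.n2)
  have m1 : m ≤ μ2 := min_le_left _ _
  have m2 : m ≤ ν1 := (min_le_right _ _).trans (min_le_left _ _)
  have m3 : m ≤ ν2 := (min_le_right _ _).trans (min_le_right _ _)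
  have e0 : P.l1 * p 0 = m + P.l1 + P.l2 := by rw [hp0]; field_simp; ring
  have pm : ∀ j, 1 < p j ∧ p j < X := by
    intro j
    induction j with
    | zero =>
      refine ⟨?_, hpX⟩
      have : 0 < (P.l2 + m) / P.l1 := by positivity
      linarith
    | succ j ih =>
      have := E.back_mem h1 hX ih.1.le ih.2
      rw [hp]
      exact ⟨ih.1.trans this.1, this.2⟩
  have nm : ∀ j, ‖(p j : ℂ)‖ = p j := fun j => by
    rw [Complex.norm_real, Real.norm_of_nonneg (by linarith [(pm j).1])]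
  have fix : ∀ j {e : ℕ}, Pos 0 (p j) e (one P.l1 P.l2 μ2 ν2 (two P.l1 P.l2 μ1 ν1 f)) → Pos 0 (p j) e f :=
    fun j e h => h.congr fun k => (ev_ball (g3 k) ((nm j).trans_lt (pm j).2)).symm
  have fa := g5 (p 0) hpX.le (by linarith) (by linarith) (by linarith)
  have p00 : 0 < p 0 := by linarith [(pm 0).1]
  have bk := (E.back_mem h1 hX (pm 0).1.le hpX).1
  have pole : ∀ {ν : ℝ}, ν = m → (ν : ℂ) + P.l1 + P.l2 - P.l1 * (p 0 : ℝ) = 0 := by
    intro ν hν
    rw [hν]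
    exact_mod_cast sub_eq_zero.2 e0.symm
  have reg : ∀ {ν : ℝ}, m < ν → (ν : ℂ) + P.l1 + P.l2 - P.l1 * (p 0 : ℝ) ≠ 0 :=
    fun hν => den_ne l1 (by rw [nm]; linarith)
  obtain ⟨a1, a2⟩ := back_lt l1 E.m1 p00 ((nm 0).trans_lt bk)
  have base : ∃ D e, D < e ∧ Pos 0 (p 0) D (two P.l1 P.l2 μ1 ν1 f) ∧ Pos 0 (p 0) e f := by
    rcases m2.eq_or_lt with c1 | c1
    · obtain ⟨i, hi⟩ := E.pos10 hst
      have b1 := col_ext p1 0 (fun x hx => (fa 0 x (mem_ball_zero_iff.1 hx)).differentiableAt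
        |>.differentiableWithinAt) (g1 0) a2
      have b2 : 0 < μ1 + P.l1 + P.l2 - P.l1 * p 0 := by
        rw [back, lt_div_iff₀' l1] at bk
        have := div_pos E.m1 p00
        linarith
      have b3 : geo P.l1 P.l2 μ1 0 (p 0 : ℝ) = (μ1 / (μ1 + P.l1 + P.l2 - P.l1 * p 0) : ℝ) := by
        simp [geo]
      nth_rewrite 1 [b3] at b1
      obtain ⟨v, v0, hv⟩ := val_pos (fun _ => ENNReal.toReal_nonneg) (div_pos E.m1 b2) b1 hi
      have b4 := (Pos.geo_pole l1 l2 E.n1 (pole c1.symm)).cp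
        (Pos.of_analytic (comp_an a1 fun k => fa k _ a2) (by
          simp only [sh, Finset.Nat.antidiagonal_zero, sum_singleton, pow_zero, Nat.factorial_zero,
            Nat.cast_one, div_one, iteratedDeriv_zero, one_mul, hv]
          exact_mod_cast v0.ne'))
      obtain ⟨e, he, b5⟩ := Pos.one l1 l2 E.m2 E.n2 b4
      exact ⟨_, e, he, b4.weak, fix 0 b5⟩
    · set R := min (back P.l1 P.l2 μ1 (p 0)) ((ν1 + P.l1 + P.l2) / P.l1) with hR
      have b0 : p 0 < R := lt_min bk (by rw [lt_div_iff₀' l1]; linarith)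
      have b1 : ∀ k (x : ℂ), ‖x‖ < R → AnalyticAt ℂ (two P.l1 P.l2 μ1 ν1 f k) x := by
        intro k x hx
        obtain ⟨c2, c3⟩ := back_lt l1 E.m1 p00 (hx.trans_le (min_le_left _ _))
        exact two_an c2 (den_ne l1 ((lt_div_iff₀' l1).1 (hx.trans_le (min_le_right _ _))))
          (fun i => fa i _ c3) k
      have b2 := fun k => col_ext p2 k (fun x hx => (b1 k x (mem_ball_zero_iff.1 hx)).differentiableAt
        |>.differentiableWithinAt) (g2 k) ((nm 0).trans_lt b0)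
      have b3 := fun k => b1 k _ ((nm 0).trans_lt b0)
      obtain ⟨i, hi⟩ := E.pos20 hst
      obtain ⟨i', hi'⟩ := E.pos21 hst
      obtain ⟨v, v0, hv⟩ := val_pos (fun _ => ENNReal.toReal_nonneg) p00 (b2 0) hi
      obtain ⟨w, w0, hw⟩ := val_pos (fun _ => ENNReal.toReal_nonneg) p00 (b2 1) hi'
      have b4 := Pos.of_analytic b3 (by rw [hv]; exact_mod_cast v0.ne')
      rcases m1.eq_or_lt with c2 | c2
      · have b5 := ((Pos.geo_pole l1 l2 E.m2 (pole c2.symm)).cp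
          (Pos.of_analytic (G := fun i => two P.l1 P.l2 μ1 ν1 f (i + 1)) (fun i => b3 (i + 1))
            (by rw [zero_add, hw]; exact_mod_cast w0.ne'))).add_low (Rep.of_analytic (b3 0)) one_pos
        obtain ⟨d, hd⟩ := Pos.geo_any (p := (p 0 : ℝ)) l1 l2 E.n2
        exact ⟨0, _, by omega, b4, fix 0 (hd.cp b5.weak)⟩
      · have c3 : ν2 = m := by
          rcases min_choice μ2 (min ν1 ν2) with c | c
          · exact absurd (hm.trans c) c2.ne
          · rcases min_choice ν1 ν2 with c' | c'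
            · exact absurd ((hm.trans c).trans c') c1.ne
            · exact ((hm.trans c).trans c').symm
        have b5 := (Pos.geo_pole l1 l2 E.n2 (pole c3)).cp (Pos.of_analytic (mid_an (reg c2) b3) (by
          have c4 : 0 < μ2 + P.l1 + P.l2 - P.l1 * p 0 := by linarith
          have c5 : 0 < μ2 / (μ2 + P.l1 + P.l2 - P.l1 * p 0) * w + v := by have := E.m2; positivity
          simp only [cp, Finset.Nat.antidiagonal_zero, sum_singleton, geo, pow_zero, mul_one, zero_add, pow_one,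
            if_true, hv, hw]
          exact_mod_cast c5.ne'))
        exact ⟨0, _, by omega, b4, fix 0 b5.weak⟩
  have step : ∀ j e, 0 < e → Pos 0 (p j) e f →
      ∃ D, e ≤ D ∧ Pos 1 (p (j + 1)) D (two P.l1 P.l2 μ1 ν1 f) := fun j e he h => by
    rw [hp]
    exact E.step (by linarith [(pm j).1]) h he
  have all : ∀ j, ∃ D e, D < e ∧ Pos 0 (p j) D (two P.l1 P.l2 μ1 ν1 f) ∧ Pos 0 (p j) e f := by
    intro j
    induction j with
    | zero => exact base
    | succ j ih =>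
      obtain ⟨D, e, c1, -, c3⟩ := ih
      obtain ⟨D', -, c5⟩ := step j e (by omega) c3
      obtain ⟨e', c6, c7⟩ := Pos.one l1 l2 E.m2 E.n2 c5
      exact ⟨D', e', c6, c5.weak, fix _ c7⟩
  choose d e c1 c2 c3 using all
  refine ⟨two P.l1 P.l2 μ1 ν1 f 0, d, fun x hx => g4 0 x (mem_ball_zero_iff.1 hx),
    fun x hx => by rw [g2 0 x hx, pgf_zero p2 hx.le], strictMono_nat_of_lt_succ fun j => ?_,
    fun j => ⟨(pm j).1, (pm j).2, (c2 j).order⟩⟩
  obtain ⟨D, c4, c5⟩ := step j (e j) (by have := c1 j; omega) (c3 j)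
  have c6 := c5.order.symm.trans (c2 (j + 1)).order
  have c7 : (-(D : ℤ)) = -(d (j + 1) : ℤ) := WithTop.coe_injective c6
  have := c1 j
  omega

end

end Pool.Agent.P.MP_386d8e_pr
end

-- part Pool.Agent.P.MP_386d8e_pr.PoleE
section

set_option autoImplicit false

open Filter Topology Finset Metric

namespace Pool.Agent.P.MP_386d8e_pr

noncomputable section

theorem ord_sum_gt {z : ℂ} {m : ℤ} (s : Finset ℕ) {g : ℕ → ℂ → ℂ} (hg : ∀ i ∈ s, MeromorphicAt (g i) z)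
    (ho : ∀ i ∈ s, (m : WithTop ℤ) < meromorphicOrderAt (g i) z) :
    (m : WithTop ℤ) < meromorphicOrderAt (fun x => ∑ i ∈ s, g i x) z := by
  classical
  induction s using Finset.induction_on with
  | empty =>
    rw [meromorphicOrderAt_eq_top_iff.2 (Eventually.of_forall fun _ => by simp)]
    exact WithTop.coe_lt_top _
  | insert a s ha ih =>
    have h1 := ih (fun i hi => hg i (mem_insert_of_mem hi)) fun i hi => ho i (mem_insert_of_mem hi)
    have h2 := meromorphicOrderAt_add (hg a (mem_insert_self _ _))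
      (MeromorphicAt.fun_sum fun i hi => hg i (mem_insert_of_mem hi) : MeromorphicAt (fun x => ∑ i ∈ s, g i x) z)
    simp only [sum_insert ha]
    exact (lt_min (ho a (mem_insert_self _ _)) h1).trans_le h2

theorem ev_ne {X : ℝ} {p : ℕ → ℝ} (hi : Function.Injective p) (hp : ∀ j, ‖(p j : ℂ)‖ ≤ X) {q : ℂ → ℂ}
    (hq : AnalyticOnNhd ℂ q (closedBall 0 X)) (h0 : ¬ ∀ x : ℂ, ‖x‖ ≤ X → q x = 0) :
    ∀ᶠ j in atTop, q (p j) ≠ 0 := by
  rcases hq.eqOn_zero_or_eventually_ne_zero_of_preconnected (convex_closedBall _ _).isPreconnected with h | h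
  · exact absurd (fun x hx => h (mem_closedBall_zero_iff.2 hx)) h0
  · have h1 := (isCompact_closedBall (0 : ℂ) X).finite_sdiff_of_mem_codiscreteWithin h
    have h2 : Function.Injective fun j => (p j : ℂ) := fun a b e => hi (Complex.ofReal_injective e)
    rw [← Nat.cofinite_eq_atTop, eventually_cofinite]
    exact (h1.preimage h2.injOn).subset fun j hj => ⟨mem_closedBall_zero_iff.2 (hp j), hj⟩

theorem indep {X : ℝ} (h1 : 1 < X) {p : ℕ → ℝ} (hi : Function.Injective p) (hp : ∀ j, ‖(p j : ℂ)‖ < X)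
    {g : ℕ → ℂ → ℂ} (hg : ∀ i, MeromorphicOn (g i) (ball 0 X)) {o : ℕ → ℕ → ℤ}
    (ho : ∀ i, ∀ᶠ j in atTop, meromorphicOrderAt (g i) (p j) = o i j ∧ o i j < 0 ∧ ∀ k < i, o k j ≠ o i j)
    {n : ℕ} {q : ℕ → ℂ → ℂ} {r : ℂ → ℂ} (hq : ∀ i, AnalyticOnNhd ℂ (q i) (closedBall 0 X))
    (hr : AnalyticOnNhd ℂ r (closedBall 0 X))
    (rel : ∀ x : ℂ, ‖x‖ < 1 → ∑ i ∈ range n, q i x * g i x = r x) :
    ∀ i < n, ∀ x : ℂ, ‖x‖ ≤ X → q i x = 0 := by
  classical
  by_contra hc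
  set S := (range n).filter fun i => ¬ ∀ x : ℂ, ‖x‖ ≤ X → q i x = 0 with hS
  have Sne : S.Nonempty := by
    by_contra h
    refine hc fun i hi => by_contra fun h' => h ⟨i, mem_filter.2 ⟨mem_range.2 hi, h'⟩⟩
  obtain ⟨j, hj⟩ := ((eventually_all_finset S).2 fun i hi' =>
    (ev_ne hi (fun j => (hp j).le) (hq i) (mem_filter.1 hi').2).and (ho i)).exists
  obtain ⟨a, aS, amin⟩ := exists_min_image S (fun i => o i j) Sne
  have zb : (p j : ℂ) ∈ ball (0 : ℂ) X := mem_ball_zero_iff.2 (hp j)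
  have qa : ∀ i, ∀ x ∈ ball (0 : ℂ) X, AnalyticAt ℂ (q i) x := fun i x hx => hq i x (ball_subset_closedBall hx)
  have tm : ∀ i, MeromorphicOn (fun x => q i x * g i x) (ball 0 X) :=
    fun i x hx => (qa i x hx).meromorphicAt.mul (hg i x hx)
  have Φm : MeromorphicOn (fun x => ∑ i ∈ S, q i x * g i x - r x) (ball 0 X) := fun x hx =>
    (MeromorphicAt.fun_sum fun i _ => tm i x hx).sub (hr x (ball_subset_closedBall hx)).meromorphicAt
  have Φ0 : meromorphicOrderAt (fun x => ∑ i ∈ S, q i x * g i x - r x) (p j) = ⊤ := by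
    by_contra h
    refine Φm.meromorphicOrderAt_ne_top_of_isPreconnected (convex_ball _ _).isPreconnected zb
      (mem_ball_self (by linarith)) h (meromorphicOrderAt_eq_top_iff.2 ?_)
    filter_upwards [mem_nhdsWithin_of_mem_nhds (ball_mem_nhds (0 : ℂ) one_pos)] with x hx
    have hx' := mem_ball_zero_iff.1 hx
    rw [← rel x hx', sub_eq_zero]
    refine sum_subset (filter_subset _ _) fun i hi hi' => ?_
    rw [(not_not.1 fun h' => hi' (mem_filter.2 ⟨hi, h'⟩) : ∀ x : ℂ, ‖x‖ ≤ X → q i x = 0) x (by linarith),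
      zero_mul]
  have ot : ∀ i ∈ S, meromorphicOrderAt (fun x => q i x * g i x) (p j) = o i j := fun i hi =>
    (meromorphicOrderAt_mul_of_ne_zero (qa i _ zb) (hj i hi).1).trans (hj i hi).2.1
  have rest : (o a j : WithTop ℤ) <
      meromorphicOrderAt (fun x => ∑ i ∈ S.erase a, q i x * g i x) (p j) := by
    refine ord_sum_gt _ (fun i _ => tm i _ zb) fun i hi => ?_
    obtain ⟨ia, iS⟩ := mem_erase.1 hi
    rw [ot i iS, WithTop.coe_lt_coe]
    refine (amin i iS).lt_of_ne ?_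
    rcases lt_or_gt_of_ne ia with c | c
    · exact ((hj a aS).2.2.2 i c).symm
    · exact (hj i iS).2.2.2 a c
  have ra := hr _ (ball_subset_closedBall zb)
  have e : (fun x => q a x * g a x) =ᶠ[𝓝[≠] (p j : ℂ)]
      r + -fun x => ∑ i ∈ S.erase a, q i x * g i x := by
    filter_upwards [meromorphicOrderAt_eq_top_iff.1 Φ0] with x hx
    rw [← add_sum_erase S _ aS] at hx
    simp only [Pi.add_apply, Pi.neg_apply]
    linear_combination hx
  have sm : MeromorphicAt (fun x => ∑ i ∈ S.erase a, q i x * g i x) (p j) :=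
    MeromorphicAt.fun_sum fun i _ => tm i _ zb
  have le := meromorphicOrderAt_add ra.meromorphicAt sm.neg
  rw [← meromorphicOrderAt_congr e, ot a aS, ← meromorphicOrderAt_neg] at le
  have neg : (o a j : WithTop ℤ) < meromorphicOrderAt r (p j) :=
    lt_of_lt_of_le (by exact_mod_cast (hj a aS).2.2.1) ra.meromorphicOrderAt_nonneg
  exact absurd le (not_le.2 (lt_min neg rest))

variable {X : ℝ} {K : ℂ → ℂ} {d : ℕ → ℕ} {p : ℕ → ℝ}

theorem ord_pow (hK : MeromorphicOn K (ball 0 X)) (hd : StrictMono d) (hp : ∀ j, ‖(p j : ℂ)‖ < X)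
    (ho : ∀ j, meromorphicOrderAt K (p j) = (-(d j : ℤ) : ℤ)) (i : ℕ) :
    ∀ᶠ j in atTop, meromorphicOrderAt (K ^ (i + 1)) (p j) = (-((i + 1) * d j : ℤ) : ℤ) ∧
      (-((i + 1) * d j : ℤ) : ℤ) < 0 ∧ ∀ k < i, (-((k + 1 : ℕ) * d j : ℤ) : ℤ) ≠ -((i + 1) * d j) := by
  filter_upwards [eventually_ge_atTop 1] with j hj
  have h0 : (0 : ℤ) < d j := by exact_mod_cast hj.trans (hd.le_apply)
  refine ⟨?_, by have : (0 : ℤ) < (i + 1) * d j := by positivity
                 omega, fun k hk => ?_⟩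
  · rw [meromorphicOrderAt_pow (hK _ (mem_ball_zero_iff.2 (hp j))), ho]
    norm_cast
    push_cast
    ring
  · have : (k : ℤ) < i := by exact_mod_cast hk
    push_cast
    nlinarith

theorem ord_der (hd : StrictMono d) (ho : ∀ j, meromorphicOrderAt K (p j) = (-(d j : ℤ) : ℤ)) (i : ℕ) :
    ∀ᶠ j in atTop, meromorphicOrderAt (deriv^[i] K) (p j) = (-(d j : ℤ) - i : ℤ) ∧
      (-(d j : ℤ) - i : ℤ) < 0 ∧ ∀ k < i, (-(d j : ℤ) - k : ℤ) ≠ -(d j : ℤ) - i := by
  filter_upwards [eventually_ge_atTop 1] with j hj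
  have h0 : 1 ≤ d j := hj.trans (hd.le_apply)
  refine ⟨?_, by omega, fun k hk => by omega⟩
  induction i with
  | zero => simpa using ho j
  | succ i ih =>
    rw [Function.iterate_succ_apply', meromorphicOrderAt_deriv_eq_sub_one
      (by exact_mod_cast (by omega : (-(d j : ℤ) - i : ℤ) ≠ 0)) ih]
    congr 1
    push_cast
    ring

theorem ord_shift {H : ℂ → ℂ} (hH : ∀ x : ℂ, ‖x‖ < X → AnalyticAt ℂ H x ∧ deriv H x ≠ 0 ∧ ‖H x‖ < X)
    (hK : MeromorphicOn K (ball 0 X)) (hd : StrictMono d) (hp : ∀ j, ‖(p j : ℂ)‖ < X)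
    (hs : ∀ j, H (p (j + 1)) = p j) (ho : ∀ j, meromorphicOrderAt K (p j) = (-(d j : ℤ) : ℤ)) (i : ℕ) :
    MeromorphicOn (K ∘ H^[i]) (ball 0 X) ∧
    ∀ᶠ j in atTop, meromorphicOrderAt (K ∘ H^[i]) (p j) = (-(d (j - i) : ℤ) : ℤ) ∧
      (-(d (j - i) : ℤ) : ℤ) < 0 ∧ ∀ k < i, (-(d (j - k) : ℤ) : ℤ) ≠ -(d (j - i) : ℤ) := by
  have a : MeromorphicOn (K ∘ H^[i]) (ball 0 X) ∧
      ∀ j, meromorphicOrderAt (K ∘ H^[i]) (p (j + i)) = (-(d j : ℤ) : ℤ) := by
    induction i with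
    | zero => exact ⟨hK, ho⟩
    | succ i ih =>
      rw [Function.iterate_succ, ← Function.comp_assoc]
      refine ⟨fun x hx => ?_, fun j => ?_⟩
      · obtain ⟨b1, -, b3⟩ := hH x (mem_ball_zero_iff.1 hx)
        exact (ih.1 _ (mem_ball_zero_iff.2 b3)).comp_analyticAt b1
      · obtain ⟨b1, b2, -⟩ := hH _ (hp (j + i + 1))
        rw [← add_assoc, meromorphicOrderAt_comp_of_deriv_ne_zero b1 b2, hs, ih.2]
  refine ⟨a.1, ?_⟩
  filter_upwards [eventually_ge_atTop (i + 1)] with j hj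
  have h0 : j - i ≤ d (j - i) := hd.le_apply
  refine ⟨?_, by omega, fun k hk => ?_⟩
  · rw [← a.2, Nat.sub_add_cancel (by omega)]
  · have := hd (by omega : j - i < j - k)
    omega

variable {P : Model} {μ1 μ2 ν1 ν2 : ℝ} (E : Expo P μ1 μ2 ν1 ν2) {p1 p2 : PMF (ℕ × ℕ)}

include E in
theorem Expo.h_iter (i : ℕ) {x : ℂ} (hx : ‖x‖ < 1) :
    (P.h 0)^[i] x = (geo P.l1 P.l2 μ1 0)^[i] x ∧ ‖(P.h 0)^[i] x‖ < 1 := by
  induction i with
  | zero => exact ⟨rfl, hx⟩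
  | succ i ih =>
    have e : P.h 0 ((P.h 0)^[i] x) = geo P.l1 P.l2 μ1 0 ((P.h 0)^[i] x) := by
      rw [Model.h, E.B1 _ (E.th_re ih.2.le (by simp))]
      simp only [geo, Model.th, pow_zero, mul_one, zero_add, pow_one, sub_zero]
      congr 1
      ring
    rw [Function.iterate_succ_apply', Function.iterate_succ_apply', e, ← ih.1]
    exact ⟨rfl, E.h_lt ih.2.le⟩

include E in
theorem Expo.root (hX : X = (μ1 + P.l1 + P.l2 + √((μ1 + P.l1 + P.l2) ^ 2 - 4 * P.l1 * μ1)) / (2 * P.l1)) :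
    μ1 = X * (μ1 + P.l1 + P.l2 - P.l1 * X) ∧
      ∀ t : ℝ, P.l1 * t ^ 2 - (μ1 + P.l1 + P.l2) * t + μ1 < 0 → t < X := by
  have l1 := E.l1
  have l2 := E.l2
  have m1 := E.m1
  have D0 : 0 ≤ (μ1 + P.l1 + P.l2) ^ 2 - 4 * P.l1 * μ1 := by nlinarith [sq_nonneg (μ1 - P.l1), mul_pos l1 l2, mul_pos m1 l2]
  have s1 := Real.sq_sqrt D0
  have s0 := Real.sqrt_nonneg ((μ1 + P.l1 + P.l2) ^ 2 - 4 * P.l1 * μ1)
  set s := √((μ1 + P.l1 + P.l2) ^ 2 - 4 * P.l1 * μ1)
  have e : 2 * P.l1 * X = μ1 + P.l1 + P.l2 + s := by rw [hX]; field_simp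
  refine ⟨?_, fun t ht => ?_⟩
  · refine mul_left_cancel₀ (by positivity : 4 * P.l1 ≠ 0) ?_
    have e' : s = 2 * P.l1 * X - (μ1 + P.l1 + P.l2) := by linarith
    rw [e'] at s1
    linear_combination s1
  · by_contra h
    have h1 : s ≤ 2 * P.l1 * t - (μ1 + P.l1 + P.l2) := by nlinarith [not_lt.1 h]
    nlinarith [mul_le_mul h1 h1 s0 (s0.trans h1)]

include E in
theorem Expo.final (hst : P.Steady p1 p2) {m : ℝ} (hm : m = min μ2 (min ν1 ν2))
    (hc : P.l1 * m < (P.l2 + m) * (μ1 - m))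
    (hX : X = (μ1 + P.l1 + P.l2 + √((μ1 + P.l1 + P.l2) ^ 2 - 4 * P.l1 * μ1)) / (2 * P.l1))
    (hp0 : p 0 = 1 + (P.l2 + m) / P.l1) (hp : ∀ j, p (j + 1) = (μ1 + P.l1 + P.l2 - μ1 / p j) / P.l1) :
    (∃ (K : ℂ → ℂ) (d : ℕ → ℕ), MeromorphicOn K (ball 0 X) ∧
      (∀ x : ℂ, ‖x‖ < 1 → K x = pgf p2 x 0) ∧ StrictMono d ∧ StrictMono p ∧
      ∀ j, 1 < p j ∧ p j < X ∧ meromorphicOrderAt K (p j) = (-(d j : ℤ) : ℤ)) ∧
    ∀ (n : ℕ) (q : ℕ → ℂ → ℂ) (r : ℂ → ℂ), (∀ i, AnalyticOnNhd ℂ (q i) (closedBall 0 X)) →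
      AnalyticOnNhd ℂ r (closedBall 0 X) →
      ((∀ x : ℂ, ‖x‖ < 1 → ∑ i ∈ range n, q i x * pgf p2 x 0 ^ (i + 1) = r x) ∨
        (∀ x : ℂ, ‖x‖ < 1 → ∑ i ∈ range n, q i x * iteratedDeriv i (fun z => pgf p2 z 0) x = r x) ∨
        (∀ x : ℂ, ‖x‖ < 1 → ∑ i ∈ range n, q i x * pgf p2 ((P.h 0)^[i] x) 0 = r x)) →
      ∀ i < n, ∀ x : ℂ, ‖x‖ ≤ X → q i x = 0 := by
  have l1 := E.l1
  obtain ⟨hX', lt⟩ := E.root hX
  have h1 : 1 < X := lt 1 (by linarith [E.l2])
  have e0 : P.l1 * p 0 = m + P.l1 + P.l2 := by rw [hp0]; field_simp; ring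
  have hpX : p 0 < X := lt _ (by
    refine lt_of_mul_lt_mul_left ?_ l1.le
    have : P.l1 * (P.l1 * p 0 ^ 2 - (μ1 + P.l1 + P.l2) * p 0 + μ1) =
        (P.l1 * p 0) ^ 2 - (μ1 + P.l1 + P.l2) * (P.l1 * p 0) + P.l1 * μ1 := by ring
    rw [this, e0]
    nlinarith)
  obtain ⟨K, d, k1, k2, k3, k4⟩ := E.poles hst h1 hX' p (hm ▸ hp0) hpX hp
  have ps : StrictMono p := strictMono_nat_of_lt_succ fun j => by
    rw [hp]
    exact (E.back_mem h1 hX' (k4 j).1.le (k4 j).2.1).1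
  have nm : ∀ j, ‖(p j : ℂ)‖ < X := fun j => by
    rw [Complex.norm_real, Real.norm_of_nonneg (by linarith [(k4 j).1])]
    exact (k4 j).2.1
  have ko := fun j => (k4 j).2.2
  refine ⟨⟨K, d, k1, k2, k3, ps, k4⟩, fun n q r hq hr h => ?_⟩
  rcases h with h | h | h
  · refine indep h1 ps.injective nm (fun i => k1.pow (i + 1)) (o := fun i j => -((i + 1 : ℕ) * d j : ℤ))
      (fun i => by exact_mod_cast ord_pow k1 k3 nm ko i) hq hr fun x hx => ?_
    simp only [Pi.pow_apply, k2 x hx, h x hx]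
  · refine indep h1 ps.injective nm (fun i => k1.iterated_deriv) (ord_der k3 ko) hq hr fun x hx => ?_
    rw [← h x hx]
    refine sum_congr rfl fun i _ => ?_
    rw [← iteratedDeriv_eq_iterate, (ev_ball k2 hx).iteratedDeriv_eq]
  · have X0 : 0 < X := by linarith
    have bX : back P.l1 P.l2 μ1 X = X := by
      rw [back]
      field_simp
      linarith
    have m0 : (μ1 : ℂ) ≠ 0 := by exact_mod_cast E.m1.ne'
    have a0 : (P.l1 : ℂ) ≠ 0 := by exact_mod_cast l1.ne'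
    have hH : ∀ x : ℂ, ‖x‖ < X → AnalyticAt ℂ (geo P.l1 P.l2 μ1 0) x ∧
        deriv (geo P.l1 P.l2 μ1 0) x ≠ 0 ∧ ‖geo P.l1 P.l2 μ1 0 x‖ < X := by
      intro x hx
      obtain ⟨b1, b2⟩ := back_lt l1 E.m1 X0 (bX.symm ▸ hx)
      refine ⟨geo_an b1 0, ?_, b2⟩
      have b3 : HasDerivAt (fun z : ℂ => (μ1 : ℂ) / (μ1 + P.l1 + P.l2 - P.l1 * z))
          (μ1 * P.l1 / (μ1 + P.l1 + P.l2 - P.l1 * x) ^ 2) x := by
        have b5 : HasDerivAt (fun z : ℂ => (μ1 : ℂ) + P.l1 + P.l2 - P.l1 * z) (-P.l1) x := by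
          simpa using ((hasDerivAt_id x).const_mul (P.l1 : ℂ)).const_sub ((μ1 : ℂ) + P.l1 + P.l2)
        exact ((hasDerivAt_const x (μ1 : ℂ)).fun_div b5 b1).congr_deriv (by simp)
      have b4 : geo P.l1 P.l2 μ1 0 = fun z : ℂ => (μ1 : ℂ) / (μ1 + P.l1 + P.l2 - P.l1 * z) := by
        funext z
        simp [geo]
      rw [b4, b3.deriv]
      exact div_ne_zero (mul_ne_zero m0 a0) (pow_ne_zero _ b1)
    have hs : ∀ j, geo P.l1 P.l2 μ1 0 (p (j + 1)) = p j := fun j => by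
      have b0 : (p j : ℂ) ≠ 0 := by exact_mod_cast (by linarith [(k4 j).1] : p j ≠ 0)
      have e1 : (μ1 : ℂ) + P.l1 + P.l2 - P.l1 * (p (j + 1) : ℝ) = μ1 / p j := by
        rw [hp]
        push_cast
        field_simp
        ring
      simp only [geo, e1, pow_zero, mul_one, zero_add, pow_one]
      field_simp
    have c := ord_shift hH k1 k3 nm hs ko
    refine indep h1 ps.injective nm (fun i => (c i).1) (fun i => (c i).2) hq hr fun x hx => ?_
    rw [← h x hx]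
    refine sum_congr rfl fun i _ => ?_
    obtain ⟨b1, b2⟩ := E.h_iter i hx
    rw [Function.comp_apply, ← b1, k2 _ b2]

end

end Pool.Agent.P.MP_386d8e_pr
end
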