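import Pool.Agent.K.MP_386d8e_pr.C0
import Pool.Agent.P.MP_386d8e_pr.FredDefs

-- part Pool.Agent.P.MP_386d8e_pr.FredA
section

set_option autoImplicit false

open Filter Topology Finset Matrix

namespace Pool.Agent.P.MP_386d8e_pr

noncomputable section

theorem hasSum_pi {ι E : Type} [NormedField E] [CompleteSpace E] (n : ℕ) (f : Fin n → ι → E)
    (hf : ∀ a, Summable fun i => ‖f a i‖) :
    (Summable fun k : Fin n → ι => ‖∏ a, f a (k a)‖) ∧
      HasSum (fun k : Fin n → ι => ∏ a, f a (k a)) (∏ a, ∑' i, f a i) := by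
  induction n with
  | zero => exact ⟨Summable.of_finite, by simp⟩
  | succ n ih =>
    obtain ⟨h1, h2⟩ := ih (fun a => f a.succ) fun a => hf a.succ
    have h3 := (hf 0).mul_norm h1
    have e : ∀ s : ι × (Fin n → ι), ∏ a, f a (Fin.consEquiv (fun _ => ι) s a) =
        f 0 s.1 * ∏ a : Fin n, f a.succ (s.2 a) := fun s => by simp [Fin.prod_univ_succ]
    refine ⟨(Fin.consEquiv fun _ => ι).summable_iff.1 (h3.congr fun s => by simp only [Function.comp, e]),
      (Fin.consEquiv fun _ => ι).hasSum_iff.1 ?_⟩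
    rw [Fin.prod_univ_succ]
    exact hs_congr ((hf 0).of_norm.hasSum.mul h2 h3.of_norm) (fun s => e s) rfl

theorem fact_le (s : Finset ℕ) : (s.card + 1).factorial ≤ ∏ i ∈ s, (i + 2) := by
  induction s using Finset.induction_on_max with
  | empty => simp
  | insert a s ha ih =>
    have h1 : a ∉ s := fun h => lt_irrefl _ (ha a h)
    have h2 : s.card ≤ a := by
      simpa using card_le_card (fun x hx => mem_range.2 (ha x hx) : s ⊆ range a)
    rw [card_insert_of_notMem h1, prod_insert h1, Nat.factorial_succ]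
    exact Nat.mul_le_mul (by omega) ih

theorem fact_le' {n : ℕ} {k : Fin n → ℕ} (hk : Function.Injective k) :
    ((n + 1).factorial : ℝ) ≤ ∏ a, ((k a : ℝ) + 2) := by
  have := fact_le (univ.image k)
  rw [card_image_of_injective _ hk, prod_image fun _ _ _ _ h => hk h, card_univ, Fintype.card_fin] at this
  exact_mod_cast this

theorem det_bound {n : ℕ} (A : Matrix (Fin n) (Fin n) ℂ) {b : Fin n → ℝ} (h : ∀ i j, ‖A i j‖ ≤ b i) :
    ‖A.det‖ ≤ n.factorial * ∏ i, b i := by
  rw [← det_transpose, det_apply']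
  refine (norm_sum_le_of_le _ (n := fun _ => ∏ i, b i) fun σ _ => ?_).trans (by simp [Fintype.card_perm])
  rw [norm_mul, norm_prod]
  have : ‖((Equiv.Perm.sign σ : ℤ) : ℂ)‖ = 1 := by
    rcases Int.units_eq_one_or (Equiv.Perm.sign σ) with e | e <;> simp [e]
  rw [this, one_mul]
  exact prod_le_prod (fun _ _ => norm_nonneg _) fun i _ => h i (σ i)

theorem sum_inj {α : Type} [Fintype α] [DecidableEq α] (n : ℕ) (G : Finset α → ℂ) (g : (Fin n → α) → ℂ)
    (h0 : ∀ k, ¬ Function.Injective k → g k = 0)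
    (h1 : ∀ k, Function.Injective k → g k = G (univ.image k)) :
    ∑ k, g k = n.factorial * ∑ S ∈ powersetCard n univ, G S := by
  classical
  rw [← sum_filter_of_ne (p := Function.Injective) fun k _ hk => by_contra fun h => hk (h0 k h),
    ← sum_fiberwise_of_maps_to (t := powersetCard n univ) (g := fun k => univ.image k) (fun k hk => by
      rw [mem_powersetCard_univ, card_image_of_injective _ (mem_filter.1 hk).2]
      simp), mul_sum]
  refine sum_congr rfl fun S hS => ?_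
  have hc := mem_powersetCard_univ.1 hS
  rw [sum_congr rfl (g := fun _ => G S) fun k hk => by
    rw [h1 k (mem_filter.1 (mem_filter.1 hk).1).2, (mem_filter.1 hk).2], sum_const, nsmul_eq_mul]
  congr 2
  have e : (univ : Finset (Fin n ↪ S)).card = n.factorial := by
    simp [Fintype.card_embedding_eq, hc, Nat.descFactorial_self]
  rw [← e]
  symm
  refine card_bij (fun f _ a => (f a : α)) (fun f _ => ?_) (fun f _ f' _ h => ?_) fun k hk => ?_
  · have i : Function.Injective fun a => (f a : α) := Subtype.val_injective.comp f.injective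
    refine mem_filter.2 ⟨mem_filter.2 ⟨mem_univ _, i⟩, eq_of_subset_of_card_le (fun x hx => ?_) ?_⟩
    · obtain ⟨a, -, rfl⟩ := mem_image.1 hx
      exact (f a).2
    · rw [card_image_of_injective _ i]
      simp [hc]
  · ext a
    exact congrFun h a
  · obtain ⟨a1, a2⟩ := mem_filter.1 hk
    exact ⟨⟨fun a => ⟨k a, a2 ▸ mem_image_of_mem _ (mem_univ a)⟩,
      fun a b h => (mem_filter.1 a1).2 (congrArg Subtype.val h)⟩, mem_univ _, rfl⟩

/-- index list `0, k 0 + 1, k 1 + 1, …` -/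
def ix {n : ℕ} (k : Fin n → ℕ) : Fin (n + 1) → ℕ := Fin.cons 0 fun a => k a + 1

def sub (Z : ℕ → ℕ → ℂ) {n : ℕ} (k : Fin n → ℕ) : ℂ := (of fun a b => Z (ix k a) (ix k b)).det

def sec (Z : ℕ → ℕ → ℂ) (N : ℕ) : Matrix (Fin (N + 1)) (Fin (N + 1)) ℂ :=
  of fun i j => if i = 0 then Z 0 j else (if i = j then 1 else 0) - Z i j

theorem sub_zero' (Z : ℕ → ℕ → ℂ) {n : ℕ} {k : Fin n → ℕ} (hk : ¬ Function.Injective k) : sub Z k = 0 := by
  obtain ⟨a, b, h, ne⟩ := Function.not_injective_iff.1 hk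
  exact det_zero_of_row_eq (i := a.succ) (j := b.succ) (by simpa using ne) (by ext j; simp [ix, h])

theorem sec_det (Z : ℕ → ℕ → ℂ) (N : ℕ) : (sec Z N).det =
    ∑ n ∈ range (N + 1), (-1) ^ n / n.factorial * ∑ k : Fin n → Fin N, sub Z fun a => k a := by
  classical
  let m : Matrix (Fin (N + 1)) (Fin (N + 1)) ℂ := of fun i j => if i = 0 then Z 0 j else -Z i j
  let D := (detRowAlternating : (Fin (N + 1) → ℂ) [⋀^Fin (N + 1)]→ₗ[ℂ] ℂ).toMultilinearMap.curryLeft (m 0)
  let G : Finset (Fin N) → ℂ := fun S => D (S.piecewise (fun i => m i.succ) fun i => (1 : Matrix _ _ ℂ) i.succ)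
  have e1 : (sec Z N).det = ∑ S, G S := by
    rw [← D.map_add_univ]
    change _ = det (Fin.cons (m 0) _)
    congr 1
    ext i j
    refine Fin.cases ?_ (fun i => ?_) i
    · simp [sec, m]
    · simp [sec, m, one_apply, Fin.succ_ne_zero]
      ring
  have e2 : ∀ n, ∑ k : Fin n → Fin N, (-1) ^ n * sub Z (fun a => k a) =
      n.factorial * ∑ S ∈ powersetCard n univ, G S := fun n => by
    refine sum_inj n G _ (fun k hk => ?_) fun k hk => ?_
    · rw [sub_zero' Z fun h => hk fun a b e => h (by simp [e]), mul_zero]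
    · let c : Fin (n + 1) → Fin (N + 1) := Fin.cons 0 fun a => (k a).succ
      have ci : Function.Injective c :=
        Fin.cons_injective_of_injective (by simp) ((Fin.succ_injective _).comp hk)
      have a1 : G (univ.image k) = det (of ((univ.image c).piecewise m.row (1 : Matrix _ _ ℂ).row)) := by
        change det (Fin.cons (m 0) _) = _
        congr 1
        ext i j
        refine Fin.cases ?_ (fun i => ?_) i
        · have : (0 : Fin (N + 1)) ∈ univ.image c := mem_image_of_mem c (mem_univ 0)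
          simp [piecewise, this]
        · have : i.succ ∈ univ.image c ↔ i ∈ univ.image k := by
            simp [c, Fin.exists_fin_succ, (Fin.succ_ne_zero i).symm]
          simp only [Fin.cons_succ, piecewise, this, of_apply]
          split_ifs <;> rfl
      let e : Fin (n + 1) ≃ ↥(univ.image c) := Equiv.ofBijective
        (fun a => ⟨c a, mem_image_of_mem c (mem_univ a)⟩)
        ⟨fun a b h => ci (congrArg Subtype.val h), fun x => by
          obtain ⟨a, -, ha⟩ := mem_image.1 x.2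
          exact ⟨a, Subtype.ext ha⟩⟩
      rw [a1, det_piecewise_one_eq_submatrix_det, ← det_submatrix_equiv_self e, sub]
      have a2 := det_mul_column (Fin.cons 1 fun _ => -1 : Fin (n + 1) → ℂ)
        (of fun a b => Z (ix (fun a => k a) a) (ix (fun a => k a) b))
      rw [Fin.prod_univ_succ] at a2
      simp only [Fin.cons_zero, Fin.cons_succ, prod_const, card_univ, Fintype.card_fin, one_mul] at a2
      rw [← a2]
      congr 1
      have ce : ∀ a, ix (fun a => (k a : ℕ)) a = c a := fun a => by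
        refine Fin.cases ?_ (fun a => ?_) a <;> simp [ix, c]
      ext a b
      have ee : ∀ a, (e a : Fin (N + 1)) = c a := fun _ => rfl
      simp only [of_apply, submatrix_apply, ce, m, ee]
      refine Fin.cases ?_ (fun a => ?_) a <;> simp [c, Fin.succ_ne_zero]
  rw [e1, ← powerset_univ, sum_powerset, card_univ, Fintype.card_fin]
  refine sum_congr rfl fun n _ => ?_
  have := e2 n
  rw [← mul_sum] at this
  have f0 : (n.factorial : ℂ) ≠ 0 := by exact_mod_cast n.factorial_ne_zero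
  field_simp
  linear_combination -this

section
variable {Z : ℕ → ℕ → ℂ} {a : ℕ → ℝ} (ha : ∀ i, 0 ≤ a i) (hZ : ∀ i j, ‖Z i j‖ ≤ a i)
  (hs : Summable fun i : ℕ => ((i : ℝ) + 1) * a i)
include ha hZ

theorem sub_le {n : ℕ} (k : Fin n → ℕ) : ‖sub Z k‖ ≤ a 0 * ∏ c, ((k c : ℝ) + 2) * a (k c + 1) := by
  have h0 := fun i => ha i
  by_cases hk : Function.Injective k
  · refine (det_bound _ (b := fun c => a (ix k c)) fun i j => hZ _ _).trans ?_
    rw [Fin.prod_univ_succ, prod_mul_distrib]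
    simp only [ix, Fin.cons_zero, Fin.cons_succ]
    have := mul_le_mul_of_nonneg_right (fact_le' hk)
      (mul_nonneg (ha 0) (prod_nonneg fun c _ => ha (k c + 1) : 0 ≤ ∏ c, a (k c + 1)))
    linarith
  · rw [sub_zero' Z hk, norm_zero]
    exact mul_nonneg (ha 0) (prod_nonneg fun c _ => mul_nonneg (by positivity) (ha _))

include hs in
theorem koch : (Summable fun n : ℕ => ‖(-1) ^ n / (n.factorial : ℂ) * ∑' k : Fin n → ℕ, sub Z k‖) ∧
    Tendsto (fun N => (sec Z N).det) atTop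
      (𝓝 (∑' n : ℕ, (-1) ^ n / (n.factorial : ℂ) * ∑' k : Fin n → ℕ, sub Z k)) := by
  classical
  have s1 : Summable fun i : ℕ => ((i : ℝ) + 2) * a (i + 1) :=
    ((summable_nat_add_iff 1).2 hs).congr fun i => by push_cast; ring
  set β := ∑' i : ℕ, ((i : ℝ) + 2) * a (i + 1)
  have s2 : ∀ n, HasSum (fun k : Fin n → ℕ => a 0 * ∏ c, ((k c : ℝ) + 2) * a (k c + 1)) (a 0 * β ^ n) :=
    fun n => by
      simpa using (hasSum_pi n (fun _ (i : ℕ) => ((i : ℝ) + 2) * a (i + 1)) fun _ => s1.norm).2.mul_left (a 0)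
  have s3 : Summable fun n : ℕ => a 0 * (β ^ n / n.factorial) := (Real.summable_pow_div_factorial β).mul_left _
  have b : ∀ (n : ℕ) (g : (Fin n → ℕ) → ℂ), (∀ k, ‖g k‖ ≤ ‖sub Z k‖) →
      ‖(-1) ^ n / (n.factorial : ℂ) * ∑' k, g k‖ ≤ a 0 * (β ^ n / n.factorial) := fun n g hg => by
    have := tsum_of_norm_bounded (s2 n) fun k => (hg k).trans (sub_le ha hZ k)
    rw [norm_mul, norm_div, norm_pow, norm_neg, norm_one, one_pow, Complex.norm_natCast]
    refine (mul_le_mul_of_nonneg_left this (by positivity)).trans (le_of_eq (by ring))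
  refine ⟨Summable.of_nonneg_of_le (fun _ => norm_nonneg _) (fun n => b n _ fun _ => le_rfl) s3, ?_⟩
  have c : ∀ N n, ∑' k : Fin n → ℕ, (if ∀ c, k c < N then sub Z k else 0) =
      ∑ k : Fin n → Fin N, sub Z fun c => k c := fun N n => by
    have i : Function.Injective fun (k : Fin n → Fin N) (c : Fin n) => (k c : ℕ) :=
      fun k k' h => funext fun c => Fin.ext (congrFun h c)
    rw [← i.tsum_eq, tsum_fintype]
    · simp
    · intro k hk
      have : ∀ c, k c < N := by_contra fun h => hk (if_neg h)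
      exact ⟨fun c => ⟨k c, this c⟩, rfl⟩
  have t := tendsto_tsum_of_dominated_convergence (𝓕 := atTop)
    (f := fun N n : ℕ => (-1) ^ n / (n.factorial : ℂ) * ∑' k : Fin n → ℕ, if ∀ c, k c < N then sub Z k else 0)
    s3 (fun n => (tendsto_tsum_of_dominated_convergence (g := fun k => sub Z k) (s2 n).summable
      (fun k => tendsto_const_nhds.congr' (by
        filter_upwards [eventually_gt_atTop (univ.sup k)] with N hN
        rw [if_pos fun c => (le_sup (mem_univ c)).trans_lt hN]))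
      (Eventually.of_forall fun N k => by
        split_ifs
        · exact sub_le ha hZ k
        · exact le_trans (by simp) (sub_le ha hZ k))).const_mul _)
    (Eventually.of_forall fun N n => b n _ fun k => by split_ifs <;> simp)
  refine t.congr fun N => ?_
  simp only [c]
  rw [sec_det, tsum_eq_sum fun n hn => ?_]
  rw [sum_eq_zero fun k _ => sub_zero' Z fun h => ?_, mul_zero]
  have := Fintype.card_le_of_injective k fun x y e => h (by simp [e])
  simp at this hn
  omega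

include hs in
theorem koch_ne (inj : ∀ u : ℕ → ℂ, (Summable fun j => ‖u j‖) → ∑' j, Z 0 j * u j = 0 →
      (∀ i, i ≠ 0 → u i = ∑' j, Z i j * u j) → u = 0) {L : ℂ}
    (hL : Tendsto (fun N => (sec Z N).det) atTop (𝓝 L)) :
    L ≠ 0 ∧ ∀ (v : ℕ → ℂ) (r : ℕ → ℂ) (ρ : ℝ) (L' : ℂ), (Summable fun j => ‖v j‖) →
      (∀ i, i ≠ 0 → v i = ∑' j, Z i j * v j) → (∀ j, ‖r j‖ ≤ ρ) →
      Tendsto (fun N => ((sec Z N).updateRow 0 fun j => r j).det) atTop (𝓝 L') →
      (∑' j, Z 0 j * v j) * L' / L = ∑' j, r j * v j := by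
  classical
  let C : ℕ → ℕ → ℂ := fun i j => if i = 0 then (if j = 0 then 1 else 0) - Z 0 j else Z i j
  let a' : ℕ → ℝ := fun i => if i = 0 then 1 + a 0 else a i
  have a0 : ∀ i, 0 ≤ a' i := fun i => by simp only [a']; split_ifs <;> linarith [ha 0, ha i]
  have hC : ∀ i j, ‖C i j‖ ≤ a' i * 1 := fun i j => by
    simp only [C, a', mul_one]
    split_ifs
    · exact (norm_sub_le _ _).trans (by simpa using hZ 0 j)
    · simpa using (hZ 0 j).trans (by linarith)
    · exact hZ i j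
  have sa : Summable a := Summable.of_nonneg_of_le ha
    (fun i => le_mul_of_one_le_left (ha i) (by linarith [Nat.cast_nonneg (α := ℝ) i])) hs
  have sa' : Summable fun i => 1 * a' i := (summable_nat_add_iff 1).1 (by simpa [a'] using (summable_nat_add_iff 1).2 sa)
  have row0 : ∀ u : ℕ → ℂ, (Summable fun j => ‖u j‖) → ∑' j, C 0 j * u j = u 0 - ∑' j, Z 0 j * u j := by
    intro u hu
    have := (row_summable (γ := fun _ => 1) ha (fun _ => le_rfl) (fun i j => by simpa using hZ i j)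
      (by simpa using hu) 0).of_norm
    refine (hs_congr ((hasSum_ite_eq 0 (u 0)).sub this.hasSum) (fun j => ?_) rfl).tsum_eq
    by_cases hj : j = 0 <;> simp [C, hj, sub_mul]
  have inj' : ∀ u : ℕ → ℂ, (Summable fun j => 1 * ‖u j‖) → (∀ i, u i = ∑' j, C i j * u j) → u = 0 := by
    intro u hu h
    simp only [one_mul] at hu
    refine inj u hu ?_ fun i hi => by simpa only [C, if_neg hi] using h i
    have := h 0
    rw [row0 u hu] at this
    linear_combination this
  have hM : ∀ N i j, sec Z N i j = (if i = j then 1 else 0) - C i j := fun N i j => by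
    simp only [sec, of_apply, C, Fin.val_eq_zero_iff]
    by_cases hi : i = 0
    · by_cases hj : j = 0
      · simp [hi, hj]
      · simp [hi, hj, Ne.symm hj]
    · simp [hi]
  have L0 : L ≠ 0 := by
    obtain ⟨D, N0, D0, hD⟩ := bound_below a0 (fun _ => le_rfl) hC sa' inj'
    obtain ⟨_, N1, _, h1⟩ := section_conv a0 (fun _ => le_rfl) hC sa' inj' (v := 0) (κ := 0) (by simp) (by simp)
    have st : ∀ N, N0 ≤ N → ‖(sec Z N).det‖ ≤ ‖(sec Z (N + 1)).det‖ * Real.exp (D * a (N + 1)) := by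
      intro N hN
      set M := sec Z (N + 1)
      set y := cramer M (Pi.single (Fin.last _) 1)
      let u : ℕ → ℂ := fun i => if h : i < N + 2 then y ⟨i, h⟩ else 0
      have u0 : ∀ i, N + 1 < i → u i = 0 := fun i hi => dif_neg (by omega)
      have u1 : ∀ i : Fin (N + 2), u i = y i := fun i => dif_pos i.2
      have mv : ∀ i : Fin (N + 2), (if (i : ℕ) = N + 1 then M.det else 0) = u i - ∑' j, C i j * u j := by
        intro i
        have := congrFun (mulVec_cramer M (Pi.single (Fin.last _) 1)) i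
        rw [tsum_eq_sum (s := range (N + 2)) fun j hj => by rw [u0 j (by simp at hj; omega), mul_zero],
          sum_range]
        simp only [mulVec, dotProduct, M, hM, sub_mul, sum_sub_distrib, ite_mul, one_mul, zero_mul,
          sum_ite_eq, mem_univ, if_true] at this
        simp only [u1]
        rw [this]
        simp [Pi.single_apply, Fin.ext_iff, M]
      have b1 := hD (N + 1) (by omega) u (fun i => if i = N + 1 then M.det else 0) u0
        (fun i hi => if_neg (by omega)) fun i hi => mv ⟨i, by omega⟩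
      have b2 : ∑' j : ℕ, 1 * ‖if j = N + 1 then M.det else 0‖ = ‖M.det‖ := by
        rw [tsum_eq_single (N + 1) fun j hj => by simp [hj]]
        simp
      have b3 := row_le a0 (fun _ => le_rfl) hC (wsum_fin u0) (N + 1)
      have b4 := mv (Fin.last _)
      have b5 : y (Fin.last _) = (sec Z N).det := by
        simp only [y]
        rw [cramer_apply, det_succ_column _ (Fin.last _), sum_eq_single (Fin.last _)
          (fun i _ hi => by simp [hi]) (by simp)]
        simp only [updateCol_self, Pi.single_eq_same, mul_one, ← two_mul, pow_mul, neg_one_sq, one_pow, one_mul,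
          Fin.succAbove_last]
        congr 1
        ext i j
        simp [M, sec, Fin.castSucc_ne_last]
      rw [u1, b5] at b4
      simp only [Fin.val_last, if_true] at b4
      rw [b2] at b1
      have b6 : ‖(sec Z N).det‖ ≤ ‖M.det‖ + ‖∑' j, C (N + 1) j * u j‖ := by
        rw [b4]
        simpa using norm_add_le ((sec Z N).det - ∑' j, C (N + 1) j * u j) (∑' j, C (N + 1) j * u j)
      have b7 := mul_le_mul_of_nonneg_left b1 (a0 (N + 1))
      have b8 := mul_le_mul_of_nonneg_left (Real.add_one_le_exp (D * a (N + 1))) (norm_nonneg M.det)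
      simp only [a', if_neg N.succ_ne_zero] at b3 b7
      nlinarith
    set N2 := max N0 N1
    have st' : ∀ N, N2 ≤ N → ‖(sec Z N2).det‖ ≤ ‖(sec Z N).det‖ * Real.exp (D * ∑ i ∈ range (N + 1), a i) := by
      intro N hN
      induction N, hN using Nat.le_induction with
      | base =>
        exact le_mul_of_one_le_right (norm_nonneg _)
          (Real.one_le_exp (mul_nonneg D0 (sum_nonneg fun i _ => ha i)))
      | succ N hN ih =>
        refine ih.trans ((mul_le_mul_of_nonneg_right (st N (le_of_max_le_left hN)) (Real.exp_nonneg _)).trans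
          (le_of_eq ?_))
        rw [sum_range_succ _ (N + 1), mul_add, Real.exp_add]
        ring
    have b1 : ‖(sec Z N2).det‖ ≤ ‖L‖ * Real.exp (D * ∑' i, a i) :=
      ge_of_tendsto (hL.norm.mul_const _) ((eventually_ge_atTop N2).mono fun N hN => (st' N hN).trans
        (mul_le_mul_of_nonneg_left (Real.exp_le_exp.2 (mul_le_mul_of_nonneg_left
          (sa.sum_le_tsum _ fun i _ => ha i) D0)) (norm_nonneg _)))
    intro e
    exact (h1 N2 (le_max_right _ _) _ (hM N2)).1 (by simpa [e] using b1)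
  refine ⟨L0, fun v r ρ L' hv h hr hL' => ?_⟩
  obtain ⟨D, N0, -, h1⟩ := section_conv a0 (fun _ => le_rfl) hC sa' inj' (v := v) (κ := ∑' j, Z 0 j * v j)
    (by simpa using hv) (fun i => by
      split_ifs with hi
      · rw [hi, row0 v hv]
        ring
      · simp only [C, if_neg hi, ← h i hi, sub_self])
  have ρ0 : 0 < ρ + 1 := by linarith [hr 0, norm_nonneg (r 0)]
  have ρ1 : ((ρ + 1 : ℝ) : ℂ) ≠ 0 := by exact_mod_cast ρ0.ne'
  have t1 := ((hL'.const_mul (((ρ + 1 : ℝ) : ℂ)⁻¹)).const_mul (∑' j, Z 0 j * v j)).div hL L0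
  have t2 : Tendsto (fun N => D * ∑' m, 1 * ‖v (m + (N + 1))‖) atTop (𝓝 0) := by
    simpa using ((tendsto_sum_nat_add fun j => ‖v j‖).comp (tendsto_add_atTop_nat 1)).const_mul D
  have t3 := tendsto_nhds_unique t1 (tendsto_sub_nhds_zero_iff.1 (squeeze_zero_norm'
    (((eventually_ge_atTop N0).mono fun N hN => by
      have := (h1 N hN _ (hM N)).2 (fun j => ((ρ + 1 : ℝ) : ℂ)⁻¹ * r j) fun j => by
        rw [norm_mul, norm_inv, Complex.norm_real, Real.norm_of_nonneg ρ0.le, inv_mul_le_iff₀ ρ0]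
        linarith [hr j]
      rwa [show (fun j : Fin (N + 1) => ((ρ + 1 : ℝ) : ℂ)⁻¹ * r j) = ((ρ + 1 : ℝ) : ℂ)⁻¹ • fun j : Fin (N + 1) => r j
        from rfl, det_updateRow_smul] at this)) t2))
  simp only [mul_assoc, tsum_mul_left] at t3
  refine mul_left_cancel₀ (inv_ne_zero ρ1) ?_
  rw [← t3]
  ring

end

end

end Pool.Agent.P.MP_386d8e_pr
end

-- part Pool.Agent.P.MP_386d8e_pr.FredB
section

set_option autoImplicit false

open Filter Topology Finset Matrix

namespace Pool.Agent.P.MP_386d8e_pr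

noncomputable section

variable {R : ℝ} (hR : 0 < R)
include hR

theorem avg_sumR {ι : Type} [Countable ι] (w : ι → ℂ) (hw : Summable fun i => ‖w i‖) (n : ι → ℤ)
    (F : ℂ → ℂ) (hF : ∀ y : ℂ, ‖y‖ = R → HasSum (fun i => w i * (y / R) ^ n i) (F y)) :
    HasSum (fun i => if n i = 0 then w i else 0) (Real.circleAverage F 0 R) := by
  rw [Real.circleAverage_eq_circleAverage_zero_one]
  refine avg_sum w hw n _ fun y hy _ => ?_
  have R0 : (R : ℂ) ≠ 0 := by exact_mod_cast hR.ne'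
  have := hF (R * y + 0) (by simp [hy, abs_of_pos hR])
  rwa [show (R * y + 0) / (R : ℂ) = y by field_simp; ring] at this

theorem norm_unit {y : ℂ} (hy : ‖y‖ = R) : ‖y / R‖ = 1 := by
  rw [norm_div, hy, Complex.norm_real, Real.norm_of_nonneg hR.le, div_self hR.ne']

theorem avgN_sum {ι : Type} [Countable ι] (n : ℕ) (c : ι → ℂ) (hc : Summable fun i => ‖c i‖)
    (k : ι → Fin n → ℤ) (F : (Fin n → ℂ) → ℂ)
    (hF : ∀ v : Fin n → ℂ, (∀ a, ‖v a‖ = R) → HasSum (fun i => c i * ∏ a, (v a / R) ^ k i a) (F v)) :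
    HasSum (fun i => if k i = 0 then c i else 0) (avgN R n F) := by
  induction n generalizing c with
  | zero => exact hs_congr (hF Fin.elim0 fun a => a.elim0) (fun i => by simp [Subsingleton.elim (k i) 0]) rfl
  | succ n ih =>
    refine hs_congr (avg_sumR hR (fun i => if Fin.tail (k i) = 0 then c i else 0)
      (Summable.of_nonneg_of_le (fun _ => norm_nonneg _) (fun i => by split_ifs <;> simp) hc) (fun i => k i 0)
      _ fun w hw => hs_congr (ih (fun i => c i * (w / R) ^ k i 0)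
        (by simpa only [norm_mul, norm_zpow, norm_unit hR hw, _root_.one_zpow, mul_one] using hc)
        (fun i => Fin.tail (k i)) (fun v => F (Fin.cons w v)) fun v hv =>
          hs_congr (hF (Fin.cons w v) fun a => Fin.cases hw hv a)
            (fun i => by simp [Fin.prod_univ_succ, Fin.tail, mul_assoc]) rfl)
        (fun i => by split_ifs <;> simp) rfl) (fun i => ?_) rfl
    have : k i = 0 ↔ k i 0 = 0 ∧ Fin.tail (k i) = 0 := by
      simp [funext_iff, Fin.forall_fin_succ, Fin.tail]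
    simp only [this, ite_and]

theorem avgN_det {Z : ℕ → ℕ → ℂ} (hZ : Summable fun s : ℕ × ℕ => ‖Z s.1 s.2‖) (n : ℕ)
    (A : (Fin n → ℂ) → Matrix (Fin (n + 1)) (Fin (n + 1)) ℂ)
    (hA : ∀ v : Fin n → ℂ, (∀ a, ‖v a‖ = R) → ∀ a b, HasSum (fun s : ℕ × ℕ =>
      (if (a = 0 ↔ s.1 = 0) ∧ (b = 0 ↔ s.2 = 0) then Z s.1 s.2 else 0) *
        ((Fin.cons 1 fun c => v c / R : Fin (n + 1) → ℂ) a ^ ((s.1 : ℤ) - 1) *
          (Fin.cons 1 fun c => v c / R : Fin (n + 1) → ℂ) b ^ (1 - (s.2 : ℤ)))) (A v a b)) :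
    HasSum (fun k : Fin n → ℕ => sub Z k) (avgN R n fun v => (A v).det) := by
  classical
  let z : Fin (n + 1) → Fin (n + 1) → ℕ × ℕ → ℂ := fun a b s =>
    if (a = 0 ↔ s.1 = 0) ∧ (b = 0 ↔ s.2 = 0) then Z s.1 s.2 else 0
  have zs : ∀ a b, Summable fun s => ‖z a b s‖ := fun a b =>
    Summable.of_nonneg_of_le (fun _ => norm_nonneg _) (fun s => by simp only [z]; split_ifs <;> simp) hZ
  let e : Equiv.Perm (Fin (n + 1)) → ((Fin (n + 1) → ℕ) × (Fin (n + 1) → ℕ) ≃ (Fin (n + 1) → ℕ × ℕ)) := fun σ =>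
    ⟨fun p b => (p.1 (σ b), p.2 b), fun s => (fun a => (s (σ.symm a)).1, fun b => (s b).2),
      fun p => by simp, fun s => by simp⟩
  let c : (Fin (n + 1) → ℕ) × (Fin (n + 1) → ℕ) → ℂ := fun p => (of fun a b => z a b (p.1 a, p.2 b)).det
  have c1 : Summable fun p => ‖c p‖ := by
    simp only [c, det_apply']
    refine Summable.of_nonneg_of_le (fun _ => norm_nonneg _) (fun p => norm_sum_le _ _)
      (summable_sum fun σ _ => ?_)
    simp only [norm_mul]
    exact ((e σ).summable_iff.2 (hasSum_pi _ (fun b => z (σ b) b) fun b => zs _ _).1).mul_left _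
  have main := avgN_sum hR n c c1 (fun p a => (p.1 a.succ : ℤ) - p.2 a.succ) (fun v => (A v).det) fun v hv => by
    set w : Fin (n + 1) → ℂ := Fin.cons 1 fun c => v c / R with hw
    have w1 : ∀ a, ‖w a‖ = 1 := fun a => Fin.cases (by simp [hw]) (fun a => norm_unit hR (hv a)) a
    have w0 : ∀ a, w a ≠ 0 := fun a h => by simpa [h] using w1 a
    simp only [c, det_apply', sum_mul]
    refine hasSum_sum fun σ _ => ?_
    have := (e σ).hasSum_iff.2 (hasSum_pi _ (fun b s => z (σ b) b s *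
      (w (σ b) ^ ((s.1 : ℤ) - 1) * w b ^ (1 - (s.2 : ℤ)))) fun b => by
        simpa only [norm_mul, norm_zpow, w1, _root_.one_zpow, mul_one] using zs (σ b) b).2
    refine hs_congr (this.mul_left _) (fun p => ?_) (by
      congr 1
      exact prod_congr rfl fun b _ => (hA v hv (σ b) b).tsum_eq.symm)
    rw [mul_assoc]
    congr 1
    simp only [Function.comp, e, Equiv.coe_fn_mk, prod_mul_distrib, of_apply]
    congr 1
    rw [Equiv.prod_comp σ fun a => w a ^ ((p.1 a : ℤ) - 1), ← prod_mul_distrib, Fin.prod_univ_succ]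
    simp only [hw, Fin.cons_zero, _root_.one_zpow, one_mul, Fin.cons_succ]
    refine prod_congr rfl fun a _ => ?_
    rw [← zpow_add₀ (show v a / R ≠ 0 from w0 a.succ)]
    congr 1
    ring
  have inj : Function.Injective fun k : Fin n → ℕ => (ix k, ix k) := fun k k' h => funext fun a => by
    simpa [ix] using congrFun (congrArg Prod.fst h) a.succ
  refine hs_congr ((inj.hasSum_iff fun p hp => ?_).2 main) (fun k => ?_) rfl
  · split_ifs with h
    · by_contra h0
      have a1 : ∀ a, a = 0 ↔ p.1 a = 0 := fun a => by_contra fun h' =>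
        h0 (det_eq_zero_of_row_eq_zero a fun b => if_neg fun h2 => h' h2.1)
      have a2 : ∀ b, b = 0 ↔ p.2 b = 0 := fun b => by_contra fun h' =>
        h0 (det_eq_zero_of_column_eq_zero b fun a => if_neg fun h2 => h' h2.2)
      have a3 : (ix fun a => p.1 a.succ - 1) = p.1 := funext fun a =>
        Fin.cases ((a1 0).1 rfl).symm (fun a => by
          have := mt (a1 a.succ).2 a.succ_ne_zero
          simp only [ix, Fin.cons_succ]
          omega) a
      refine hp ⟨fun a => p.1 a.succ - 1, Prod.ext a3 (a3.trans (funext fun a => ?_))⟩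
      refine Fin.cases (((a1 0).1 rfl).trans ((a2 0).1 rfl).symm) (fun a => ?_) a
      have := congrFun h a
      simp only [Pi.zero_apply] at this
      omega
    · rfl
  · have a1 : ∀ a, a = 0 ↔ ix k a = 0 := fun a => Fin.cases (by simp [ix]) (fun a => by simp [ix]) a
    simp only [Function.comp, sub_self, c, z, a1, sub, and_self, if_true]
    exact (if_pos rfl).symm

end

end Pool.Agent.P.MP_386d8e_pr
end

-- part Pool.Agent.P.MP_386d8e_pr.FredC
section

set_option autoImplicit false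

open Filter Topology Finset Matrix Metric

namespace Pool.Agent.P.MP_386d8e_pr

noncomputable section

section
variable {R : ℝ} (hR : 0 < R)
include hR

theorem avg_dom {ι : Type} [Countable ι] {g : ι → ℂ → ℂ} {b : ι → ℝ} {G : ℂ → ℂ}
    (hg : ∀ i, ContinuousOn (g i) (sphere 0 R)) (hb : ∀ i (y : ℂ), ‖y‖ = R → ‖g i y‖ ≤ b i) (hs : Summable b)
    (hG : ∀ y : ℂ, ‖y‖ = R → HasSum (fun i => g i y) (G y)) :
    HasSum (fun i => Real.circleAverage (g i) 0 R) (Real.circleAverage G 0 R) := by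
  have hc : ∀ t : ℝ, ‖circleMap 0 R t‖ = R := fun t => by simp [abs_of_pos hR]
  refine HasSum.const_smul ((2 * Real.pi)⁻¹ : ℝ)
    (intervalIntegral.hasSum_integral_of_dominated_convergence (fun i _ => b i) (fun i => ?_)
      (fun i => Eventually.of_forall fun t _ => hb i _ (hc t)) (Eventually.of_forall fun t _ => hs)
      intervalIntegrable_const (Eventually.of_forall fun t _ => hG _ (hc t)))
  exact ((hg i).comp_continuous (continuous_circleMap 0 R) fun t => by simpa using hc t).aestronglyMeasurable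

theorem avg_norm {g : ℂ → ℂ} {b : ℝ} (hb : ∀ y : ℂ, ‖y‖ = R → ‖g y‖ ≤ b) :
    ‖Real.circleAverage g 0 R‖ ≤ b := by
  have hp := Real.two_pi_pos
  have := intervalIntegral.norm_integral_le_of_norm_le_const (a := 0) (b := 2 * Real.pi)
    (f := fun t => g (circleMap 0 R t)) (C := b) fun t _ => hb _ (by simp [abs_of_pos hR])
  rw [Real.circleAverage_def, norm_smul, norm_inv, Real.norm_of_nonneg hp.le, inv_mul_le_iff₀ hp]
  rwa [sub_zero, abs_of_pos hp, mul_comm b] at this

theorem avg_coef {c : ℕ → ℂ} (hc : Summable fun i => ‖c i‖ * R ^ i) {f : ℂ → ℂ}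
    (hf : ∀ y : ℂ, ‖y‖ = R → HasSum (fun i => c i * y ^ i) (f y)) (j : ℕ) :
    Real.circleAverage (fun y => y⁻¹ ^ j * f y) 0 R = c j := by
  have R0 : (R : ℂ) ≠ 0 := by exact_mod_cast hR.ne'
  have := avg_sumR hR (fun i => c i * R ^ i / R ^ j) (by
      simpa [abs_of_pos hR] using hc.div_const (R ^ j)) (fun i => (i : ℤ) - j)
    (fun y => y⁻¹ ^ j * f y) fun y hy => hs_congr ((hf y hy).mul_left (y⁻¹ ^ j)) (fun i => by
      have y0 : y ≠ 0 := fun h => by simp [h, hR.ne] at hy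
      rw [zpow_sub₀ (div_ne_zero y0 R0), zpow_natCast, zpow_natCast, div_pow, div_pow, inv_pow]
      field_simp) rfl
  refine this.unique ?_
  have h := hasSum_single (f := fun i : ℕ => if (i : ℤ) - j = 0 then c i * R ^ i / R ^ j else 0) j
    fun i hi => if_neg (by omega)
  simpa [R0] using h

end

theorem wgeo {r : ℝ} (r0 : 0 ≤ r) (r1 : r < 1) : Summable fun n : ℕ => (1 + (n : ℝ)) * r ^ n :=
  ((summable_geometric_of_lt_one r0 r1).add (by
    simpa using summable_pow_mul_geometric_of_norm_lt_one 1 (r := r)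
      (by rw [Real.norm_of_nonneg r0]; exact r1))).congr fun n => by ring

/-- the bordered matrix of the kernel in the basis `(z / R) ^ j` -/
def Zm (P : Model) (R : ℝ) (x : ℂ) : ℕ → ℕ → ℂ
  | 0, 0 => 1
  | 0, j + 1 => P.T (fun z => z ^ j) x / R ^ j
  | i + 1, 0 => if i = 0 then 1 else 0
  | i + 1, j + 1 => P.t i j * R ^ i / R ^ j

namespace Setup

variable {P : Model} {S : Setup P} (T : S.Stable) {R : ℝ} (h1 : 1 < R) (h2 : S.α * R < 1)

include T h2 in
theorem Stable.T_big {v : ℕ → ℂ} (hv : Summable fun j : ℕ => (1 + (j : ℝ)) * ‖v j‖) {K : ℂ → ℂ}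
    (hK : ∀ x : ℂ, ‖x‖ ≤ 1 → HasSum (fun j => v j * x ^ j) (K x)) {u : ℂ} (hu : ‖u‖ ≤ R) :
    HasSum (fun i => (∑' j, P.t i j * v j) * u ^ i) (P.T K u) := by
  obtain ⟨C, c, F, hL, -, hF, m1, m2⟩ := (T.exists_mix T.rho_lt le_rfl).2 v hv K hK
  have a1 : ∀ i, W ‖c (i, 0)‖ fun u _ => c (i, 0) * (S.s1 u * S.b1 u ^ i) := fun i => by
    simpa using ((S.S1.comp W.fst).mul1 ((S.B1.comp W.fst).pow1 i)).cmul (c (i, 0))
  obtain ⟨e, e1, -, e2⟩ := (W.tsum a1 hL.lev0.1.hasSum).univ'
  have e3 : ∀ x : ℂ, ‖S.α * x‖ ≤ 1 → HasSum (fun i => e i * S.α ^ i * x ^ i) (P.T K x) := fun x hx =>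
    hs_congr (e2 _ hx) (fun i => by rw [mul_pow, mul_assoc]) (S.T_eq hL hF hx).tsum_eq.symm
  have e4 : Summable fun i => ‖e i * S.α ^ i‖ := Summable.of_nonneg_of_le (fun _ => norm_nonneg _)
    (fun i => by
      rw [norm_mul, norm_pow, Complex.norm_real, Real.norm_of_nonneg S.hα.le]
      exact mul_le_of_le_one_right (norm_nonneg _) (pow_le_one₀ S.hα.le S.α_lt.le)) e1
  refine hs_congr (e3 u ?_) (fun i => ?_) rfl
  · rw [norm_mul, Complex.norm_real, Real.norm_of_nonneg S.hα.le]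
    exact (mul_le_mul_of_nonneg_left hu S.hα.le).trans h2.le
  · rw [sub_eq_zero.1 (coeff_nat (fun i => ∑' j, P.t i j * v j - e i * S.α ^ i)
      (m1.of_norm.sub e4.of_norm).norm (fun x hx => hs_congr ((m2 x hx.le).sub (e3 x (S.αx_le hx.le)))
        (fun i => by ring) (sub_self _).symm) i)]

include T h2 in
theorem Stable.T_mono (j : ℕ) {u : ℂ} (hu : ‖u‖ ≤ R) :
    HasSum (fun i => P.t i j * u ^ i) (P.T (fun z => z ^ j) u) := by
  have := T.T_big h2 (v := fun i => if i = j then 1 else 0) (K := fun z => z ^ j)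
    (summable_of_ne_finset_zero (s := {j}) fun i hi => by simp [mem_singleton.not.1 hi])
    (fun x _ => by simpa using hasSum_single (f := fun i => (if i = j then 1 else 0) * x ^ i) j fun i hi => by simp [hi]) hu
  simpa using this

theorem t_le {C : ℝ} (hC : ∀ i j : ℕ, ‖P.t i j‖ ≤ C * S.α ^ i * (1 + j)) {u : ℂ} (hu : ‖u‖ ≤ R)
    (i j : ℕ) : ‖P.t i j * u ^ i‖ ≤ C * (S.α * R) ^ i * (1 + j) := by
  rw [norm_mul, norm_pow]
  refine (mul_le_mul (hC i j) (pow_le_pow_left₀ (norm_nonneg _) hu i) (by positivity)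
    ((norm_nonneg _).trans (hC i j))).trans (le_of_eq (by ring))

include T h1 h2 in
theorem Stable.dbl {φ : ℕ → ℂ} (hφ : Summable fun j : ℕ => (1 + (j : ℝ)) * ‖φ j‖) {u : ℂ} (hu : ‖u‖ ≤ R) :
    HasSum (fun s : ℕ × ℕ => P.t s.1 s.2 * u ^ s.1 * φ s.2) (∑' i, (∑' j, P.t i j * φ j) * u ^ i) ∧
    HasSum (fun i => (∑' j, P.t i j * φ j) * u ^ i) (∑' i, (∑' j, P.t i j * φ j) * u ^ i) ∧
    HasSum (fun j => P.T (fun z => z ^ j) u * φ j) (∑' i, (∑' j, P.t i j * φ j) * u ^ i) := by
  obtain ⟨C, C1, hC⟩ := (T.exists_mix T.rho_lt le_rfl).1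
  have q0 : 0 ≤ S.α * R := mul_nonneg S.hα.le (by linarith)
  have s : Summable fun s : ℕ × ℕ => P.t s.1 s.2 * u ^ s.1 * φ s.2 :=
    Summable.of_norm_bounded (((summable_geometric_of_lt_one q0 h2).mul_left C).mul_of_nonneg hφ
      (fun _ => by positivity) fun _ => by positivity) fun s => by
      rw [norm_mul, ← mul_assoc]
      exact mul_le_mul_of_nonneg_right (t_le hC hu _ _) (norm_nonneg _)
  have a := s.hasSum.prod_fiberwise (g := fun i => (∑' j, P.t i j * φ j) * u ^ i) fun i =>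
    hs_congr (s.prod_factor i).hasSum (fun _ => rfl) (by
      rw [← tsum_mul_right]
      exact tsum_congr fun j => by ring)
  rw [a.tsum_eq]
  exact ⟨s.hasSum, a, ((Equiv.prodComm ℕ ℕ).hasSum_iff.2 s.hasSum).prod_fiberwise fun j =>
    (T.T_mono h2 j hu).mul_right (φ j)⟩

include h1 in
theorem inv_sum {v : ℂ} (hv : ‖v‖ = R) : Summable fun j : ℕ => (1 + (j : ℝ)) * ‖v⁻¹ ^ j‖ := by
  simpa only [norm_pow, norm_inv, hv] using wgeo (r := R⁻¹) (by positivity) (inv_lt_one_of_one_lt₀ h1)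

include T h1 h2 in
theorem Stable.ker_eq {u v : ℂ} (hu : ‖u‖ ≤ R) (hv : ‖v‖ = R) :
    ∑' i, (∑' j, P.t i j * v⁻¹ ^ j) * u ^ i = P.ker u v :=
  (T.T_big h2 (inv_sum h1 hv) (fun x hx => by
    have v0 : v ≠ 0 := fun h => by simp [h] at hv; linarith
    have a : ‖v⁻¹ * x‖ < 1 := by
      rw [norm_mul, norm_inv, hv, inv_mul_lt_iff₀ (by linarith)]
      linarith
    refine hs_congr (hasSum_geometric_of_norm_lt_one a) (fun j => (mul_pow _ _ _).symm) ?_
    rw [← inv_div, sub_div, div_self v0, div_eq_inv_mul]) hu).tsum_eq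

include T h1 h2 in
theorem Stable.ker_cont : ContinuousOn (fun w : ℂ × ℂ => P.ker w.1 w.2) (closedBall 0 R ×ˢ sphere 0 R) := by
  obtain ⟨C, C1, hC⟩ := (T.exists_mix T.rho_lt le_rfl).1
  have q0 : 0 ≤ S.α * R := mul_nonneg S.hα.le (by linarith)
  refine (continuousOn_tsum (f := fun (s : ℕ × ℕ) (w : ℂ × ℂ) => P.t s.1 s.2 * w.1 ^ s.1 * w.2⁻¹ ^ s.2)
    (fun s => ?_) (((summable_geometric_of_lt_one q0 h2).mul_left C).mul_of_nonneg
      (wgeo (r := R⁻¹) (by positivity) (inv_lt_one_of_one_lt₀ h1)) (fun _ => by positivity)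
      fun _ => by positivity) fun s w hw => ?_).congr fun w hw => ?_
  · refine ContinuousOn.mul (by fun_prop) ((continuousOn_snd.inv₀ fun w hw h => ?_).pow _)
    have := mem_sphere_zero_iff_norm.1 hw.2
    simp [h] at this
    linarith
  · rw [norm_mul, norm_pow w.2⁻¹, norm_inv, mem_sphere_zero_iff_norm.1 hw.2, ← mul_assoc]
    exact mul_le_mul_of_nonneg_right (t_le hC (mem_closedBall_zero_iff.1 hw.1) _ _) (by positivity)
  · have a := mem_closedBall_zero_iff.1 hw.1
    have b := mem_sphere_zero_iff_norm.1 hw.2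
    exact ((T.dbl h1 h2 (inv_sum h1 b) a).1.tsum_eq.trans (T.ker_eq h1 h2 a b)).symm

include T h1 h2 in
theorem Stable.Z_le : ∃ a b : ℕ → ℝ, (∀ i, 0 ≤ a i) ∧ (∀ j, 0 ≤ b j) ∧
    (Summable fun i : ℕ => ((i : ℝ) + 1) * a i) ∧ Summable b ∧
    ∀ x : ℂ, ‖x‖ ≤ R → ∀ i j, ‖Zm P R x i j‖ ≤ a i * b j := by
  obtain ⟨C, C1, hC⟩ := (T.exists_mix T.rho_lt le_rfl).1
  have R0 : 0 < R := by linarith
  have q0 : 0 ≤ S.α * R := mul_nonneg S.hα.le R0.le
  have q1 : 1 ≤ (1 - S.α * R)⁻¹ := (one_le_inv₀ (by linarith)).2 (by linarith)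
  have g := hasSum_geometric_of_lt_one q0 h2
  have nR : ‖(R : ℂ)‖ = R := by rw [Complex.norm_real, Real.norm_of_nonneg R0.le]
  refine ⟨fun i => match i with | 0 => C * (1 - S.α * R)⁻¹ | i + 1 => C * (S.α * R) ^ i,
    fun j => match j with | 0 => 1 | j + 1 => (1 + (j : ℝ)) * R⁻¹ ^ j,
    fun i => ?_, fun j => ?_, ?_, ?_, fun x hx i j => ?_⟩
  · cases i <;> simp only <;> positivity
  · cases j <;> simp only <;> positivity
  · refine (summable_nat_add_iff 1).1 ((((wgeo q0 h2).add g.summable).mul_left C).congr fun i => ?_)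
    push_cast
    ring
  · exact (summable_nat_add_iff 1).1 (wgeo (r := R⁻¹) (by positivity) (inv_lt_one_of_one_lt₀ h1))
  · rcases i with _ | i <;> rcases j with _ | j <;> simp only [Zm]
    · rw [norm_one, mul_one]
      nlinarith
    · rw [norm_div, norm_pow, nR, inv_pow, ← mul_assoc, div_eq_mul_inv]
      exact mul_le_mul_of_nonneg_right ((T.T_mono h2 j hx).norm_le_of_bounded
        ((g.mul_left C).mul_right _) fun i => t_le hC hx i j) (by positivity)
    · split_ifs with h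
      · simpa [h] using C1
      · rw [norm_zero]
        positivity
    · rw [norm_div, norm_pow, nR, inv_pow, ← mul_assoc, div_eq_mul_inv]
      exact mul_le_mul_of_nonneg_right (t_le hC nR.le i j) (by positivity)

include T h1 h2 in
theorem Stable.term_eq {x : ℂ} (hx : ‖x‖ ≤ R) (n : ℕ) :
    P.term R x n = (-1) ^ n / (n.factorial : ℂ) * ∑' k : Fin n → ℕ, sub (Zm P R x) k := by
  obtain ⟨a, b, a0, b0, a1, b1, hZ⟩ := T.Z_le h1 h2
  have R0 : 0 < R := by linarith
  have Rc : (R : ℂ) ≠ 0 := by exact_mod_cast R0.ne'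
  have sa : Summable a := Summable.of_nonneg_of_le a0
    (fun i => le_mul_of_one_le_left (a0 i) (by linarith [Nat.cast_nonneg (α := ℝ) i])) a1
  rw [Model.term, (avgN_det R0 (Summable.of_nonneg_of_le (fun _ => norm_nonneg _) (fun s => hZ x hx _ _)
    (sa.mul_of_nonneg b1 a0 b0)) n _ fun v hv c d => ?_).tsum_eq]
  have v0 : ∀ c, v c ≠ 0 := fun c h => by simpa [h, R0.ne] using hv c
  refine Fin.cases ?_ (fun c => ?_) c <;> refine Fin.cases ?_ (fun d => ?_) d
  · refine hs_congr (hasSum_single (0, 0) fun s hs => ?_) (fun _ => rfl) (by simp [Model.fm, Zm])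
    rw [if_neg fun h => hs (Prod.ext (h.1.1 rfl) (h.2.1 rfl)), zero_mul]
  · have inj : Function.Injective fun j : ℕ => ((0, j + 1) : ℕ × ℕ) := fun _ _ h => by simpa using h
    refine (inj.hasSum_iff fun s hs => ?_).1 (hs_congr (T.dbl h1 h2 (inv_sum h1 (hv d)) hx).2.2 (fun j => ?_)
      (by rw [T.ker_eq h1 h2 hx (hv d)]; simp [Model.fm]))
    · rw [if_neg fun h => hs ⟨s.2 - 1, Prod.ext (h.1.1 rfl).symm ?_⟩, zero_mul]
      have := mt h.2.2 d.succ_ne_zero
      simp only
      omega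
    · have := v0 d
      simp [Zm, Fin.succ_ne_zero, div_pow]
      field_simp
  · refine hs_congr (hasSum_single (1, 0) fun s hs => ?_) (fun _ => rfl) (by simp [Model.fm, Zm])
    obtain ⟨_ | i, _ | j⟩ := s
    · simp
    · simp
    · have : i ≠ 0 := fun h => hs (by simp [h])
      simp [Zm, this]
    · simp
  · have inj : Function.Injective fun s : ℕ × ℕ => ((s.1 + 1, s.2 + 1) : ℕ × ℕ) := fun _ _ h => by
      simpa [Prod.ext_iff] using h
    refine (inj.hasSum_iff fun s hs => ?_).1 (hs_congr (T.dbl h1 h2 (inv_sum h1 (hv d)) (hv c).le).1 (fun j => ?_)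
      (by rw [T.ker_eq h1 h2 (hv c).le (hv d)]; simp [Model.fm]))
    · rw [if_neg fun h => hs ⟨(s.1 - 1, s.2 - 1), Prod.ext ?_ ?_⟩, zero_mul]
      · have := mt h.1.2 c.succ_ne_zero
        simp only
        omega
      · have := mt h.2.2 d.succ_ne_zero
        simp only
        omega
    · have := v0 d
      simp [Zm, Fin.succ_ne_zero, div_pow]
      field_simp

end Setup

end

end Pool.Agent.P.MP_386d8e_pr
end

-- part Pool.Agent.P.MP_386d8e_pr.FredD
section

set_option autoImplicit false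

open MeasureTheory Filter Topology Finset Matrix Metric

namespace Pool.Agent.P.MP_386d8e_pr

noncomputable section

namespace Setup

variable {P : Model} {S : Setup P} (T : S.Stable) {R : ℝ} (h1 : 1 < R) (h2 : S.α * R < 1)
  {p1 p2 : PMF (ℕ × ℕ)} (hst : P.Steady p1 p2)

include T hst in
theorem Stable.coefK : ∃ v : ℕ → ℂ, (Summable fun j : ℕ => (1 + (j : ℝ)) * ‖v j‖) ∧
    (∀ x : ℂ, ‖x‖ ≤ 1 → HasSum (fun j => v j * x ^ j) (pgf p2 x 0)) ∧ (∀ j, ‖v j‖ ≤ S.α ^ j) ∧
    ∀ i, ∑' j, P.t i j * v j = v i := by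
  obtain ⟨d, d1, d2, d3⟩ := (pgf_W p1).univ'
  obtain ⟨v, v1, v2⟩ := S.scale d1 d2 (f := fun x => pgf p2 x 0) fun x hx => by
    have := (d3 _ (S.B1.norm_le (S.αx_le hx))).mul_left (S.s1 (S.α * x))
    refine hs_congr this (fun i => by ring) ?_
    rw [(hst x 0 hx (by simp)).1, S.es1, S.h_eq, mul_zero, add_zero]
  simp only [one_mul] at v1
  have hv : Summable fun j : ℕ => (1 + (j : ℝ)) * ‖v j‖ :=
    Summable.of_nonneg_of_le (fun _ => by positivity)
      (fun j => mul_le_mul_of_nonneg_left (v1 j) (by positivity)) (wgeo S.hα.le S.α_lt)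
  obtain ⟨-, -, -, -, -, -, m1, m2⟩ := (T.exists_mix T.rho_lt le_rfl).2 v hv _ v2
  refine ⟨v, hv, v2, v1, fun i => ?_⟩
  rw [← sub_eq_zero]
  refine coeff_nat (fun i => ∑' j, P.t i j * v j - v i) (m1.of_norm.sub (wsum_norm hv).of_norm).norm
    (fun x hx => ?_) i
  refine hs_congr ((m2 x hx.le).sub (v2 x hx.le)) (fun i => by ring) ?_
  rw [T_true (S := S) hst hx.le, sub_self]

include T h1 h2 in
theorem Stable.fred : (∀ x : ℂ, ‖x‖ ≤ R → Summable fun n => ‖P.term R x n‖) ∧ P.E R 1 ≠ 0 ∧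
    ∀ v : ℕ → ℂ, (∀ j, ‖v j‖ ≤ S.α ^ j) → (∀ i, ∑' j, P.t i j * v j = v i) → ∀ x : ℂ, ‖x‖ ≤ R →
      (∑' i, v i) * P.E R x / P.E R 1 = ∑' i, v i * x ^ i := by
  obtain ⟨a, b, a0, b0, a1, b1, hZ⟩ := T.Z_le h1 h2
  have R0 : 0 < R := by linarith
  have Rc : (R : ℂ) ≠ 0 := by exact_mod_cast R0.ne'
  have nR : ‖(R : ℂ)‖ = R := by rw [Complex.norm_real, Real.norm_of_nonneg R0.le]
  have n1 : ‖(1 : ℂ)‖ ≤ R := by simpa using h1.le
  have B0 : 0 ≤ ∑' j, b j := tsum_nonneg b0
  have a0' : ∀ i, 0 ≤ a i * ∑' j, b j := fun i => mul_nonneg (a0 i) B0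
  have hZ' : ∀ x : ℂ, ‖x‖ ≤ R → ∀ i j, ‖Zm P R x i j‖ ≤ a i * ∑' j, b j := fun x hx i j =>
    (hZ x hx i j).trans (mul_le_mul_of_nonneg_left (b1.le_tsum j fun _ _ => b0 _) (a0 i))
  have a1' : Summable fun i : ℕ => ((i : ℝ) + 1) * (a i * ∑' j, b j) := by
    simpa only [mul_assoc] using a1.mul_right (∑' j, b j)
  have k := fun (x : ℂ) (hx : ‖x‖ ≤ R) => koch a0' (hZ' x hx) a1'
  have kE : ∀ x : ℂ, ‖x‖ ≤ R → Tendsto (fun N => (sec (Zm P R x) N).det) atTop (𝓝 (P.E R x)) := fun x hx => by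
    simpa only [Model.E, T.term_eq h1 h2 hx] using (k x hx).2
  have g := wgeo (r := R⁻¹) (by positivity) (inv_lt_one_of_one_lt₀ h1)
  have rows : ∀ (x : ℂ), ‖x‖ ≤ R → ∀ u : ℕ → ℂ, (Summable fun j => ‖u j‖) →
      (Summable fun j : ℕ => (1 + (j : ℝ)) * ‖u (j + 1) / R ^ j‖) ∧
      ∑' j, Zm P R x 0 j * u j = u 0 + ∑' i, (∑' j, P.t i j * (u (j + 1) / R ^ j)) * x ^ i ∧
      ∀ i, ∑' j, Zm P R x (i + 1) j * u j =
        (if i = 0 then u 0 else 0) + R ^ i * ∑' j, P.t i j * (u (j + 1) / R ^ j) := by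
    intro x hx u hu
    have s1 : Summable fun j : ℕ => (1 + (j : ℝ)) * ‖u (j + 1) / R ^ j‖ :=
      Summable.of_nonneg_of_le (fun _ => by positivity) (fun j => by
        rw [norm_div, norm_pow, nR, div_eq_inv_mul, ← mul_assoc, ← inv_pow]
        exact mul_le_mul_of_nonneg_right (g.le_tsum j fun _ _ => by positivity) (norm_nonneg _))
        (((summable_nat_add_iff 1).2 hu).mul_left _)
    have s2 := fun i => (row_summable (γ := fun _ => 1) a0' (fun _ => le_rfl)
      (fun i j => by simpa using hZ' x hx i j) (by simpa using hu) i).of_norm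
    refine ⟨s1, ?_, fun i => ?_⟩
    · rw [(s2 0).tsum_eq_zero_add, ← (T.dbl h1 h2 s1 hx).2.2.tsum_eq]
      simp only [Zm, one_mul]
      congr 1
      exact tsum_congr fun j => by ring
    · rw [(s2 _).tsum_eq_zero_add, ← tsum_mul_left]
      simp only [Zm, ite_mul, one_mul, zero_mul]
      congr 1
      exact tsum_congr fun j => by ring
  obtain ⟨e1, e2⟩ := koch_ne a0' (hZ' 1 n1) a1' (fun u hu c0 c1 => by
    obtain ⟨s1, s2, s3⟩ := rows 1 n1 u hu
    have c2 : ∀ i, u (i + 1) / R ^ i = (if i = 0 then u 0 else 0) + ∑' j, P.t i j * (u (j + 1) / R ^ j) := by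
      intro i
      rw [c1 _ i.succ_ne_zero, s3]
      split_ifs with h
      · simp [h]
      · field_simp
        ring
    have c3 := (T.dbl h1 h2 s1 n1).2.1
    simp only [one_pow, mul_one] at c3 s2
    have c4 := T.inj _ s1 (by
      rw [← c0, s2]
      exact (hs_congr ((hasSum_ite_eq 0 (u 0)).add c3) c2 rfl).tsum_eq) fun i hi => by
        rw [c2, if_neg hi, zero_add]
    have c5 : ∀ j, u (j + 1) / R ^ j = 0 := congrFun c4
    funext i
    rcases i with _ | i
    · simpa [c5, c0] using s2.symm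
    · simpa [Rc] using c5 i) (kE 1 n1)
  refine ⟨fun x hx => by simpa only [T.term_eq h1 h2 hx] using (k x hx).1, e1, fun v v1 v2 x hx => ?_⟩
  let V : ℕ → ℂ := fun j => match j with | 0 => 0 | j + 1 => v j * R ^ j
  have V1 : Summable fun j => ‖V j‖ := (summable_nat_add_iff 1).1 (Summable.of_nonneg_of_le
    (fun _ => norm_nonneg _) (fun j => by
      simp only [V]
      rw [norm_mul, norm_pow, nR, mul_pow]
      exact mul_le_mul_of_nonneg_right (v1 j) (by positivity))
    (summable_geometric_of_lt_one (mul_nonneg S.hα.le R0.le) h2))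
  have V2 : ∀ j, V (j + 1) / R ^ j = v j := fun j => by simp [V, Rc]
  have e3 := e2 V (Zm P R x 0) _ (P.E R x) V1 (fun i hi => by
    obtain ⟨i, rfl⟩ := Nat.exists_eq_succ_of_ne_zero hi
    rw [(rows 1 n1 V V1).2.2]
    simp only [V2, v2]
    simp [V, mul_comm]) (hZ' x hx 0) ((kE x hx).congr fun N => by
      congr 1
      ext i j
      refine Fin.cases ?_ (fun i => ?_) i
      · simp [sec]
      · rw [updateRow_ne i.succ_ne_zero]
        simp only [sec, of_apply, if_neg i.succ_ne_zero, Fin.val_succ]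
        rcases (j : ℕ) with _ | j <;> rfl)
  rw [(rows 1 n1 V V1).2.1, (rows x hx V V1).2.1] at e3
  simpa [V2, v2, V] using e3

include T h1 h2 in
theorem Stable.uniq {v : ℕ → ℂ} (v0 : Summable fun j : ℕ => (1 + (j : ℝ)) * ‖v j‖) (v1 : ∀ j, ‖v j‖ ≤ S.α ^ j)
    (v2 : ∀ i, ∑' j, P.t i j * v j = v i) {f : ℂ → ℂ} (hf : ContinuousOn f (sphere 0 R)) :
    (∀ u : ℂ, ‖u‖ = R → f u = ∑' i, v i +
      Real.circleAverage (fun w => (P.ker u w - P.ker 1 w) * f w) 0 R) ↔
    ∀ u : ℂ, ‖u‖ = R → f u = ∑' i, v i * u ^ i := by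
  obtain ⟨C, C1, hC⟩ := (T.exists_mix T.rho_lt le_rfl).1
  have R0 : 0 < R := by linarith
  have hα := S.hα
  have q0 : 0 ≤ S.α * R := by positivity
  have n1 : ‖(1 : ℂ)‖ ≤ R := by simpa using h1.le
  have nR : ‖(R : ℂ)‖ = R := by rw [Complex.norm_real, Real.norm_of_nonneg R0.le]
  have g := wgeo (r := R⁻¹) (by positivity) (inv_lt_one_of_one_lt₀ h1)
  have g0 := summable_geometric_of_lt_one q0 h2
  obtain ⟨B, hB⟩ := (isCompact_sphere (0 : ℂ) R).exists_bound_of_continuousOn hf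
  have hB' : ∀ y : ℂ, ‖y‖ = R → ∀ j, ‖y⁻¹ ^ j * f y‖ ≤ R⁻¹ ^ j * B := fun y hy j => by
    rw [norm_mul, norm_pow, norm_inv, hy]
    exact mul_le_mul_of_nonneg_left (hB y (mem_sphere_zero_iff_norm.2 hy)) (by positivity)
  have B0 : 0 ≤ B := (norm_nonneg _).trans (hB R (mem_sphere_zero_iff_norm.2 nR))
  set φ : ℕ → ℂ := fun j => Real.circleAverage (fun y => y⁻¹ ^ j * f y) 0 R with hφ
  have φ1 : Summable fun j : ℕ => (1 + (j : ℝ)) * ‖φ j‖ :=
    Summable.of_nonneg_of_le (fun _ => by positivity) (fun j => by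
      rw [mul_assoc]
      exact mul_le_mul_of_nonneg_left (avg_norm R0 fun y hy => hB' y hy j) (by positivity)) (g.mul_right B)
  have ci : ContinuousOn (fun w : ℂ => w⁻¹) (sphere 0 R) := continuousOn_inv₀.mono fun w hw h => by
    have := mem_sphere_zero_iff_norm.1 hw
    simp [Set.mem_singleton_iff.1 h, R0.ne] at this
  have key : ∀ u : ℂ, ‖u‖ = R → Real.circleAverage (fun w => (P.ker u w - P.ker 1 w) * f w) 0 R =
      ∑' i, (∑' j, P.t i j * φ j) * u ^ i - ∑' i, (∑' j, P.t i j * φ j) * 1 ^ i := fun u hu => by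
    refine (avg_dom R0 (g := fun (s : ℕ × ℕ) w => (P.t s.1 s.2 * u ^ s.1 - P.t s.1 s.2 * 1 ^ s.1) • (w⁻¹ ^ s.2 * f w))
      (fun s => continuousOn_const.fun_smul ((ci.fun_pow _).fun_mul hf))
      (fun s y hy => ?_) (((g0.mul_left (2 * C)).mul_of_nonneg (g.mul_right B) (fun _ => by positivity)
        fun _ => by positivity)) fun y hy => ?_).unique
      (hs_congr ((T.dbl h1 h2 φ1 hu.le).1.sub (T.dbl h1 h2 φ1 n1).1) (fun s => ?_) rfl)
    · rw [norm_smul]
      refine (mul_le_mul ((norm_sub_le _ _).trans (add_le_add (t_le hC hu.le _ _) (t_le hC n1 _ _)))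
        (hB' y hy _) (norm_nonneg _) (by positivity)).trans (le_of_eq (by ring))
    · rw [← T.ker_eq h1 h2 hu.le hy, ← T.ker_eq h1 h2 n1 hy]
      exact hs_congr (((T.dbl h1 h2 (inv_sum h1 hy) hu.le).1.sub (T.dbl h1 h2 (inv_sum h1 hy) n1).1).mul_right
        (f y)) (fun s => by rw [smul_eq_mul]; ring) rfl
    · rw [Real.circleAverage_fun_smul, smul_eq_mul]
      ring
  have vs : Summable fun i => ‖v i‖ * R ^ i := Summable.of_nonneg_of_le (fun _ => by positivity)
    (fun i => by rw [mul_pow]; exact mul_le_mul_of_nonneg_right (v1 i) (by positivity)) g0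
  constructor
  · intro h
    have ψ1 := (T.dbl h1 h2 φ1 n1).2.1
    simp only [one_pow, mul_one] at ψ1 key
    set ψ : ℕ → ℂ := fun i => ∑' j, P.t i j * φ j with hψ
    have c1 : ∀ u : ℂ, ‖u‖ ≤ R → HasSum (fun i => ((if i = 0 then ∑' i, v i - ∑' i, ψ i else 0) + ψ i) * u ^ i)
        (∑' i, v i + (∑' i, ψ i * u ^ i - ∑' i, ψ i)) := fun u hu =>
      hs_congr ((hasSum_ite_eq 0 (∑' i, v i - ∑' i, ψ i)).add (T.dbl h1 h2 φ1 hu).2.1)
        (fun i => by split_ifs with h <;> simp [h, ψ]) (by ring)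
    have c2 : ∀ j, φ j = (if j = 0 then ∑' i, v i - ∑' i, ψ i else 0) + ψ j :=
      avg_coef R0 (by simpa only [norm_mul, norm_pow, nR] using (c1 R nR.le).summable.norm) fun y hy => by
        rw [h y hy, key y hy]
        exact c1 y hy.le
    have γ : ∀ j : ℕ, 1 ≤ 1 + (j : ℝ) := fun j => by linarith [Nat.cast_nonneg (α := ℝ) j]
    have rs := fun (z : ℕ → ℂ) (hz : Summable fun j : ℕ => (1 + (j : ℝ)) * ‖z j‖) i =>
      (row_summable (a := fun i => C * S.α ^ i) (fun _ => by positivity) γ hC hz i).of_norm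
    have c3 := T.inj (fun j => φ j - v j) (wsum_sub γ φ1 v0) (by
      have := c1 1 n1
      simp only [one_pow, mul_one, ← c2, sub_self, add_zero] at this
      rw [(this.sub (wsum_norm v0).of_norm.hasSum).tsum_eq, sub_self]) fun i hi => by
        simp only [mul_sub]
        rw [(rs φ φ1 i).tsum_sub (rs v v0 i), v2, c2, if_neg hi, zero_add]
    intro u hu
    have c4 := c1 u hu.le
    simp only [← c2, fun j => sub_eq_zero.1 (congrFun c3 j : φ j - v j = 0)] at c4
    rw [h u hu, key u hu, c4.tsum_eq]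
  · intro h u hu
    have c1 : ∀ j, φ j = v j := avg_coef R0 vs fun y hy => by
      rw [h y hy]
      exact (Summable.of_norm (by simpa only [norm_mul, norm_pow, hy] using vs)).hasSum
    simp only [key u hu, c1, v2, h u hu, one_pow, mul_one]
    ring

end Setup

theorem solution (P : Model) (h1 : 0 < P.l1) (h2 : 0 < P.l2)
    (hS : ¬ ((P.S1 : Measure NNReal) = Measure.dirac 0 ∧ (P.S2 : Measure NNReal) = Measure.dirac 0))
    (p1 p2 : PMF (ℕ × ℕ)) (hst : P.Steady p1 p2) (R : ℝ) (hR : 1 < R) (hR' : P.l1 * R < P.l1 + P.l2) :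
    ContinuousOn (fun w : ℂ × ℂ => P.ker w.1 w.2) (closedBall 0 R ×ˢ sphere 0 R) ∧
    (∀ x : ℂ, ‖x‖ ≤ R → Summable fun n => ‖P.term R x n‖) ∧ P.E R 1 ≠ 0 ∧
    ContinuousOn (P.KF R) (closedBall 0 R) ∧
    (∀ f : ℂ → ℂ, ContinuousOn f (sphere 0 R) → ((∀ u : ℂ, ‖u‖ = R → f u = P.kappa +
      Real.circleAverage (fun w => (P.ker u w - P.ker 1 w) * f w) 0 R) ↔ ∀ u : ℂ, ‖u‖ = R → f u = P.KF R u)) ∧
    ∀ x y : ℂ, ‖x‖ ≤ 1 → ‖y‖ ≤ 1 → pgf p2 x 0 = P.KF R x ∧ pgf p1 x y = P.sol (P.KF R) x y ∧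
      pgf p2 x y = lst P.S1 (P.th x y) * P.sol (P.KF R) (P.h y x) y := by
  set S := mkSetup P h1 h2 hS with hSd
  obtain ⟨T, hT⟩ := S.exists_stable hst
  have hL := add_pos h1 h2
  have e1 : T.m1 = (P.l1 + P.l2) * mean P.B1 := T.h1.unique (qq_mean _ hL T.h1.summable)
  have e2 : T.m2 = (P.l1 + P.l2) * mean P.B2 := T.h2.unique (qq_mean _ hL T.h2.summable)
  have e3 : T.n1 = (P.l1 + P.l2) * mean P.S1 := T.k1.unique (qq_mean _ hL T.k1.summable)
  have e4 : T.n2 = (P.l1 + P.l2) * mean P.S2 := T.k2.unique (qq_mean _ hL T.k2.summable)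
  have eα : S.α = P.l1 / (P.l1 + P.l2) := rfl
  have eβ : S.β = P.l2 / (P.l1 + P.l2) := rfl
  have hκ : pgf p2 1 0 = P.kappa := by
    have a0 : 1 - S.α * T.m1 - S.β * T.m2 ≠ 0 := by
      have := mul_nonneg S.hβ.le (add_nonneg T.n1_nonneg T.n2_nonneg)
      have := T.st
      linarith
    have a1 : P.kappa = (1 - S.α * T.m1 - S.β * (T.n1 + T.n2 + T.m2)) / (1 - S.α * T.m1 - S.β * T.m2) := by
      rw [Model.kappa, e1, e2, e3, e4, eα, eβ]
      congr 1
      · field_simp; ring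
      · field_simp
    rw [a1, Complex.ofReal_div, eq_div_iff (by exact_mod_cast a0), hT]
  have hq : S.α * R < 1 := by rw [eα, div_mul_eq_mul_div, div_lt_one hL]; exact hR'
  obtain ⟨v, v0, v1, v2, v3⟩ := T.coefK hst
  obtain ⟨f1, f2, f3⟩ := T.fred hR hq
  have s1 : ∑' i, v i = P.kappa := by simpa [hκ] using (v1 1 (by simp)).tsum_eq
  have s2 : ∀ x : ℂ, ‖x‖ ≤ R → P.KF R x = ∑' i, v i * x ^ i := fun x hx => by
    rw [← f3 v v2 v3 x hx, s1, Model.KF]
  have hK : ∀ x : ℂ, ‖x‖ ≤ 1 → P.KF R x = pgf p2 x 0 := fun x hx => by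
    rw [s2 x (hx.trans hR.le), (v1 x hx).tsum_eq]
  have hser : ∀ x y : ℂ, ‖x‖ ≤ 1 → ‖y‖ ≤ 1 → P.ser (P.KF R) x y = P.ser (fun x => pgf p2 x 0) x y :=
    fun x y hx hy => tsum_congr fun k => by rw [hK _ (S.z_le k hx hy)]
  have hF1 : ∀ x y : ℂ, ‖x‖ ≤ 1 → ‖y‖ ≤ 1 → pgf p1 x y = P.sol (P.KF R) x y := by
    intro x y hx hy
    rw [Model.sol]
    split_ifs with a1 a2
    · exact ((pgf_W p1).cauchy hx a1 fun w hw hw1 => by
        rw [hser x w hx hw.le, Setup.ser_true (S := S) hst hx hw hw1]).symm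
    · rw [a2, hser x 1 hx (by simp), T.at_one hst hx]
    · rw [hser x y hx hy, Setup.ser_true (S := S) hst hx (le_antisymm hy (not_lt.1 a1)) a2]
  refine ⟨T.ker_cont hR hq, f1, f2, ?_, fun f hf => ?_, fun x y hx hy => ⟨(hK x hx).symm, hF1 x y hx hy, ?_⟩⟩
  · refine (continuousOn_tsum (f := fun i (x : ℂ) => v i * x ^ i) (fun i => by fun_prop)
      (summable_geometric_of_lt_one (mul_nonneg S.hα.le (by linarith)) hq) fun i x hx => ?_).congr
      fun x hx => s2 x (mem_closedBall_zero_iff.1 hx)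
    rw [norm_mul, norm_pow, mul_pow]
    exact mul_le_mul (v2 i) (pow_le_pow_left₀ (norm_nonneg _) (mem_closedBall_zero_iff.1 hx) i)
      (by positivity) (pow_nonneg S.hα.le i)
  · rw [← s1, T.uniq hR hq v0 v2 v3 hf]
    exact forall₂_congr fun u hu => by rw [s2 u hu.le]
  · rw [← hF1 _ y (S.h_le hx hy) hy, (hst x y hx hy).1]

end

end Pool.Agent.P.MP_386d8e_pr
end

-- part Pool.Agent.P.MP_386d8e_pr.FredE
section

set_option autoImplicit false

open MeasureTheory Filter Topology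

namespace Pool.Agent.P.MP_386d8e_pr

/-- Without switch-over times the only steady state is the empty system. -/
theorem degenerate (P : Model) (h1 : 0 < P.l1) (h2 : 0 < P.l2) (p1 p2 : PMF (ℕ × ℕ)) (hst : P.Steady p1 p2)
    (hS : (P.S1 : Measure NNReal) = Measure.dirac 0 ∧ (P.S2 : Measure NNReal) = Measure.dirac 0)
    (x y : ℂ) (hx : ‖x‖ ≤ 1) (hy : ‖y‖ ≤ 1) : pgf p1 x y = 1 ∧ pgf p2 x y = 1 := by
  have hL := add_pos h1 h2
  have s1 : ∀ s, lst P.S1 s = 1 := fun s => by simp [lst, hS.1]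
  have s2 : ∀ s, lst P.S2 s = 1 := fun s => by simp [lst, hS.2]
  have B1 := pg_lst P.B1 hL
  have B2 := pg_lst P.B2 hL
  have q0 := B2.pos
  have q1 : qq P.B2 (P.l1 + P.l2) 0 ≤ 1 := le_hasSum B2.sum_one 0 fun n _ => B2.nonneg n
  set t : ℝ := qq P.B2 (P.l1 + P.l2) 0 / 2 with ht
  have t0 : 0 < t := by positivity
  have t1 : t ≤ 1 := by linarith
  set z : ℝ := P.l2 / (P.l1 + P.l2) * t with hz
  have z0 : 0 ≤ z := by positivity
  have z1 : z ≤ 1 := mul_le_one₀ ((div_le_one hL).2 (by linarith)) t0.le t1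
  have e1 : P.th 0 t = ((P.l1 + P.l2 : ℝ) : ℂ) * (1 - z) := by
    have : (P.l1 : ℂ) + P.l2 ≠ 0 := by exact_mod_cast hL.ne'
    rw [Model.th, hz]
    push_cast
    field_simp
    ring
  have e0 : P.th 0 0 = ((P.l1 + P.l2 : ℝ) : ℂ) * (1 - (0 : ℝ)) := by simp [Model.th]
  have a1 := B1.ofReal_re z0 z1
  have a2 := B1.le_re z0 z1
  have a3 := (Complex.re_le_norm _).trans (B1.norm_le (nrm z0 z1))
  have a4 := B2.ofReal_re z0 z1
  have a5 := B2.le_re z0 z1
  have a6 := B1.zero
  have a7 := B1.pos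
  set b := (lst P.B1 (((P.l1 + P.l2 : ℝ) : ℂ) * (1 - z))).re
  set β := (lst P.B2 (((P.l1 + P.l2 : ℝ) : ℂ) * (1 - z))).re
  set b0 := qq P.B1 (P.l1 + P.l2) 0
  obtain ⟨F, hF, hF'⟩ := pgf_real p1 le_rfl zero_le_one t0.le t1
  obtain ⟨G, hG, hG'⟩ := pgf_real p1 (a7.le.trans a2) a3 t0.le t1
  obtain ⟨K, hK, hK'⟩ := pgf_real p1 a7.le (a2.trans a3) le_rfl zero_le_one
  obtain ⟨r1, r2⟩ := hst 0 t (by simp) (nrm t0.le t1)
  have r3 := (hst 0 0 (by simp) (by simp)).1
  replace r2 := r2 (by exact_mod_cast t0.ne')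
  rw [Complex.ofReal_zero] at hF hK e0
  rw [s1, Model.h, e0, a6, ← hK, one_mul] at r3
  rw [s1, Model.h, e1, ← a1, ← hG, one_mul] at r1
  rw [s2, e1, ← a4, r1, r3, ← hF, one_mul] at r2
  have r4 : F = β / t * (G - K) + K := by exact_mod_cast r2
  have βt : 1 < β / t := by rw [one_lt_div t0]; linarith
  let c : ℕ × ℕ → ℝ := fun s =>
    β / t * (b ^ s.1 * t ^ s.2 - b0 ^ s.1 * 0 ^ s.2) + b0 ^ s.1 * 0 ^ s.2 - 0 ^ s.1 * t ^ s.2
  have c1 : ∀ s, s ≠ (0, 0) → 0 < c s := by
    have b1 : 0 < b := a7.trans_le a2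
    rintro ⟨_ | i, _ | j⟩ hs
    · exact absurd rfl hs
    · have : 0 < (β / t - 1) * t ^ (j + 1) := mul_pos (by linarith) (by positivity)
      simp only [c, pow_zero, zero_pow j.succ_ne_zero]
      linarith
    · have := mul_nonneg (zero_le_one.trans βt.le) (sub_nonneg.2 (pow_le_pow_left₀ a7.le a2 (i + 1)))
      have := pow_pos a7 (i + 1)
      simp only [c, pow_zero, zero_pow i.succ_ne_zero, mul_one]
      linarith
    · have : 0 < β / t * (b ^ (i + 1) * t ^ (j + 1)) := by positivity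
      simpa only [c, zero_pow i.succ_ne_zero, zero_pow j.succ_ne_zero, mul_zero, zero_mul, sub_zero, add_zero]
  have c2 : HasSum (fun s => (p1 s).toReal * c s) 0 :=
    hs_congr ((((hG'.sub hK').mul_left (β / t)).add hK').sub hF') (fun s => by simp only [c]; ring)
      (by rw [r4, sub_self])
  have c3 : ∀ s, s ≠ (0, 0) → (p1 s).toReal = 0 := fun s hs => by
    have := le_hasSum c2 s fun u _ => by
      by_cases hu : u = (0, 0)
      · simp [hu, c]
      · exact mul_nonneg ENNReal.toReal_nonneg (c1 u hu).le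
    exact le_antisymm (le_of_mul_le_mul_right (by simpa using this) (c1 s hs)) ENNReal.toReal_nonneg
  have c4 : ∀ u v : ℂ, pgf p1 u v = ((p1 (0, 0)).toReal : ℂ) := fun u v => by
    rw [pgf, tsum_eq_single (0, 0) fun s hs => by simp [c3 s hs]]
    simp
  have c5 : ∀ u v : ℂ, pgf p1 u v = 1 := fun u v => by rw [c4, ← c4 1 1, pgf_one]
  exact ⟨c5 x y, by rw [(hst x y hx hy).1, s1, c5, one_mul]⟩

end Pool.Agent.P.MP_386d8e_pr
end
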